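import Pool.Agent.Lib.P49d.Defs

/-!
# Module P49d.Dig: digits

PROOF SKETCH. `exists_code`: induction on `t`: take `c + f t * B ^ t` (`c < B ^ t` for the first `t`
digits): for `j < t`, `(c + f t * B ^ t) / B ^ j = c / B ^ j + f t * B ^ (t - j)`, and `B ^ (t - j)` is
divisible by `B`; for `j = t` the quotient is `f t`. `exists_setcode`: enumerate `A` by
`A.orderEmbOfFin` or `A.toList`, put `f j = n` for `j ≥ A.card`, and use `exists_code` with
`B = n + 1`. `cd_inj`: the remainder modulo `n + 1` is `a`, then the remainder of the quotient modulo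
`(n + 1) ^ K` is `b`. `exists_Vs`: from `exists_setcode`.
-/

set_option autoImplicit false

namespace Pool.Agent.P49d

open Finset

theorem exists_code (B t : ℕ) (f : ℕ → ℕ) (hf : ∀ j < t, f j < B) :
    ∃ c < B ^ t, ∀ j < t, c / B ^ j % B = f j := by
  induction t with
  | zero => exact ⟨0, by simp, fun j hj => absurd hj (Nat.not_lt_zero _)⟩
  | succ t ih =>
    obtain ⟨c, hc, h⟩ := ih (fun j hj => hf j (by omega))
    have hft := hf t (by omega)
    have hB : 0 < B := by omega
    refine ⟨c + f t * B ^ t, ?_, ?_⟩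
    · calc c + f t * B ^ t < B ^ t + f t * B ^ t := by omega
        _ = (f t + 1) * B ^ t := by ring
        _ ≤ B * B ^ t := Nat.mul_le_mul_right _ hft
        _ = B ^ (t + 1) := by ring
    · intro j hj
      rcases Nat.lt_succ_iff_lt_or_eq.1 hj with hj | hj
      · have e1 : f t * B ^ t = B ^ j * (f t * B ^ (t - j)) := by
          have e2 : B ^ t = B ^ j * B ^ (t - j) := by
            rw [← pow_add]
            congr 1
            omega
          rw [e2]
          ring
        rw [e1, Nat.add_mul_div_left _ _ (pow_pos hB _)]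
        have e3 : f t * B ^ (t - j) = B * (f t * B ^ (t - j - 1)) := by
          have e4 : t - j = (t - j - 1) + 1 := by omega
          rw [e4, pow_succ, Nat.add_sub_cancel]
          ring
        rw [e3, Nat.add_mul_mod_self_left]
        exact h j hj
      · rw [hj, Nat.add_mul_div_right _ _ (pow_pos hB _), Nat.div_eq_of_lt hc, zero_add]
        exact Nat.mod_eq_of_lt hft

/-- A code for a small set; the other digits are `n`. -/
theorem exists_setcode {n K : ℕ} {A : Finset ℕ} (hA : A ⊆ range n) (hK : A.card ≤ K) :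
    ∃ b < (n + 1) ^ K, ∀ x < n, x ∈ A ↔ ∃ j < K, b / (n + 1) ^ j % (n + 1) = x := by
  classical
  set l : List ℕ := A.toList with hl
  have hlen : l.length = A.card := Finset.length_toList A
  have hmem : ∀ x, x ∈ l ↔ x ∈ A := fun x => Finset.mem_toList
  obtain ⟨b, hb, h⟩ := exists_code (n + 1) K (fun j => l.getD j n) (by
    intro j _
    show l.getD j n < n + 1
    by_cases hj : j < l.length
    · rw [List.getD_eq_getElem _ _ hj]
      have h1 := hA ((hmem _).1 (List.getElem_mem hj))
      rw [mem_range] at h1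
      omega
    · rw [List.getD_eq_default _ _ (by omega)]
      omega)
  refine ⟨b, hb, fun x hx => ⟨fun hxA => ?_, ?_⟩⟩
  · obtain ⟨j, hj, hjx⟩ := List.getElem_of_mem ((hmem x).2 hxA)
    refine ⟨j, by omega, ?_⟩
    rw [h j (by omega)]
    show l.getD j n = x
    rw [List.getD_eq_getElem _ _ hj]
    exact hjx
  · rintro ⟨j, hj, hjx⟩
    rw [h j hj] at hjx
    change l.getD j n = x at hjx
    by_cases hjl : j < l.length
    · rw [List.getD_eq_getElem _ _ hjl] at hjx
      rw [← hjx]
      exact (hmem _).1 (List.getElem_mem hjl)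
    · rw [List.getD_eq_default _ _ (by omega)] at hjx
      omega

theorem exists_Vs {n m : ℕ} {A : Finset ℕ} (hA : A ⊆ range n) (hm : A.card ≤ m) :
    ∃ v < (n + 1) ^ m, Vs n m v = A := by
  obtain ⟨v, hv, h⟩ := exists_setcode hA hm
  refine ⟨v, hv, ?_⟩
  ext x
  unfold Vs
  rw [mem_filter, mem_range]
  constructor
  · rintro ⟨h1, h2⟩
    exact (h x h1).2 h2
  · intro h1
    have h2 := mem_range.1 (hA h1)
    exact ⟨h2, (h x h2).1 h1⟩

theorem cd_lt {n K k b a : ℕ} (hk : k < n + 1) (hb : b < (n + 1) ^ K) (ha : a < n + 1) :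
    cd n K k b a < Sz n K := by
  unfold cd Sz
  have h1 : k * (n + 1) ^ K + b + 1 ≤ (n + 1) * (n + 1) ^ K := by
    calc k * (n + 1) ^ K + b + 1 ≤ k * (n + 1) ^ K + (n + 1) ^ K := by omega
      _ = (k + 1) * (n + 1) ^ K := by ring
      _ ≤ (n + 1) * (n + 1) ^ K := Nat.mul_le_mul_right _ hk
  calc (k * (n + 1) ^ K + b) * (n + 1) + a < (k * (n + 1) ^ K + b) * (n + 1) + (n + 1) := by omega
    _ = (k * (n + 1) ^ K + b + 1) * (n + 1) := by ring
    _ ≤ (n + 1) * (n + 1) ^ K * (n + 1) := Nat.mul_le_mul_right _ h1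

theorem cd_inj {n K k b a k' b' a' : ℕ} (hb : b < (n + 1) ^ K) (ha : a < n + 1)
    (hb' : b' < (n + 1) ^ K) (ha' : a' < n + 1) (h : cd n K k b a = cd n K k' b' a') :
    k = k' ∧ b = b' ∧ a = a' := by
  have key : ∀ N X Y u v : ℕ, u < N → v < N → X * N + u = Y * N + v → X = Y ∧ u = v := by
    intro N X Y u v hu hv he
    have hN : 0 < N := by omega
    have h1 : (X * N + u) / N = X := by
      rw [add_comm, Nat.add_mul_div_right _ _ hN, Nat.div_eq_of_lt hu, zero_add]
    have h2 : (Y * N + v) / N = Y := by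
      rw [add_comm, Nat.add_mul_div_right _ _ hN, Nat.div_eq_of_lt hv, zero_add]
    have h3 : X = Y := by rw [← h1, ← h2, he]
    subst h3
    exact ⟨rfl, by omega⟩
  unfold cd at h
  obtain ⟨h1, h2⟩ := key _ _ _ _ _ ha ha' h
  obtain ⟨h3, h4⟩ := key _ _ _ _ _ hb hb' h1
  exact ⟨h3, h4, h2⟩

end Pool.Agent.P49d
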