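import Pool.Agent.Lib.P49d.PBase

/-!
# Module P49d.PLv: polynomial time, levels

PROOF SKETCH. `poly_tab'` with `S = (h + 1) * (n + 1)` and the rule, for the index `p` with `k = p / (n + 1)`,
`z = p % (n + 1)`: `k = 0 ∨ (z ∈ U ∧ (k = 1 ∨ ∃ y < n, r z y ∧ T ((k - 1) * (n + 1) + y)))`, where
`r = rT n t`, `U = sT n u`. For the final table `T`: for `k ≤ h`, `z ≤ n`: `T (k * (n + 1) + z) ↔ Lv r U k z`: `→` by
`tabP_induct` (`P p := Lv r U (p / (n + 1)) (p % (n + 1))`; for `y < n` the index `(k - 1) * (n + 1) + y` has quotient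
`k - 1` and remainder `y`), `←` by induction on `k` with `tabP_fix`. If `x a < n a + 1` then
`Lv r U (h a) (x a) ↔ T (h a * (n a + 1) + x a)`; otherwise `x a ∉ U` and `Lv r U (h a) (x a) ↔ h a = 0`.
-/

set_option autoImplicit false

namespace Pool.Agent.P49d

open Finset Pool.Agent.P99b9fe Pool.Agent.Lib.PolyTime Pool.Agent.Lib.Pa7c826
open Pool.Agent.Lib.P8e91ed.PT

namespace PLvAux

/-- The rule. -/
def lvR (n : ℕ) (r : ℕ → ℕ → Prop) (U : Finset ℕ) (T : ℕ → Prop) (p : ℕ) : Prop :=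
  p / (n + 1) = 0 ∨ (p % (n + 1) ∈ U ∧ (p / (n + 1) = 1 ∨
    ∃ y < n, r (p % (n + 1)) y ∧ T ((p / (n + 1) - 1) * (n + 1) + y)))

theorem divmod (n k z : ℕ) (hz : z < n + 1) :
    (k * (n + 1) + z) / (n + 1) = k ∧ (k * (n + 1) + z) % (n + 1) = z := by
  have h := (Nat.div_mod_unique (a := k * (n + 1) + z) (b := n + 1) (c := z) (d := k)
    (Nat.succ_pos n)).2 ⟨by ring, hz⟩
  exact h

theorem spec (n h : ℕ) (r : ℕ → ℕ → Prop) (hr : ∀ x y, r x y → y < n) (U : Finset ℕ) (k z : ℕ)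
    (hk : k ≤ h) (hz : z < n + 1) :
    tabP (lvR n r U) ((h + 1) * (n + 1)) ((h + 1) * (n + 1)) (k * (n + 1) + z) ↔ Lv r U k z := by
  constructor
  · intro h0
    have key : ∀ p, tabP (lvR n r U) ((h + 1) * (n + 1)) ((h + 1) * (n + 1)) p →
        Lv r U (p / (n + 1)) (p % (n + 1)) := by
      refine tabP_induct (P := fun p => Lv r U (p / (n + 1)) (p % (n + 1))) ?_ _
      intro T hT p _ hR
      show Lv r U (p / (n + 1)) (p % (n + 1))
      rcases hR with hR | ⟨hU, hR⟩
      · rw [hR]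
        trivial
      · rcases hR with hR | ⟨y, hy, hry, hTy⟩
        · rw [hR]
          exact ⟨hU, Or.inl rfl⟩
        · have h1 := hT _ hTy
          simp only [(divmod n (p / (n + 1) - 1) y (by omega)).1,
            (divmod n (p / (n + 1) - 1) y (by omega)).2] at h1
          rcases Nat.eq_zero_or_pos (p / (n + 1)) with h2 | h2
          · rw [h2]
            trivial
          · obtain ⟨k', hk'⟩ : ∃ k', p / (n + 1) = k' + 1 := ⟨p / (n + 1) - 1, by omega⟩
            rw [hk'] at h1 ⊢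
            rw [Nat.add_sub_cancel] at h1
            exact ⟨hU, Or.inr ⟨y, hry, h1⟩⟩
    have h1 := key _ h0
    rwa [(divmod n k z hz).1, (divmod n k z hz).2] at h1
  · intro h0
    induction k generalizing z with
    | zero =>
      have hlt : 0 * (n + 1) + z < (h + 1) * (n + 1) := by nlinarith
      refine tabP_fix hlt (Or.inl ?_)
      exact (divmod n 0 z hz).1
    | succ k ih =>
      have hlt : (k + 1) * (n + 1) + z < (h + 1) * (n + 1) := by nlinarith
      obtain ⟨hU, h1⟩ := h0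
      refine tabP_fix hlt (Or.inr ?_)
      rw [(divmod n (k + 1) z hz).1, (divmod n (k + 1) z hz).2, Nat.add_sub_cancel]
      refine ⟨hU, ?_⟩
      rcases h1 with h1 | ⟨y, hry, hLy⟩
      · left
        rw [h1]
      · right
        have hy := hr _ _ hry
        exact ⟨y, hy, hry, ih y (by omega) (by omega) hLy⟩

theorem lv_iff {n h x : ℕ} (r : ℕ → ℕ → Prop) (hr : ∀ x y, r x y → y < n) (U : Finset ℕ)
    (hU : ∀ z ∈ U, z < n) :
    (h = 0 ∨ (x < n + 1 ∧
      tabP (lvR n r U) ((h + 1) * (n + 1)) ((h + 1) * (n + 1)) (h * (n + 1) + x))) ↔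
    Lv r U h x := by
  cases h with
  | zero => exact ⟨fun _ => trivial, fun _ => Or.inl rfl⟩
  | succ k =>
    constructor
    · rintro (h0 | ⟨hx, h1⟩)
      · omega
      · exact (spec n (k + 1) r hr U (k + 1) x le_rfl hx).1 h1
    · intro h1
      have hx := hU x h1.1
      exact Or.inr ⟨by omega, (spec n (k + 1) r hr U (k + 1) x le_rfl (by omega)).2 h1⟩

end PLvAux

open PLvAux

variable {α : Type} {D : α → Prop} {ctx : List (α → List Bool)} {n x h : α → ℕ}
  {t u : α → List Bool}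

theorem poly_lv (hn : PolyN D ctx n) (ht : PolyC D ctx t) (hu : PolyC D ctx u)
    (hh : PolyN D ctx h) (hx : PolyN D ctx x) :
    PolyP D ctx (fun a => Lv (rT (n a) (t a)) (sT (n a) (u a)) (h a) (x a)) := by
  have hn1 := hn.succ
  have hh1 := hh.succ
  obtain ⟨T, hT, hTs⟩ := poly_tab' (D := D) (ctx := ctx)
    (R := fun a => lvR (n a) (rT (n a) (t a)) (sT (n a) (u a)))
    (S := fun a => (h a + 1) * (n a + 1)) (hh1.mul hn1) (by
      intro T z D' ctx' hD hc hT hz
      have n1 : PolyN D' ctx' (fun p => n p.1.1) :=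
        poly_moveC (fun p : (α × ℕ) × ℕ => p.1.1) hD hc hn
      have t1 : PolyC D' ctx' (fun p => t p.1.1) :=
        poly_moveC (fun p : (α × ℕ) × ℕ => p.1.1) hD hc ht
      have u1 : PolyC D' ctx' (fun p => u p.1.1) :=
        poly_moveC (fun p : (α × ℕ) × ℕ => p.1.1) hD hc hu
      have dv : PolyN D' ctx' (fun p => z p / (n p.1.1 + 1)) := n_div hz n1.succ
      have md : PolyN D' ctx' (fun p => z p % (n p.1.1 + 1)) := n_mod hz n1.succ
      have e1 : PolyP D' ctx' (fun p => z p / (n p.1.1 + 1) = 0) := PolyP.eq dv (PolyN.const 0)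
      have e2 : PolyP D' ctx' (fun p => z p % (n p.1.1 + 1) ∈ sT (n p.1.1) (u p.1.1)) :=
        poly_sT n1 u1 md
      have e3 : PolyP D' ctx' (fun p => z p / (n p.1.1 + 1) = 1) := PolyP.eq dv (PolyN.const 1)
      have e4 : PolyP D' ctx' (fun p => ∃ y < n p.1.1, rT (n p.1.1) (t p.1.1) (z p % (n p.1.1 + 1)) y ∧
          tb (T p.1) ((z p / (n p.1.1 + 1) - 1) * (n p.1.1 + 1) + y)) := by
        refine p_ex (n := fun p : (α × ℕ) × ℕ => n p.1.1)
          (P := fun p y => rT (n p.1.1) (t p.1.1) (z p % (n p.1.1 + 1)) y ∧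
            tb (T p.1) ((z p / (n p.1.1 + 1) - 1) * (n p.1.1 + 1) + y)) n1 ?_
        refine (poly_rT (nU n1) (cU t1) (nU md) nL).and (poly_tb (cU hT) ?_)
        exact ((nU ((Pool.Agent.Lib.Pa7c826.PolyN.sub dv (PolyN.const 1)).mul n1.succ)).add nL)
      exact e1.or (e2.and (e3.or e4)))
  have e : PolyP D ctx (fun a => h a = 0 ∨ (x a < n a + 1 ∧ tb (T a) (h a * (n a + 1) + x a))) :=
    (PolyP.eq hh (PolyN.const 0)).or ((PolyP.lt hx hn1).and (poly_tb hT ((hh.mul hn1).add hx)))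
  refine e.congr (fun a ha => ?_)
  rw [hTs a ha]
  exact lv_iff _ (fun _ _ h => h.2.1) _ (fun z hz => (mem_sT.1 hz).1)

end Pool.Agent.P49d
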