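import Pool.Agent.Lib.P49d.PBase

/-!
# Module P49d.PG: polynomial time, the auxiliary order and the generated up-sets

PROOF SKETCH. `s = rT n t`. `Dm s x y ↔ (∀ z < n, s z x → s z y) ∧ ∀ z < n, s y z → s x z` (`s` is bounded by `n`),
`Le` similarly (`∀ z, ¬ s x z` is `∀ z < n, ¬ s x z`, `∃ z, s y z` is `∃ z < n, s y z`). `poly_G`, `poly_Vs`: `poly_mkS`
with a finite disjunction over the digits (`p_any` over `Fin K`, `n_div`, `n_mod`, `PolyN.pow`).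
-/

set_option autoImplicit false

namespace Pool.Agent.P49d

open Finset Pool.Agent.P99b9fe Pool.Agent.Lib.PolyTime Pool.Agent.Lib.Pa7c826
open Pool.Agent.Lib.P8e91ed.PT

variable {α : Type} {D : α → Prop} {ctx : List (α → List Bool)} {n b x y : α → ℕ}
  {t : α → List Bool}

namespace PGAux

theorem dm_iff {n : ℕ} {t : List Bool} {x y : ℕ} :
    ((∀ z < n, rT n t z x → rT n t z y) ∧ ∀ z < n, rT n t y z → rT n t x z) ↔
      Dm (rT n t) x y := by
  constructor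
  · rintro ⟨h1, h2⟩
    exact ⟨fun z hz => h1 z hz.1 hz, fun z hz => h2 z hz.2.1 hz⟩
  · rintro ⟨h1, h2⟩
    exact ⟨fun z _ hz => h1 z hz, fun z _ hz => h2 z hz⟩

theorem max_iff {n : ℕ} {t : List Bool} {x : ℕ} :
    (∀ z < n, ¬ rT n t x z) ↔ ∀ z, ¬ rT n t x z :=
  ⟨fun h z hz => h z hz.2.1 hz, fun h z _ => h z⟩

theorem nmax_iff {n : ℕ} {t : List Bool} {x : ℕ} :
    (∃ z < n, rT n t x z) ↔ ∃ z, rT n t x z :=
  ⟨fun ⟨z, _, h⟩ => ⟨z, h⟩, fun ⟨z, h⟩ => ⟨z, h.2.1, h⟩⟩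

end PGAux

open PGAux

theorem poly_dm (hn : PolyN D ctx n) (ht : PolyC D ctx t) (hx : PolyN D ctx x)
    (hy : PolyN D ctx y) : PolyP D ctx (fun a => Dm (rT (n a) (t a)) (x a) (y a)) := by
  have n1 : PolyN (Dx D n) (cx ctx) (fun p => n p.1) := nU hn
  have t1 : PolyC (Dx D n) (cx ctx) (fun p => t p.1) := cU ht
  have x1 : PolyN (Dx D n) (cx ctx) (fun p => x p.1) := nU hx
  have y1 : PolyN (Dx D n) (cx ctx) (fun p => y p.1) := nU hy
  have z1 : PolyN (Dx D n) (cx ctx) (fun p => p.2) := nL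
  have e1 : PolyP D ctx
      (fun a => ∀ z < n a, rT (n a) (t a) z (x a) → rT (n a) (t a) z (y a)) :=
    p_fa (P := fun a z => rT (n a) (t a) z (x a) → rT (n a) (t a) z (y a)) hn
      ((poly_rT n1 t1 z1 x1).imp (poly_rT n1 t1 z1 y1))
  have e2 : PolyP D ctx
      (fun a => ∀ z < n a, rT (n a) (t a) (y a) z → rT (n a) (t a) (x a) z) :=
    p_fa (P := fun a z => rT (n a) (t a) (y a) z → rT (n a) (t a) (x a) z) hn
      ((poly_rT n1 t1 y1 z1).imp (poly_rT n1 t1 x1 z1))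
  exact (e1.and e2).congr (fun a _ => dm_iff)

theorem poly_le (hn : PolyN D ctx n) (ht : PolyC D ctx t) (hx : PolyN D ctx x)
    (hy : PolyN D ctx y) : PolyP D ctx (fun a => Le (rT (n a) (t a)) (x a) (y a)) := by
  have n1 : PolyN (Dx D n) (cx ctx) (fun p => n p.1) := nU hn
  have t1 : PolyC (Dx D n) (cx ctx) (fun p => t p.1) := cU ht
  have x1 : PolyN (Dx D n) (cx ctx) (fun p => x p.1) := nU hx
  have y1 : PolyN (Dx D n) (cx ctx) (fun p => y p.1) := nU hy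
  have z1 : PolyN (Dx D n) (cx ctx) (fun p => p.2) := nL
  have e1 : PolyP D ctx (fun a => ∀ z, ¬ rT (n a) (t a) (x a) z) :=
    (p_fa (P := fun a z => ¬ rT (n a) (t a) (x a) z) hn
      (poly_rT n1 t1 x1 z1).not).congr (fun a _ => max_iff)
  have e2 : PolyP D ctx (fun a => ∃ z, rT (n a) (t a) (y a) z) :=
    (p_ex (P := fun a z => rT (n a) (t a) (y a) z) hn
      (poly_rT n1 t1 y1 z1)).congr (fun a _ => nmax_iff)
  exact ((poly_dm hn ht hx hy).and (((poly_dm hn ht hy hx).imp (PolyP.le hx hy)).and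
    ((poly_rT hn ht hx hy).or (e1.or e2)))).congr (fun a _ => Iff.rfl)

theorem poly_G (K : ℕ) (hn : PolyN D ctx n) (ht : PolyC D ctx t) (hb : PolyN D ctx b) :
    ∃ v : α → List Bool, PolyC D ctx v ∧
      ∀ a, D a → sT (n a) (v a) = G (n a) (rT (n a) (t a)) K (b a) := by
  have n1 : PolyN (Dx D n) (cx ctx) (fun p => n p.1) := nU hn
  have t1 : PolyC (Dx D n) (cx ctx) (fun p => t p.1) := cU ht
  have b1 : PolyN (Dx D n) (cx ctx) (fun p => b p.1) := nU hb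
  have x1 : PolyN (Dx D n) (cx ctx) (fun p => p.2) := nL
  have dg : ∀ j : ℕ, PolyN (Dx D n) (cx ctx)
      (fun p => b p.1 / (n p.1 + 1) ^ j % (n p.1 + 1)) :=
    fun j => n_mod (n_div b1 (PolyN.pow n1.succ j)) n1.succ
  have e : PolyP (Dx D n) (cx ctx) (fun p => ∃ j < K,
      b p.1 / (n p.1 + 1) ^ j % (n p.1 + 1) < n p.1 ∧
        Le (rT (n p.1) (t p.1)) (b p.1 / (n p.1 + 1) ^ j % (n p.1 + 1)) p.2) := by
    refine (p_any (N := K) (P := fun p j =>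
      b p.1 / (n p.1 + 1) ^ (j : ℕ) % (n p.1 + 1) < n p.1 ∧
        Le (rT (n p.1) (t p.1)) (b p.1 / (n p.1 + 1) ^ (j : ℕ) % (n p.1 + 1)) p.2)
      fun j => (PolyP.lt (dg j) n1).and (poly_le n1 t1 (dg j) x1)).congr (fun p _ => ?_)
    constructor
    · rintro ⟨j, hj⟩
      exact ⟨j, j.2, hj⟩
    · rintro ⟨j, hj, h⟩
      exact ⟨⟨j, hj⟩, h⟩
  obtain ⟨v, hv, hv'⟩ := poly_mkS (P := fun a x => ∃ j < K,
      b a / (n a + 1) ^ j % (n a + 1) < n a ∧
        Le (rT (n a) (t a)) (b a / (n a + 1) ^ j % (n a + 1)) x) hn e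
  refine ⟨v, hv, fun a ha => ?_⟩
  ext x
  rw [hv' a ha x]
  simp only [G, mem_filter, mem_range]

theorem poly_Vs (m : ℕ) (hn : PolyN D ctx n) (hb : PolyN D ctx b) :
    ∃ v : α → List Bool, PolyC D ctx v ∧ ∀ a, D a → sT (n a) (v a) = Vs (n a) m (b a) := by
  have n1 : PolyN (Dx D n) (cx ctx) (fun p => n p.1) := nU hn
  have b1 : PolyN (Dx D n) (cx ctx) (fun p => b p.1) := nU hb
  have x1 : PolyN (Dx D n) (cx ctx) (fun p => p.2) := nL
  have dg : ∀ j : ℕ, PolyN (Dx D n) (cx ctx)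
      (fun p => b p.1 / (n p.1 + 1) ^ j % (n p.1 + 1)) :=
    fun j => n_mod (n_div b1 (PolyN.pow n1.succ j)) n1.succ
  have e : PolyP (Dx D n) (cx ctx) (fun p => ∃ j < m,
      b p.1 / (n p.1 + 1) ^ j % (n p.1 + 1) = p.2) := by
    refine (p_any (N := m) (P := fun p j =>
      b p.1 / (n p.1 + 1) ^ (j : ℕ) % (n p.1 + 1) = p.2)
      fun j => PolyP.eq (dg j) x1).congr (fun p _ => ?_)
    constructor
    · rintro ⟨j, hj⟩
      exact ⟨j, j.2, hj⟩
    · rintro ⟨j, hj, h⟩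
      exact ⟨⟨j, hj⟩, h⟩
  obtain ⟨v, hv, hv'⟩ := poly_mkS (P := fun a x => ∃ j < m,
      b a / (n a + 1) ^ j % (n a + 1) = x) hn e
  refine ⟨v, hv, fun a ha => ?_⟩
  ext x
  rw [hv' a ha x]
  simp only [Vs, mem_filter, mem_range]

end Pool.Agent.P49d
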