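import Pool.Agent.Lib.P49d.PLo
import Pool.Agent.Lib.P49d.PG

/-!
# Module P49d.PStp: polynomial time, one step of the dynamic program

PROOF SKETCH. Tables `g`, `g'` of `G … (b a)`, `G … (b' a)` (`poly_G`), `w` of `Vs … (v a)` (`poly_Vs`), `e` of
`G … (b a) \ Vs … (v a)` (`poly_mkS`), `e₁` of `hiS` and `e₀` of `loS` of it (`poly_hiS`, `poly_loS`). All sets are subsets
of `range n`, so inclusions and equalities are quantifiers over `z < n` (`poly_sT`); the minimality is a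
quantifier over `x < n`, `u < n` (`poly_rT`); cardinalities by `poly_card`; `PolyN.sub`.
`poly_dR`: bounded quantifiers (`k`, `b`, `a`, `k'`, `v`, `q`, `b'`, `a'`), `poly_Stp`, `G … = ∅`, `cd` is a
polynomial; `poly_tb` for the table `T`.
-/

set_option autoImplicit false

namespace Pool.Agent.P49d

open Finset Pool.Agent.P99b9fe Pool.Agent.Lib.PolyTime Pool.Agent.Lib.Pa7c826
open Pool.Agent.Lib.P8e91ed.PT

variable {α : Type} {D : α → Prop} {ctx : List (α → List Bool)}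
  {n x b a₀ v q b' a' : α → ℕ} {t T : α → List Bool}

namespace PStpAux

theorem poly_cd {n k b a₀ : α → ℕ} (K : ℕ) (hn : PolyN D ctx n) (hk : PolyN D ctx k)
    (hb : PolyN D ctx b) (ha : PolyN D ctx a₀) :
    PolyN D ctx (fun a => cd (n a) K (k a) (b a) (a₀ a)) :=
  (((hk.mul (PolyN.pow hn.succ K)).add hb).mul hn.succ).add ha

theorem poly_empty {u : α → List Bool} {V : α → Finset ℕ} (hn : PolyN D ctx n)
    (hu : PolyC D ctx u) (e : ∀ a, D a → sT (n a) (u a) = V a) :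
    PolyP D ctx (fun a => V a = ∅) := by
  refine (p_fa (P := fun a z => ¬ z ∈ sT (n a) (u a)) hn
    (poly_sT (nU hn) (cU hu) nL).not).congr fun a ha => ?_
  rw [← e a ha]
  constructor
  · intro h
    rw [Finset.eq_empty_iff_forall_notMem]
    intro z hz
    exact h z (mem_sT.1 hz).1 hz
  · intro h z _ hz
    rw [h] at hz
    exact absurd hz (Finset.notMem_empty z)

end PStpAux

open PStpAux

theorem poly_Stp (m K : ℕ) (hn : PolyN D ctx n) (ht : PolyC D ctx t) (hb : PolyN D ctx b)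
    (ha : PolyN D ctx a₀) (hv : PolyN D ctx v) (hq : PolyN D ctx q) (hb' : PolyN D ctx b')
    (ha' : PolyN D ctx a') : PolyP D ctx (fun a =>
      Stp (n a) (rT (n a) (t a)) m K (b a) (a₀ a) (v a) (q a) (b' a) (a' a)) := by
  classical
  obtain ⟨g, hg, eg⟩ := poly_G K hn ht hb
  obtain ⟨g', hg', eg'⟩ := poly_G K hn ht hb'
  obtain ⟨w, hw, ew⟩ := poly_Vs m hn hv
  obtain ⟨e, he, ee⟩ := poly_mkS (P := fun a x => x ∈ sT (n a) (g a) ∧ ¬ x ∈ sT (n a) (w a)) hn
    ((poly_sT (nU hn) (cU hg) nL).and (poly_sT (nU hn) (cU hw) nL).not)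
  obtain ⟨e₁, he₁, ee₁⟩ := poly_hiS m hn ht he
  obtain ⟨e₀, he₀, ee₀⟩ := poly_loS m hn ht he
  have hE : ∀ a, D a → sT (n a) (e a) = sT (n a) (g a) \ sT (n a) (w a) := by
    intro a ha
    ext x
    rw [ee a ha, Finset.mem_sdiff]
    constructor
    · exact fun h => h.2
    · exact fun h => ⟨(mem_sT.1 h.1).1, h⟩
  have p1 : PolyP D ctx (fun a => ∀ z < n a, z ∈ sT (n a) (w a) → z ∈ sT (n a) (g a)) :=
    p_fa hn ((poly_sT (nU hn) (cU hw) nL).imp (poly_sT (nU hn) (cU hg) nL))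
  have p2 : PolyP D ctx (fun a => ∀ x < n a, ∀ u < n a, x ∈ sT (n a) (w a) →
      u ∈ sT (n a) (g a) → ¬ rT (n a) (t a) u x) :=
    p_fa hn (p_fa (nU hn) ((poly_sT (nU (nU hn)) (cU (cU hw)) (nU nL)).imp
      ((poly_sT (nU (nU hn)) (cU (cU hg)) nL).imp
        (poly_rT (nU (nU hn)) (cU (cU ht)) nL (nU nL)).not)))
  have p3 : PolyP D ctx (fun a => q a ≤ a₀ a) := PolyP.le hq ha
  have p4 : PolyP D ctx (fun a => (sT (n a) (w a)).card + q a ≤ m) :=
    PolyP.le ((poly_card hn hw).add hq) (PolyN.const m)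
  have p5 : PolyP D ctx (fun a => ∀ z < n a, (z ∈ sT (n a) (g' a) → z ∈ sT (n a) (e₁ a)) ∧
      (z ∈ sT (n a) (e₁ a) → z ∈ sT (n a) (g' a))) :=
    p_fa hn (((poly_sT (nU hn) (cU hg') nL).imp (poly_sT (nU hn) (cU he₁) nL)).and
      ((poly_sT (nU hn) (cU he₁) nL).imp (poly_sT (nU hn) (cU hg') nL)))
  have p6 : PolyP D ctx (fun a => a' a = a₀ a - q a + (sT (n a) (e₀ a)).card) :=
    PolyP.eq ha' ((PolyN.sub ha hq).add (poly_card hn he₀))
  refine (p1.and (p2.and (p3.and (p4.and (p5.and p6))))).congr fun a hDa => ?_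
  rw [Stp, ← eg a hDa, ← ew a hDa, ← eg' a hDa, ← hE a hDa, ← ee₁ a hDa, ← ee₀ a hDa]
  refine and_congr ?_ (and_congr ?_ (and_congr Iff.rfl (and_congr Iff.rfl (and_congr ?_ Iff.rfl))))
  · exact ⟨fun h z hz => h z (mem_sT.1 hz).1 hz, fun h z _ hz => h hz⟩
  · exact ⟨fun h x hx u hu => h x (mem_sT.1 hx).1 u (mem_sT.1 hu).1 hx hu,
      fun h x _ u _ hx hu => h x hx u hu⟩
  · constructor
    · intro h
      ext z
      constructor
      · exact fun hz => (h z (mem_sT.1 hz).1).1 hz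
      · exact fun hz => (h z (mem_sT.1 hz).1).2 hz
    · intro h z _
      rw [h]
      exact ⟨id, id⟩

namespace PStpAux

/-- the quantifiers over the new state -/
theorem poly_dA {k' : α → ℕ} (m K : ℕ) (hn : PolyN D ctx n) (ht : PolyC D ctx t)
    (hT : PolyC D ctx T) (hb : PolyN D ctx b) (ha : PolyN D ctx a₀) (hk : PolyN D ctx k')
    (hv : PolyN D ctx v) (hq : PolyN D ctx q) :
    PolyP D ctx (fun a => ∃ b' < (n a + 1) ^ K, ∃ a' < n a + 1,
      Stp (n a) (rT (n a) (t a)) m K (b a) (a₀ a) (v a) (q a) b' a' ∧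
        tb (T a) (cd (n a) K (k' a) b' a')) := by
  refine p_ex (PolyN.pow hn.succ K) ?_
  refine p_ex (nU hn).succ ?_
  exact (poly_Stp m K (nU (nU hn)) (cU (cU ht)) (nU (nU hb)) (nU (nU ha)) (nU (nU hv))
    (nU (nU hq)) (nU nL) nL).and
    (poly_tb (cU (cU hT)) (poly_cd K (nU (nU hn)) (nU (nU hk)) (nU nL) nL))

/-- the quantifiers over the slot -/
theorem poly_dB {k' : α → ℕ} (m K : ℕ) (hn : PolyN D ctx n) (ht : PolyC D ctx t)
    (hT : PolyC D ctx T) (hb : PolyN D ctx b) (ha : PolyN D ctx a₀) (hk : PolyN D ctx k') :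
    PolyP D ctx (fun a => ∃ v < (n a + 1) ^ m, ∃ q < n a + 1, ∃ b' < (n a + 1) ^ K,
      ∃ a' < n a + 1, Stp (n a) (rT (n a) (t a)) m K (b a) (a₀ a) v q b' a' ∧
        tb (T a) (cd (n a) K (k' a) b' a')) := by
  refine p_ex (PolyN.pow hn.succ m) ?_
  refine p_ex (nU hn).succ ?_
  exact poly_dA m K (nU (nU hn)) (cU (cU ht)) (cU (cU hT)) (nU (nU hb)) (nU (nU ha))
    (nU (nU hk)) (nU nL) nL

/-- the body of the rule -/
theorem poly_dC {k : α → ℕ} (m K : ℕ) (hn : PolyN D ctx n) (ht : PolyC D ctx t)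
    (hT : PolyC D ctx T) (hx : PolyN D ctx x) (hk : PolyN D ctx k) (hb : PolyN D ctx b)
    (ha : PolyN D ctx a₀) :
    PolyP D ctx (fun a => x a = cd (n a) K (k a) (b a) (a₀ a) ∧
      ((k a = 0 ∧ a₀ a = 0 ∧ G (n a) (rT (n a) (t a)) K (b a) = ∅) ∨
        ∃ k' < n a + 1, k a = k' + 1 ∧ ∃ v < (n a + 1) ^ m, ∃ q < n a + 1,
          ∃ b' < (n a + 1) ^ K, ∃ a' < n a + 1,
          Stp (n a) (rT (n a) (t a)) m K (b a) (a₀ a) v q b' a' ∧
            tb (T a) (cd (n a) K k' b' a'))) := by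
  refine (PolyP.eq hx (poly_cd K hn hk hb ha)).and (PolyP.or ?_ ?_)
  · obtain ⟨g, hg, eg⟩ := poly_G K hn ht hb
    exact (PolyP.eq hk (PolyN.const 0)).and ((PolyP.eq ha (PolyN.const 0)).and
      (poly_empty hn hg eg))
  · refine p_ex hn.succ ?_
    exact (PolyP.eq (nU hk) nL.succ).and
      (poly_dB m K (nU hn) (cU ht) (cU hT) (nU hb) (nU ha) nL)

end PStpAux

theorem poly_dR (m K : ℕ) (hn : PolyN D ctx n) (ht : PolyC D ctx t) (hT : PolyC D ctx T)
    (hx : PolyN D ctx x) :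
    PolyP D ctx (fun a => dR (n a) (rT (n a) (t a)) m K (tb (T a)) (x a)) := by
  classical
  unfold dR
  refine p_ex hn.succ ?_
  refine p_ex (PolyN.pow (nU hn).succ K) ?_
  refine p_ex (nU (nU hn)).succ ?_
  exact poly_dC m K (nU (nU (nU hn))) (cU (cU (cU ht))) (cU (cU (cU hT))) (nU (nU (nU hx)))
    (nU (nU nL)) (nU nL) nL

end Pool.Agent.P49d
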