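import Pool.Agent.Lib.P49d.PStar
import Pool.Agent.Lib.P49d.PStp

/-!
# Module P49d.PAcc: polynomial time, the number found by the algorithm

PROOF SKETCH. `poly_acc`: `poly_tab'` with `S = Sz n K`, `R a T x = dR (n a) (rT (n a) (t a)) m K T x` (`poly_dR`;
move `n`, `t` by `poly_moveC`) gives the final table `T`. The table `w` of `range n` (`poly_mkS` with `True`,
`p_const`), its `hiS`, `loS`, `poly_card`; then a quantifier over `b < (n + 1) ^ K`: `poly_G`, the equality of sets is a
quantifier over `z < n`, and `poly_tb`. `poly_gval`: `poly_star` gives the table `t'` of `star n m (rT n t)`; `n_card`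
with `p_fa` over `k' < k + 1` and `poly_acc` for `t'`.
-/

set_option autoImplicit false

namespace Pool.Agent.P49d

open Finset Pool.Agent.P99b9fe Pool.Agent.Lib.PolyTime Pool.Agent.Lib.Pa7c826
open Pool.Agent.Lib.P8e91ed.PT

variable {α : Type} {D : α → Prop} {ctx : List (α → List Bool)} {n k : α → ℕ}
  {t : α → List Bool}

private theorem poly_sEq {u v : α → List Bool} (hn : PolyN D ctx n) (hu : PolyC D ctx u)
    (hv : PolyC D ctx v) : PolyP D ctx (fun a => sT (n a) (u a) = sT (n a) (v a)) := by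
  have h1 : PolyP D ctx (fun a => ∀ z < n a,
      (z ∈ sT (n a) (u a) → z ∈ sT (n a) (v a)) ∧ (z ∈ sT (n a) (v a) → z ∈ sT (n a) (u a))) := by
    refine p_fa (n := n) (P := fun a z => (z ∈ sT (n a) (u a) → z ∈ sT (n a) (v a)) ∧
      (z ∈ sT (n a) (v a) → z ∈ sT (n a) (u a))) hn ?_
    have h2 := poly_sT (nU (n := n) hn) (cU (n := n) hu) (nL (n := n) (D := D) (ctx := ctx))
    have h3 := poly_sT (nU (n := n) hn) (cU (n := n) hv) (nL (n := n) (D := D) (ctx := ctx))
    exact (h2.imp h3).and (h3.imp h2)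
  refine h1.congr (fun a _ => ?_)
  constructor
  · intro h
    ext z
    constructor
    · intro hz
      exact (h z (mem_sT.1 hz).1).1 hz
    · intro hz
      exact (h z (mem_sT.1 hz).1).2 hz
  · intro h z _
    rw [h]
    exact ⟨id, id⟩

theorem poly_acc (m K : ℕ) (hn : PolyN D ctx n) (ht : PolyC D ctx t) (hk : PolyN D ctx k) :
    PolyP D ctx (fun a => Acc (n a) (rT (n a) (t a)) m K (k a)) := by
  obtain ⟨T, hT, hT'⟩ := poly_tab' (D := D) (ctx := ctx)
    (R := fun a T x => dR (n a) (rT (n a) (t a)) m K T x) (S := fun a => Sz (n a) K)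
    ((hn.succ.mul (PolyN.pow hn.succ K)).mul hn.succ) (by
      intro T x D' ctx' hD hc hT hx
      exact poly_dR m K (n := fun p : (α × ℕ) × ℕ => n p.1.1) (t := fun p => t p.1.1)
        (T := fun p => T p.1) (poly_moveC (fun p : (α × ℕ) × ℕ => p.1.1) hD hc hn)
        (poly_moveC (fun p : (α × ℕ) × ℕ => p.1.1) hD hc ht) hT hx)
  obtain ⟨u, hu, hu'⟩ := poly_mkS (P := fun _ _ => True) hn (p_const True)
  have hur : ∀ a, D a → sT (n a) (u a) = range (n a) := by
    intro a ha
    ext x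
    rw [hu' a ha x, mem_range]
    exact ⟨fun h => h.1, fun h => ⟨h, trivial⟩⟩
  obtain ⟨vh, hvh, hvh'⟩ := poly_hiS m hn ht hu
  obtain ⟨vl, hvl, hvl'⟩ := poly_loS m hn ht hu
  have hcl : PolyN D ctx (fun a => (loS (rT (n a) (t a)) m (range (n a))).card) :=
    (poly_card hn hvl).congr (fun a ha => by rw [hvl' a ha, hur a ha])
  have hN : PolyN D ctx (fun a => (n a + 1) ^ K) := PolyN.pow hn.succ K
  obtain ⟨vg, hvg, hvg'⟩ := poly_G K (nU (n := fun a => (n a + 1) ^ K) hn)
    (cU (n := fun a => (n a + 1) ^ K) ht)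
    (nL (n := fun a => (n a + 1) ^ K) (D := D) (ctx := ctx))
  have h1 : PolyP D ctx (fun a => ∃ b < (n a + 1) ^ K,
      G (n a) (rT (n a) (t a)) K b = hiS (rT (n a) (t a)) m (range (n a)) ∧
        tabP (dR (n a) (rT (n a) (t a)) m K) (Sz (n a) K) (Sz (n a) K)
          (cd (n a) K (k a) b (loS (rT (n a) (t a)) m (range (n a))).card)) := by
    refine p_ex (n := fun a => (n a + 1) ^ K) (P := fun a b =>
      G (n a) (rT (n a) (t a)) K b = hiS (rT (n a) (t a)) m (range (n a)) ∧
        tabP (dR (n a) (rT (n a) (t a)) m K) (Sz (n a) K) (Sz (n a) K)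
          (cd (n a) K (k a) b (loS (rT (n a) (t a)) m (range (n a))).card)) hN ?_
    refine PolyP.and ?_ ?_
    · refine (poly_sEq (nU (n := fun a => (n a + 1) ^ K) hn) hvg
        (cU (n := fun a => (n a + 1) ^ K) hvh)).congr (fun p hp => ?_)
      rw [hvg' p hp, hvh' p.1 hp.1, hur p.1 hp.1]
    · have h2 : PolyN (Dx D (fun a => (n a + 1) ^ K)) (cx ctx) (fun p =>
          cd (n p.1) K (k p.1) p.2 (loS (rT (n p.1) (t p.1)) m (range (n p.1))).card) :=
        ((((nU hk).mul (nU hN)).add nL).mul (nU hn).succ).add (nU hcl)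
      refine (poly_tb (cU hT) h2).congr (fun p hp => ?_)
      rw [hT' p.1 hp.1]
  exact h1.congr (fun a _ => Iff.rfl)

theorem poly_gval (m K : ℕ) (hn : PolyN D ctx n) (ht : PolyC D ctx t) :
    PolyN D ctx (fun a => gval (n a) (rT (n a) (t a)) m K) := by
  obtain ⟨t', ht', he⟩ := poly_star m hn ht
  classical
  have h1 : PolyP (Dx D n) (cx ctx)
      (fun p => ∀ k' < p.2 + 1, ¬ Acc (n p.1) (rT (n p.1) (t' p.1)) m K k') := by
    refine p_fa (n := fun p : α × ℕ => p.2 + 1)
      (P := fun p k' => ¬ Acc (n p.1) (rT (n p.1) (t' p.1)) m K k') nL.succ ?_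
    exact (poly_acc m K (n := fun p : (α × ℕ) × ℕ => n p.1.1) (t := fun p => t' p.1.1)
      (k := fun p => p.2) (nU (nU hn)) (cU (cU ht')) nL).not
  have h2 : PolyN D ctx (fun a => ((range (n a)).filter (fun k => ∀ k' < k + 1,
      ¬ Acc (n a) (rT (n a) (t' a)) m K k')).card) :=
    n_card (n := n) (P := fun a k => ∀ k' < k + 1, ¬ Acc (n a) (rT (n a) (t' a)) m K k') hn h1
  refine h2.congr (fun a ha => ?_)
  rw [he a ha, gval]

end Pool.Agent.P49d
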