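import Pool.Agent.Lib.P49d.Basic

/-!
# Module P49d.FinNat: from `Fin n` to numbers

PROOF SKETCH. `rN r` (Defs.lean) is the order on the numbers `< n`. A set `Z ⊆ range n` corresponds to
`up Z = univ.filter (fun x : Fin n => (x : ℕ) ∈ Z)`, and a set `Z'` of `Fin n` to `Z'.map Fin.valEmbedding`.
`sd_fin`: extend or restrict `σ` (`σ x = if h : x < n then σ ⟨x, h⟩ else 0`; the sets of the tasks in
a slot correspond, `card_map`). `top_fin`: let `C ⊆ range n` be an up-set of `rN r`, connected; `up C` is an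
up-set of `r`, connected (a path of `rN r` in `C` gives a path of `r` in `up C`). Take the modules `Z' i` and
`Z i = (Z' i).map Fin.valEmbedding`. `Md` is clear from the definitions. `cls_fin` by induction on the level
generalizing `Z'`: level `0`: for `A ⊆ Z'.map …` consider `up A` (the same cardinality). Level `d + 1`: the
labelling `c x = if h : x < n then c' ⟨x, h⟩ else 0`, `(Z'.map …).filter (c x = i) = (Z'.filter (c' x = i)).map …`.
-/

set_option autoImplicit false

namespace Pool.Agent.P49d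

open Finset

variable {n m D k w d : ℕ} {r : Fin n → Fin n → Prop}

namespace FinNatAux

theorem rN_val {a b : Fin n} : rN r (a : ℕ) (b : ℕ) ↔ r a b := by
  constructor
  · rintro ⟨_, _, h⟩
    exact h
  · intro h
    exact ⟨a.2, b.2, h⟩

/-- The set of elements of `Fin n` with value in `A`. -/
def up (n : ℕ) (A : Finset ℕ) : Finset (Fin n) := univ.filter (fun x : Fin n => (x : ℕ) ∈ A)

theorem mem_up {A : Finset ℕ} {x : Fin n} : x ∈ up n A ↔ (x : ℕ) ∈ A := by
  simp [up]

theorem map_up {A : Finset ℕ} (hA : A ⊆ range n) : (up n A).map Fin.valEmbedding = A := by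
  ext x
  simp only [mem_map, mem_up, Fin.valEmbedding_apply]
  constructor
  · rintro ⟨a, ha, rfl⟩
    exact ha
  · intro hx
    exact ⟨⟨x, mem_range.1 (hA hx)⟩, hx, rfl⟩

theorem card_up {A : Finset ℕ} (hA : A ⊆ range n) : (up n A).card = A.card := by
  conv_rhs => rw [← map_up hA]
  rw [card_map]

theorem map_sub_range (Z : Finset (Fin n)) : Z.map Fin.valEmbedding ⊆ range n := by
  intro x hx
  obtain ⟨a, _, rfl⟩ := mem_map.1 hx
  exact mem_range.2 a.2

theorem mem_map_val {Z : Finset (Fin n)} {x : Fin n} :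
    (x : ℕ) ∈ Z.map Fin.valEmbedding ↔ x ∈ Z := by
  constructor
  · intro h
    obtain ⟨a, ha, hax⟩ := mem_map.1 h
    have : a = x := Fin.ext hax
    exact this ▸ ha
  · intro h
    exact mem_map.2 ⟨x, h, rfl⟩

/-- Extension of a function by zero. -/
def ex (f : Fin n → ℕ) (x : ℕ) : ℕ := if h : x < n then f ⟨x, h⟩ else 0

theorem ex_val (f : Fin n → ℕ) (x : Fin n) : ex f (x : ℕ) = f x := by
  simp [ex]

theorem filter_ex (f : Fin n → ℕ) (Z : Finset (Fin n)) (i : ℕ) :
    (Z.map Fin.valEmbedding).filter (fun x => ex f x = i) =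
      (Z.filter (fun x => f x = i)).map Fin.valEmbedding := by
  ext x
  simp only [mem_filter, mem_map, Fin.valEmbedding_apply]
  constructor
  · rintro ⟨⟨a, ha, rfl⟩, h⟩
    rw [ex_val] at h
    exact ⟨a, ⟨ha, h⟩, rfl⟩
  · rintro ⟨a, ⟨ha, h⟩, rfl⟩
    exact ⟨⟨a, ha, rfl⟩, by rw [ex_val]; exact h⟩

theorem map_univ : (univ : Finset (Fin n)).map Fin.valEmbedding = range n := by
  ext x
  simp only [mem_map, mem_univ, true_and, Fin.valEmbedding_apply, mem_range]
  constructor
  · rintro ⟨a, rfl⟩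
    exact a.2
  · intro hx
    exact ⟨⟨x, hx⟩, rfl⟩

end FinNatAux

open FinNatAux

theorem rN_so (hr : SO r) : SO (rN r) := by
  constructor
  · rintro x ⟨hx, _, h⟩
    exact hr.irr _ h
  · rintro x y z ⟨hx, hy, h⟩ ⟨_, hz, h'⟩
    exact ⟨hx, hz, hr.trans _ _ _ h h'⟩

theorem rN_bd : ∀ x y, rN r x y → x ∈ range n ∧ y ∈ range n := by
  rintro x y ⟨hx, hy, _⟩
  exact ⟨mem_range.2 hx, mem_range.2 hy⟩

theorem sd_fin : Sd (rN r) (range n) m D ↔ Sd r univ m D := by
  constructor
  · rintro ⟨σ, h1, h2, h3⟩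
    refine ⟨fun x => σ x, fun u => ?_, fun x _ => h2 _ (mem_range.2 x.2), fun x _ y _ hxy => ?_⟩
    · refine le_trans ?_ (h1 u)
      rw [← card_map Fin.valEmbedding]
      apply card_le_card
      intro x hx
      obtain ⟨a, ha, rfl⟩ := mem_map.1 hx
      rw [mem_filter] at ha
      exact mem_filter.2 ⟨mem_range.2 a.2, ha.2⟩
    · exact h3 _ (mem_range.2 x.2) _ (mem_range.2 y.2) (rN_val.2 hxy)
  · rintro ⟨σ, h1, h2, h3⟩
    refine ⟨ex σ, fun u => ?_, fun x hx => ?_, fun x hx y hy hxy => ?_⟩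
    · rw [← map_univ, filter_ex, card_map]
      exact h1 u
    · have := h2 ⟨x, mem_range.1 hx⟩ (mem_univ _)
      rw [← ex_val σ] at this
      exact this
    · have := h3 ⟨x, mem_range.1 hx⟩ (mem_univ _) ⟨y, mem_range.1 hy⟩ (mem_univ _)
        (by obtain ⟨_, _, h⟩ := hxy; exact h)
      rw [← ex_val σ, ← ex_val σ] at this
      exact this

theorem cls_fin (Z : Finset (Fin n)) (h : Cls r w d Z) :
    Cls (rN r) w d (Z.map Fin.valEmbedding) := by
  induction d generalizing Z with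
  | zero =>
    intro A hA hw
    have hAr : A ⊆ range n := hA.trans (map_sub_range Z)
    obtain ⟨x, hx, y, hy, hne, h1, h2⟩ := h (up n A)
      (fun x hx => mem_map_val.1 (hA (mem_up.1 hx))) (by rw [card_up hAr]; exact hw)
    refine ⟨x, mem_up.1 hx, y, mem_up.1 hy, fun he => hne (Fin.ext he), ?_, ?_⟩
    · intro z hz hzx
      obtain ⟨a, ha, rfl⟩ := mem_map.1 hz
      exact rN_val.2 (h1 a ha (rN_val.1 hzx))
    · intro z hz hyz
      obtain ⟨a, ha, rfl⟩ := mem_map.1 hz
      exact rN_val.2 (h2 a ha (rN_val.1 hyz))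
  | succ d ih =>
    obtain ⟨c, hc, hor⟩ := h
    refine ⟨ex c, fun i => ?_, ?_⟩
    · rw [filter_ex]
      exact ih _ (hc i)
    · rcases hor with hor | ⟨h1, h2⟩
      · left
        intro x hx y hy hxy
        obtain ⟨a, ha, rfl⟩ := mem_map.1 hx
        obtain ⟨b, hb, rfl⟩ := mem_map.1 hy
        have := hor a ha b hb (rN_val.1 hxy)
        simp only [Fin.valEmbedding_apply, ex_val]
        exact this
      · right
        refine ⟨?_, ?_⟩
        · intro x hx y hy x' hx' y' hy' e1 e2 e3 hxy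
          obtain ⟨a, ha, rfl⟩ := mem_map.1 hx
          obtain ⟨b, hb, rfl⟩ := mem_map.1 hy
          obtain ⟨a', ha', rfl⟩ := mem_map.1 hx'
          obtain ⟨b', hb', rfl⟩ := mem_map.1 hy'
          simp only [Fin.valEmbedding_apply, ex_val, ne_eq] at e1 e2 e3
          exact rN_val.2 (h1 a ha b hb a' ha' b' hb' e1 e2 e3 (rN_val.1 hxy))
        · intro A hA hw hinj
          have hAr : A ⊆ range n := hA.trans (map_sub_range Z)
          obtain ⟨x, hx, y, hy, hxy⟩ := h2 (up n A)
            (fun x hx => mem_map_val.1 (hA (mem_up.1 hx))) (by rw [card_up hAr]; exact hw)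
            (fun x hx y hy hxy => Fin.ext (hinj _ (mem_up.1 hx) _ (mem_up.1 hy)
              (by rw [ex_val, ex_val]; exact hxy)))
          exact ⟨x, mem_up.1 hx, y, mem_up.1 hy, rN_val.2 hxy⟩

theorem top_fin (h : Top r k w d univ) : Top (rN r) k w d (range n) := by
  intro C hC hup hcn
  have hmap : ∀ x : Fin n, x ∈ up n C ↔ (x : ℕ) ∈ C := fun x => mem_up
  obtain ⟨Z, hZ, hmin⟩ := h (up n C) (subset_univ _)
    (fun x hx y _ hxy => mem_up.2 (hup _ (mem_up.1 hx) _ (mem_range.2 y.2) (rN_val.2 hxy)))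
    (by
      intro x hx y hy
      refine ⟨hx, ?_⟩
      have hp := (hcn _ (mem_up.1 hx) _ (mem_up.1 hy)).2
      have key : ∀ b : ℕ, Relation.ReflTransGen
          (fun a b => b ∈ C ∧ (rN r a b ∨ rN r b a)) (x : ℕ) b → ∀ y : Fin n, (y : ℕ) = b →
          Relation.ReflTransGen (fun a b => b ∈ up n C ∧ (r a b ∨ r b a)) x y := by
        intro b hb
        induction hb with
        | refl =>
          intro y hy
          have : y = x := Fin.ext hy
          rw [this]
        | @tail b0 c0 hab hbc ih =>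
          intro y hy
          obtain ⟨h1, h2⟩ := hbc
          subst hy
          have hbn : ∃ b' : Fin n, (b' : ℕ) = b0 := by
            rcases h2 with h2 | h2
            · exact ⟨⟨_, h2.1⟩, rfl⟩
            · exact ⟨⟨_, h2.2.1⟩, rfl⟩
          obtain ⟨b', hb'⟩ := hbn
          refine Relation.ReflTransGen.tail (ih b' hb') ⟨mem_up.2 h1, ?_⟩
          rw [← hb'] at h2
          rcases h2 with h2 | h2
          · exact Or.inl (rN_val.1 h2)
          · exact Or.inr (rN_val.1 h2)
      exact key _ hp y rfl)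
  refine ⟨fun i => (Z i).map Fin.valEmbedding, fun i => ⟨⟨map_sub_range _, ?_⟩, cls_fin _ (hZ i).2⟩,
    ?_⟩
  · intro x hx y hy z hz hzn
    obtain ⟨a, ha, rfl⟩ := mem_map.1 hx
    obtain ⟨b, hb, rfl⟩ := mem_map.1 hy
    obtain ⟨z', rfl⟩ : ∃ z' : Fin n, (z' : ℕ) = z := ⟨⟨z, mem_range.1 hz⟩, rfl⟩
    have hz' : z' ∉ Z i := fun h => hzn (mem_map_val.2 h)
    have := (hZ i).1.2 a ha b hb z' (mem_univ _) hz'
    simp only [Fin.valEmbedding_apply, rN_val]
    exact this
  · intro x hx hxm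
    obtain ⟨x', rfl⟩ : ∃ x' : Fin n, (x' : ℕ) = x := ⟨⟨x, mem_range.1 (hC hx)⟩, rfl⟩
    obtain ⟨i, hi⟩ := hmin x' (mem_up.2 hx) (fun y hy hyx => hxm _ (mem_up.1 hy) (rN_val.2 hyx))
    exact ⟨i, mem_map_val.2 hi⟩

end Pool.Agent.P49d
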