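import Pool.Agent.Lib.P49d.PBase
import Pool.Agent.Lib.P49d.FinNat

/-!
# Module P49d.PIn: polynomial time, the input

PROOF SKETCH (compare `P99b9fe/PolyInp.lean`: `enc_eq`, `poly_n`). `enc I = un I.1 ++ false :: l`, where
`l.getD (x * n + y)` is the bit of `r x y` for `x, y < n`. So `n` is `PolyC.takeTrue` (`takeWhile_un`), and the table
is `PolyTime.afterTrue (enc I)` (`afterTrue_un`): `rT n l = rN r` by `funext`. The table of the dual order by
`poly_mkR` (`P x y := rT n l y x`).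
-/

set_option autoImplicit false

namespace Pool.Agent.P49d

open Finset Pool.Agent.P99b9fe Pool.Agent.Lib.PolyTime Pool.Agent.Lib.Pa7c826
open Pool.Agent.Lib.P8e91ed.PT

variable {α : Type} {D : α → Prop} {ctx : List (α → List Bool)} {I : α → P49d.Inst}

private theorem encI_eq (I : P49d.Inst) : ∃ l : List Bool, P49d.enc I = un I.1 ++ false :: l ∧
    ∀ x y : ℕ, x < I.1 → y < I.1 → (l.getD (x * I.1 + y) false = true ↔ rN I.2.1 x y) := by
  classical
  refine ⟨_, rfl, fun x y hx hy => ?_⟩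
  have h1 : x * I.1 + y < I.1 * I.1 := by
    have : (x + 1) * I.1 ≤ I.1 * I.1 := Nat.mul_le_mul_right _ hx
    have e : (x + 1) * I.1 = x * I.1 + I.1 := by ring
    omega
  have h2 : (x * I.1 + y) / I.1 = x := by
    rw [mul_comm, Nat.mul_add_div (by omega), Nat.div_eq_of_lt hy, add_zero]
  have h3 : (x * I.1 + y) % I.1 = y := by
    rw [mul_comm, Nat.mul_add_mod, Nat.mod_eq_of_lt hy]
  rw [List.getD_eq_getElem?_getD, List.getElem?_map, List.getElem?_range h1, Option.map_some,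
    Option.getD_some, decide_eq_true_eq]
  unfold rN
  constructor
  · rintro ⟨h4, h5, h6⟩
    refine ⟨hx, hy, ?_⟩
    convert h6 using 2
    · exact h2.symm
    · exact h3.symm
  · rintro ⟨h4, h5, h6⟩
    refine ⟨by omega, by omega, ?_⟩
    convert h6 using 2

theorem poly_nI (h : PolyC D ctx (fun a => P49d.enc (I a))) : PolyN D ctx (fun a => (I a).1) :=
  (PolyC.takeTrue h).congr (fun a _ => by
    obtain ⟨l, hl, -⟩ := encI_eq (I a)
    rw [hl, takeWhile_un])

theorem poly_tI (h : PolyC D ctx (fun a => P49d.enc (I a))) :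
    ∃ t : α → List Bool, PolyC D ctx t ∧ ∀ a, D a → rT (I a).1 (t a) = rN (I a).2.1 := by
  refine ⟨fun a => Pool.Agent.Lib.PolyTime.afterTrue (P49d.enc (I a)), PolyC.afterTrue h,
    fun a _ => ?_⟩
  obtain ⟨l, hl, hl'⟩ := encI_eq (I a)
  funext x y
  apply propext
  unfold rT tb
  dsimp only
  rw [hl, afterTrue_un]
  constructor
  · rintro ⟨h2, h3, h4⟩
    exact (hl' _ _ h2 h3).1 h4
  · intro h2
    have h3 : x < (I a).1 := h2.1
    have h4 : y < (I a).1 := h2.2.1
    exact ⟨h3, h4, (hl' _ _ h3 h4).2 h2⟩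

theorem poly_tI' (h : PolyC D ctx (fun a => P49d.enc (I a))) :
    ∃ t : α → List Bool, PolyC D ctx t ∧
      ∀ a, D a → rT (I a).1 (t a) = rN (fun x y => (I a).2.1 y x) := by
  obtain ⟨t, ht, ht'⟩ := poly_tI h
  have hn := poly_nI h
  obtain ⟨t', h1, h2⟩ := poly_mkR (P := fun a x y => rT (I a).1 (t a) y x) hn
    (poly_rT (nU (nU hn)) (cU (cU ht)) nL (nU nL))
  refine ⟨t', h1, fun a ha => ?_⟩
  funext x y
  apply propext
  rw [h2 a ha x y, ht' a ha]
  unfold rN
  constructor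
  · rintro ⟨h3, h4, _, _, h5⟩
    exact ⟨h3, h4, h5⟩
  · rintro ⟨h3, h4, h5⟩
    exact ⟨h3, h4, h4, h3, h5⟩

end Pool.Agent.P49d
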