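import Pool.Agent.Lib.P49d.Alg
import Pool.Agent.Lib.P49d.PAcc
import Pool.Agent.Lib.P49d.PIn

/-!
# Unit tasks on a fixed number of processors: the theorem
-/

set_option autoImplicit false

namespace Pool.Agent.P49d

open Finset Pool.Agent.P99b9fe Pool.Agent.Lib.PolyTime Pool.Agent.Lib.Pa7c826
open Pool.Agent.Lib.P8e91ed.PT

variable {n m D : ℕ} {r : Fin n → Fin n → Prop}

theorem so_flip (hr : SO r) : SO (fun x y => r y x) :=
  ⟨hr.irr, fun x y z h h' => hr.trans z y x h' h⟩

/-- Reversing a schedule. -/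
theorem sd_flip (h : Sd (fun x y => r y x) univ m D) : Sd r univ m D := by
  obtain ⟨σ, h1, h2, h3⟩ := h
  refine ⟨fun x => D - 1 - σ x, fun u => ?_, fun x hx => ?_, fun x hx y hy hxy => ?_⟩
  · by_cases hu : u + 1 ≤ D
    · refine le_trans (card_le_card fun x hx => ?_) (h1 (D - 1 - u))
      rw [mem_filter] at hx ⊢
      have h4 : D - 1 - σ x = u := hx.2
      have := h2 x (mem_univ x)
      exact ⟨mem_univ x, by omega⟩
    · refine le_trans (le_of_eq ?_) (Nat.zero_le m)
      rw [card_eq_zero, filter_eq_empty_iff]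
      intro x _ h4
      have h5 : D - 1 - σ x = u := h4
      have := h2 x (mem_univ x)
      omega
  · have := h2 x hx
    show D - 1 - σ x + 1 ≤ D
    omega
  · have h4 := h3 y hy x hx hxy
    have h5 := h2 x hx
    show D - 1 - σ x + 1 ≤ D - 1 - σ y
    omega

/-- From the subtype of the trivial domain to the type. -/
theorem toTM2'' {γ : Type} (f : P49d.Inst → γ) (encγ : γ → List Bool)
    (h : PolyC (fun _ : P49d.Inst => True) [P49d.enc] (fun a => encγ (f a))) :
    Nonempty (Turing.TM2ComputableInPolyTime (α := P49d.Inst) (αΓ := Bool) (βΓ := Bool)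
      P49d.enc encγ f) := by
  obtain ⟨M⟩ := PolyC.toTM2 (D := fun _ : P49d.Inst => True) P49d.enc f encγ h
  exact ⟨{ tm := M.tm
           inputAlphabet := M.inputAlphabet
           outputAlphabet := M.outputAlphabet
           time := M.time
           outputsFun := fun a => M.outputsFun ⟨a, trivial⟩ }⟩

/-- The number found by the algorithm for the order and its dual. -/
noncomputable def fval (m K : ℕ) (I : P49d.Inst) : ℕ :=
  min (gval I.1 (rN I.2.1) m K) (gval I.1 (rN (fun x y => I.2.1 y x)) m K)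

theorem main (m k w d : ℕ) (hm : 2 ≤ m) : ∃ f : P49d.Inst → ℕ,
    Nonempty (Turing.TM2ComputableInPolyTime (α := P49d.Inst) (αΓ := Bool) (βΓ := Bool)
      P49d.enc (fun x => List.replicate x true) f) ∧
    ∀ (n : ℕ) (r : Fin n → Fin n → Prop) (hr : SO r), Sd r univ m (f ⟨n, r, hr⟩) ∧
      (Top r k w d univ ∨ Top (fun x y => r y x) k w d univ →
        ∀ D, Sd r univ m D → f ⟨n, r, hr⟩ ≤ D) := by
  set K := Kb m k w d with hK
  have h : PolyC (fun _ : P49d.Inst => True) [P49d.enc] (fun I => P49d.enc I) :=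
    PolyC.var (by simp)
  have hn := poly_nI h
  obtain ⟨t, ht, ht'⟩ := poly_tI h
  obtain ⟨u, hu, hu'⟩ := poly_tI' h
  have h1 : PolyN (fun _ : P49d.Inst => True) [P49d.enc] (fun I => gval I.1 (rN I.2.1) m K) :=
    (poly_gval m K hn ht).congr fun I hI => by rw [ht' I hI]
  have h2 : PolyN (fun _ : P49d.Inst => True) [P49d.enc]
      (fun I => gval I.1 (rN (fun x y => I.2.1 y x)) m K) :=
    (poly_gval m K hn hu).congr fun I hI => by rw [hu' I hI]
  have h3 : PolyN (fun _ : P49d.Inst => True) [P49d.enc] (fval m K) := by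
    have e : ∀ I : P49d.Inst, @ite ℕ (gval I.1 (rN I.2.1) m K ≤
        gval I.1 (rN (fun x y => I.2.1 y x)) m K) (Nat.decLe _ _) (gval I.1 (rN I.2.1) m K)
        (gval I.1 (rN (fun x y => I.2.1 y x)) m K) = fval m K I := by
      intro I
      unfold fval
      exact (min_def _ _).symm
    exact (n_ite (PolyP.le h1 h2) (PolyC.mono h1 fun _ h => h.1)
      (PolyC.mono h2 fun _ h => h.1)).congr fun I _ => e I
  refine ⟨fval m K, ?_, fun n r hr => ⟨?_, ?_⟩⟩
  · exact toTM2'' (fval m K) (fun x => List.replicate x true) h3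
  · unfold fval
    rcases min_choice (gval n (rN r) m K) (gval n (rN (fun x y => r y x)) m K) with h4 | h4
    · show Sd r univ m (min (gval n (rN r) m K) (gval n (rN (fun x y => r y x)) m K))
      rw [h4]
      exact sd_fin.1 (alg_sound (rN_so hr) rN_bd hm K)
    · show Sd r univ m (min (gval n (rN r) m K) (gval n (rN (fun x y => r y x)) m K))
      rw [h4]
      exact sd_flip (sd_fin.1 (alg_sound (rN_so (so_flip hr)) rN_bd hm K))
  · intro hT D hD
    show min (gval n (rN r) m K) (gval n (rN (fun x y => r y x)) m K) ≤ D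
    rcases hT with hT | hT
    · exact (min_le_left _ _).trans (alg_opt (rN_so hr) rN_bd hm (top_fin hT) (sd_fin.2 hD))
    · refine (min_le_right _ _).trans
        (alg_opt (rN_so (so_flip hr)) rN_bd hm (top_fin hT) (sd_fin.2 ?_))
      exact sd_flip (r := fun x y => r y x) hD

end Pool.Agent.P49d
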