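import Pool.Agent.Lib.P49d.Basic

/-!
# Module P49d.Width: antichains of the dominance in a module of the class `Cls`

`s` is a stable order (no module has `m` components of height two), which comes from `r` by
flattening (`Inv`); `Z` is a module of `r` in the class.

PROOF by induction on `d`, generalizing `Z`, `A`. `W = Wb m w d ≥ 1`.

`d = 0`: if `w < A.card` then there are `x ≠ y` in `A` such that `x` dominates `y` in `Z`. Then `Dm r x y`: for
`z ∈ V \ Z` use `Md r V Z`, for `z ∉ V` use `hs`. So `Dm s x y` by `hI.dm`, a contradiction.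
`w ≤ Wb m w 0`.

`d + 1`: the blocks `Z i = Z.filter (c x = i)`. Both in the case of a disjoint union and in the case of a
sum the `Z i` are modules: `Md r V (Z i)`: for `z ∈ V \ Z` use `Md r V Z`; for `z ∈ Z`, `c z ≠ i`: in a disjoint union
all relations are false, in a sum use the condition (with `z' = z`). So by induction
`(A.filter (c x = i)).card ≤ W`, and `A.card ≤ (A.image c).card * W` (`Finset.card_eq_sum_card_image` or
`card_le_mul_card_image`). Also `Md s V Z` by `hI.md`.

Disjoint union: `A₀` = the elements `x` of `A` with no `z ∈ Z` such that `s x z` or `s z x`. `A₀.card ≤ 1`: for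
`x, y ∈ A₀` we have `Dm s x y`: `s z x` implies `z ∈ V` (`hI.sub`, `hs`), `z ∉ Z`, so `s z y` by `Md s V Z`. Let
`A₁ = A \ A₀`, `I = A₁.image c`. If `m ≤ I.card` choose `m` elements `x j` of `A₁` with different labels, and
`w j` = the lower element of a pair `x j`, `z` in `Z` related by `s` (same label, as `s ⊆ r`). Then
`Lv s Z 2 (w j)`, and different `w j` are not in the same component: `Cn s Z a b` implies `c a = c b`
(induction along the path). So `Mn s Z m 2`, against `hst`. Hence `I.card ≤ m - 1` and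
`A.card ≤ 1 + (m - 1) * W ≤ (m + w + 1) * W`.

Sum: if `w < (A.image c).card` choose a subset `A'` of `A` with one element for each label; by the width
condition there are `x, y ∈ A'` with `r x y`. If `s x y` then `Dm s x y` (transitivity), otherwise
`Dm s x y` by `hI.tw`. Contradiction (`x ≠ y`). So `A.card ≤ w * W`.
-/

set_option autoImplicit false

namespace Pool.Agent.P49d

open Finset

variable {α : Type} [DecidableEq α] {r s : α → α → Prop} {V : Finset α} {m w : ℕ}

namespace WidthAux

/-- A partial order has a schedule. -/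
theorem exists_sd (hso : SO s) (hm : 2 ≤ m) : ∃ D, Sd s V m D := by
  classical
  obtain ⟨f, hf⟩ : ∃ f : α → ℕ, (∀ x ∈ V, f x < V.card) ∧ ∀ x ∈ V, ∀ y ∈ V, f x = f y → x = y := by
    let e := V.equivFin
    refine ⟨fun x => if hx : x ∈ V then (e ⟨x, hx⟩ : ℕ) else 0, ?_, ?_⟩
    · intro x hx
      simp only [hx, dif_pos]
      exact (e ⟨x, hx⟩).2
    · intro x hx y hy hxy
      simp only [hx, hy, dif_pos] at hxy
      have := e.injective (Fin.ext hxy)
      exact congrArg Subtype.val this
  let N := V.card + 1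
  let g : α → ℕ := fun x => (V.filter (fun z => s z x)).card
  have hg : ∀ x, g x ≤ V.card := fun x => card_filter_le _ _
  refine ⟨N * N + N, fun x => g x * N + f x, ?_, ?_, ?_⟩
  · intro u
    refine le_trans (card_le_one.2 ?_) (by omega : 1 ≤ m)
    intro x hx y hy
    rw [mem_filter] at hx hy
    have hfx := hf.1 x hx.1
    have hfy := hf.1 y hy.1
    have h1 : g x * N + f x = g y * N + f y := hx.2.trans hy.2.symm
    have h2 : f x = f y := by
      have e1 : (g x * N + f x) % N = f x := by
        rw [Nat.mul_comm, Nat.mul_add_mod]; exact Nat.mod_eq_of_lt (by omega)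
      have e2 : (g y * N + f y) % N = f y := by
        rw [Nat.mul_comm, Nat.mul_add_mod]; exact Nat.mod_eq_of_lt (by omega)
      rw [← e1, ← e2, h1]
    exact hf.2 x hx.1 y hy.1 h2
  · intro x hx
    have hfx := hf.1 x hx
    have h1 : g x * N ≤ V.card * N := Nat.mul_le_mul_right _ (hg x)
    have h2 : V.card * N ≤ N * N := Nat.mul_le_mul_right _ (by omega)
    show g x * N + f x + 1 ≤ N * N + N
    omega
  · intro x hx y hy hxy
    have hfx := hf.1 x hx
    have h1 : g x < g y := by
      refine card_lt_card ?_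
      rw [Finset.ssubset_iff_of_subset]
      · refine ⟨x, ?_, ?_⟩
        · rw [mem_filter]; exact ⟨hx, hxy⟩
        · rw [mem_filter]; exact fun h => hso.irr x h.2
      · intro z hz
        rw [mem_filter] at hz ⊢
        exact ⟨hz.1, hso.trans _ _ _ hz.2 hxy⟩
    have h2 : (g x + 1) * N ≤ g y * N := Nat.mul_le_mul_right _ h1
    have h3 : (g x + 1) * N = g x * N + N := by ring
    show g x * N + f x + 1 ≤ g y * N + f y
    omega

theorem irr_of_inv (hm : 2 ≤ m) (hI : Inv r s V m) : ∀ x ∈ V, ¬ r x x := by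
  intro x hx hxx
  obtain ⟨D, hD⟩ := exists_sd (V := V) hI.so hm
  obtain ⟨σ, -, -, h3⟩ := hI.sd D hD
  have := h3 x hx x hx hxx
  omega

omit [DecidableEq α] in
theorem dm_of_s (hI : Inv r s V m) {x y : α} (h : s x y) : Dm s x y :=
  ⟨fun _ hz => hI.so.trans _ _ _ hz h, fun _ hz => hI.so.trans _ _ _ h hz⟩

/-- The blocks are modules. -/
theorem md_block {Z : Finset α} (hZ : Md r V Z) (c : α → ℕ) (i : ℕ)
    (hc : (∀ x ∈ Z, ∀ y ∈ Z, r x y → c x = c y) ∨
        (∀ x ∈ Z, ∀ y ∈ Z, ∀ x' ∈ Z, ∀ y' ∈ Z, c x = c x' → c y = c y' → c x ≠ c y →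
            r x y → r x' y')) : Md r V (Z.filter (fun x => c x = i)) := by
  refine ⟨(filter_subset _ _).trans hZ.1, ?_⟩
  intro x hx y hy z hz hzn
  rw [mem_filter] at hx hy hzn
  by_cases hzZ : z ∈ Z
  · have hci : c z ≠ i := fun h => hzn ⟨hzZ, h⟩
    rcases hc with hc | hc
    · constructor
      · constructor
        · intro h
          exact absurd ((hc z hzZ x hx.1 h).trans hx.2) hci
        · intro h
          exact absurd ((hc z hzZ y hy.1 h).trans hy.2) hci
      · constructor
        · intro h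
          exact absurd ((hc x hx.1 z hzZ h).symm.trans hx.2) hci
        · intro h
          exact absurd ((hc y hy.1 z hzZ h).symm.trans hy.2) hci
    · constructor
      · constructor
        · intro h
          exact hc z hzZ x hx.1 z hzZ y hy.1 rfl (hx.2.trans hy.2.symm) (by rw [hx.2]; exact hci) h
        · intro h
          exact hc z hzZ y hy.1 z hzZ x hx.1 rfl (hy.2.trans hx.2.symm) (by rw [hy.2]; exact hci) h
      · constructor
        · intro h
          exact hc x hx.1 z hzZ y hy.1 z hzZ (hx.2.trans hy.2.symm) rfl (by rw [hx.2]; exact hci.symm) h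
        · intro h
          exact hc y hy.1 z hzZ x hx.1 z hzZ (hy.2.trans hx.2.symm) rfl (by rw [hy.2]; exact hci.symm) h
  · exact hZ.2 x hx.1 y hy.1 z hz hzZ

omit [DecidableEq α] in
/-- Components stay inside the blocks of a disjoint union. -/
theorem cn_label {Z : Finset α} {c : α → ℕ} (hI : Inv r s V m)
    (hc : ∀ x ∈ Z, ∀ y ∈ Z, r x y → c x = c y) {a b : α} (h : Cn s Z a b) : b ∈ Z ∧ c a = c b := by
  obtain ⟨ha, h⟩ := h
  induction h with
  | refl => exact ⟨ha, rfl⟩
  | tail _ hbc ih =>
    obtain ⟨hb, hcb⟩ := ih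
    refine ⟨hbc.1, hcb.trans ?_⟩
    rcases hbc.2 with h | h
    · exact hc _ hb _ hbc.1 (hI.sub _ _ h)
    · exact (hc _ hbc.1 _ hb (hI.sub _ _ h)).symm

/-- The disjoint union. -/
theorem union_case (hs : ∀ x y, r x y → x ∈ V ∧ y ∈ V) (hI : Inv r s V m)
    (hst : ∀ Q, Md s V Q → ¬ Mn s Q m 2) {Z : Finset α} (hZ : Md r V Z) (c : α → ℕ)
    (hc : ∀ x ∈ Z, ∀ y ∈ Z, r x y → c x = c y) {A : Finset α} (hA : A ⊆ Z)
    (hanti : ∀ x ∈ A, ∀ y ∈ A, x ≠ y → ¬ Dm s x y) {W : ℕ}
    (hW : ∀ i, (A.filter (fun x => c x = i)).card ≤ W) : A.card ≤ 1 + W * (m - 1) := by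
  classical
  have hZs : Md s V Z := hI.md Z hZ
  set p : α → Prop := fun x => ∃ z ∈ Z, s x z ∨ s z x with hp
  have h0 : (A.filter (fun x => ¬ p x)).card ≤ 1 := by
    rw [card_le_one]
    intro x hx y hy
    by_contra hne
    rw [mem_filter] at hx hy
    refine hanti x hx.1 y hy.1 hne ⟨?_, ?_⟩
    · intro z hz
      have hzV := (hs _ _ (hI.sub _ _ hz)).1
      have hzZ : z ∉ Z := fun h => hx.2 ⟨z, h, Or.inr hz⟩
      exact ((hZs.2 x (hA hx.1) y (hA hy.1) z hzV hzZ).1).1 hz
    · intro z hz
      have hzV := (hs _ _ (hI.sub _ _ hz)).2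
      have hzZ : z ∉ Z := fun h => hy.2 ⟨z, h, Or.inl hz⟩
      exact ((hZs.2 x (hA hx.1) y (hA hy.1) z hzV hzZ).2).2 hz
  have h1 : ((A.filter p).image c).card < m := by
    by_contra hlt
    rw [not_lt] at hlt
    obtain ⟨T, hT, hTc⟩ := exists_subset_card_eq hlt
    let e := T.equivFinOfCardEq hTc
    have hex : ∀ j : Fin m, ∃ z : α, z ∈ Z ∧ Lv s Z 2 z ∧ c z = ((e.symm j : T) : ℕ) := by
      intro j
      have hj := hT (e.symm j).2
      rw [mem_image] at hj
      obtain ⟨x, hx, hxc⟩ := hj
      rw [mem_filter] at hx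
      obtain ⟨hxA, z, hz, hxz⟩ := hx
      have hxZ := hA hxA
      rcases hxz with h | h
      · refine ⟨x, hxZ, ⟨hxZ, Or.inr ⟨z, h, hz, Or.inl rfl⟩⟩, hxc⟩
      · refine ⟨z, hz, ⟨hz, Or.inr ⟨x, h, hxZ, Or.inl rfl⟩⟩, ?_⟩
        rw [hc z hz x hxZ (hI.sub _ _ h), hxc]
    choose z hz using hex
    refine hst Z hZs ⟨z, fun i => ⟨(hz i).1, (hz i).2.1⟩, ?_⟩
    intro i j hij hcn
    have h2 := (cn_label hI hc hcn).2
    rw [(hz i).2.2, (hz j).2.2] at h2
    exact hij (e.symm.injective (Subtype.ext h2))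
  have h2 : (A.filter p).card ≤ W * (m - 1) := by
    have h3 : (A.filter p).card ≤ W * ((A.filter p).image c).card := by
      refine card_le_mul_card_image _ _ fun i _ => le_trans (card_le_card ?_) (hW i)
      intro x hx
      rw [mem_filter, mem_filter] at hx
      rw [mem_filter]
      exact ⟨hx.1.1, hx.2⟩
    exact h3.trans (Nat.mul_le_mul_left _ (by omega))
  have h3 : A.card = (A.filter p).card + (A.filter (fun x => ¬ p x)).card :=
    (card_filter_add_card_filter_not _).symm
  omega

/-- The sum. -/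
theorem sum_case (hirr : ∀ x ∈ V, ¬ r x x) (hI : Inv r s V m)
    {Z : Finset α} (hZ : Md r V Z) (c : α → ℕ)
    (hc : ∀ A ⊆ Z, w < A.card → (∀ x ∈ A, ∀ y ∈ A, c x = c y → x = y) → ∃ x ∈ A, ∃ y ∈ A, r x y)
    {A : Finset α} (hA : A ⊆ Z)
    (hanti : ∀ x ∈ A, ∀ y ∈ A, x ≠ y → ¬ Dm s x y) {W : ℕ}
    (hW : ∀ i, (A.filter (fun x => c x = i)).card ≤ W) : A.card ≤ W * w := by
  classical
  have h1 : (A.image c).card ≤ w := by
    by_contra hlt
    rw [not_le] at hlt
    have hex : ∀ i : ℕ, ∃ x : α, i ∈ A.image c → x ∈ A ∧ c x = i := by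
      intro i
      by_cases hi : i ∈ A.image c
      · rw [mem_image] at hi
        obtain ⟨x, hx, hxc⟩ := hi
        exact ⟨x, fun _ => ⟨hx, hxc⟩⟩
      · by_cases hne : A.Nonempty
        · obtain ⟨x, -⟩ := hne
          exact ⟨x, fun h => absurd h hi⟩
        · rw [not_nonempty_iff_eq_empty] at hne
          rw [hne] at hlt
          simp at hlt
    choose p hp using hex
    have hsub : (A.image c).image p ⊆ A := by
      intro x hx
      rw [mem_image] at hx
      obtain ⟨i, hi, rfl⟩ := hx
      exact (hp i hi).1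
    have hcard : ((A.image c).image p).card = (A.image c).card := by
      refine card_image_of_injOn ?_
      intro i hi j hj hij
      have h2 := (hp i hi).2
      have h3 := (hp j hj).2
      rw [← h2, ← h3, hij]
    obtain ⟨x, hx, y, hy, hxy⟩ := hc ((A.image c).image p) (hsub.trans hA) (by rw [hcard]; exact hlt) (by
      intro x hx y hy hxy
      rw [mem_image] at hx hy
      obtain ⟨i, hi, rfl⟩ := hx
      obtain ⟨j, hj, rfl⟩ := hy
      rw [(hp i hi).2, (hp j hj).2] at hxy
      rw [hxy])
    have hxA := hsub hx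
    have hyA := hsub hy
    have hne : x ≠ y := by
      rintro rfl
      exact hirr x (hZ.1 (hA hxA)) hxy
    refine hanti x hxA y hyA hne ?_
    by_cases hsxy : s x y
    · exact dm_of_s hI hsxy
    · exact (hI.tw x y hxy hsxy).1
  refine (card_le_mul_card_image (f := c) A W fun i _ => hW i).trans (Nat.mul_le_mul_left _ h1)

end WidthAux

open WidthAux in
theorem width_bound (hs : ∀ x y, r x y → x ∈ V ∧ y ∈ V) (hm : 2 ≤ m) (hI : Inv r s V m)
    (hst : ∀ Q, Md s V Q → ¬ Mn s Q m 2) (d : ℕ) :
    ∀ Z : Finset α, Md r V Z → Cls r w d Z → ∀ A ⊆ Z,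
      (∀ x ∈ A, ∀ y ∈ A, x ≠ y → ¬ Dm s x y) → A.card ≤ Wb m w d := by
  induction d with
  | zero =>
    intro Z hZ hcls A hA hanti
    have h1 : A.card ≤ w := by
      by_contra hlt
      rw [not_le] at hlt
      obtain ⟨x, hx, y, hy, hne, h1, h2⟩ := hcls A hA hlt
      refine hanti x hx y hy hne (hI.dm x y ⟨?_, ?_⟩)
      · intro z hz
        by_cases hzZ : z ∈ Z
        · exact h1 z hzZ hz
        · exact ((hZ.2 x (hA hx) y (hA hy) z (hs _ _ hz).1 hzZ).1).1 hz
      · intro z hz
        by_cases hzZ : z ∈ Z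
        · exact h2 z hzZ hz
        · exact ((hZ.2 x (hA hx) y (hA hy) z (hs _ _ hz).2 hzZ).2).2 hz
    unfold Wb
    rw [zero_add, pow_one]
    omega
  | succ d ih =>
    intro Z hZ hcls A hA hanti
    obtain ⟨c, hcl, hc⟩ := hcls
    have hWpos : 1 ≤ Wb m w d := Nat.one_le_pow _ _ (by omega)
    have hblock : ∀ i, (A.filter (fun x => c x = i)).card ≤ Wb m w d := by
      intro i
      refine ih (Z.filter (fun x => c x = i)) (md_block hZ c i ?_) (hcl i) _ ?_ ?_
      · rcases hc with hc | hc
        · exact Or.inl hc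
        · exact Or.inr hc.1
      · exact filter_subset_filter _ hA
      · intro x hx y hy
        rw [mem_filter] at hx hy
        exact hanti x hx.1 y hy.1
    have hsucc : Wb m w (d + 1) = Wb m w d * (m + w + 1) := by
      unfold Wb
      rw [pow_succ]
    rw [hsucc]
    rcases hc with hc | hc
    · have h1 := union_case hs hI hst hZ c hc hA hanti hblock
      refine h1.trans ?_
      have h2 : Wb m w d * (m - 1) + Wb m w d * (w + 2) = Wb m w d * (m + w + 1) := by
        rw [← Nat.mul_add]
        congr 1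
        omega
      have h3 : 1 * 1 ≤ Wb m w d * (w + 2) := Nat.mul_le_mul hWpos (by omega)
      omega
    · have h1 := sum_case (w := w) (irr_of_inv hm hI) hI hZ c hc.2 hA hanti hblock
      exact h1.trans (Nat.mul_le_mul_left _ (by omega))

end Pool.Agent.P49d
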