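import Pool.Agent.Lib.P49d.Exch
import Pool.Agent.Lib.P49d.Dig

/-!
# Module P49d.DPC: completeness of the dynamic program

PROOF by induction on `ps`, generalizing `U`, `a`, `b`. In both cases the table contains the code by
`tabP_fix` (`cd_lt`; `a + (loS s m U).card < n + 1` by the hypothesis on `U.card + a` and
`lo_hi_card`).

`ps = []`: `U = ∅`, `a = 0`, so `G n s K b = hiS s m ∅ = ∅` and `loS s m ∅ = ∅`: first case of `dR`.

`p :: ps`: let `H = hiS s m U`, `a₁ = a + (loS s m U).card`. `sch_relax` with `X = loS s m U`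
(`sdiff_loS`): `Sch s H a₁ (p :: ps)`. `Fi n s H` by `fi_hi`. `exch`: `V ⊆ H`, `q ≤ a₁`, `V.card + q = p ≤ m`, `V`
minimal in `H`, `Sch s (H \ V) (a₁ - q) ps`, `Fi n s (H \ V)`. Let `b'` be from `hgen (H \ V)` and `v` from
`exists_Vs`. The induction hypothesis for `H \ V`, `a₁ - q`, `b'` (`(H \ V).card + (a₁ - q) ≤ H.card + a₁ =
U.card + a ≤ n`): the table contains the code of `ps.length`, `b'`, `a' = a₁ - q + (loS s m (H \ V)).card`;
`a' < n + 1`. `Stp n s m K b a₁ v q b' a'` holds as `G n s K b = H`, `Vs n m v = V`.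
-/

set_option autoImplicit false

namespace Pool.Agent.P49d

open Finset Pool.Agent.P99b9fe

variable {n m K : ℕ} {s : ℕ → ℕ → Prop}

theorem dp_complete (hr : SO s) (hs : ∀ x y, s x y → x ∈ range n ∧ y ∈ range n)
    (hgen : ∀ U, Fi n s U → ∃ b < (n + 1) ^ K, G n s K b = hiS s m U) (ps : List ℕ) :
    (∀ p ∈ ps, p ≤ m) → ps.length ≤ n → ∀ (U : Finset ℕ) (a : ℕ), Fi n s U → Sch s U a ps →
      U.card + a ≤ n → ∀ b < (n + 1) ^ K, G n s K b = hiS s m U →
        tabP (dR n s m K) (Sz n K) (Sz n K)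
          (cd n K ps.length b (a + (loS s m U).card)) := by
  induction ps with
  | nil =>
    intro _ _ U a _ hS hc b hb hG
    obtain ⟨h1, h2⟩ := hS
    subst h1
    subst h2
    have hlo : loS s m (∅ : Finset ℕ) = ∅ := by simp [loS]
    have hhi : hiS s m (∅ : Finset ℕ) = ∅ := by simp [hiS]
    rw [hlo]
    refine tabP_fix (cd_lt (Nat.succ_pos n) hb (by simp)) ?_
    exact ⟨0, Nat.succ_pos n, b, hb, _, by simp, rfl, Or.inl ⟨rfl, by simp, by rw [hG, hhi]⟩⟩
  | cons p ps ih =>
    intro hp hl U a hF hS hc b hb hG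
    have hLU : loS s m U ⊆ U := by
      intro x hx
      exact (mem_loS.1 hx).1
    have hS1 : Sch s (hiS s m U) (a + (loS s m U).card) (p :: ps) := by
      have h := sch_relax hLU hS
      rwa [sdiff_loS] at h
    have hFH : Fi n s (hiS s m U) := fi_hi hr hs hF
    obtain ⟨V, hV, q, hq, hVq, hmin, hS2, hF2⟩ := exch hr hs hFH hS1
    obtain ⟨b', hb', hG'⟩ := hgen (hiS s m U \ V) hF2
    have hVr : V ⊆ range n := hV.trans hFH.1
    have hpm : p ≤ m := hp p List.mem_cons_self
    have hVm : V.card ≤ m := by omega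
    obtain ⟨v, hv, hVs⟩ := exists_Vs hVr hVm
    have hcard : (loS s m U).card + (hiS s m U).card = U.card := lo_hi_card
    have hcard2 : (hiS s m U \ V).card ≤ (hiS s m U).card := card_le_card sdiff_subset
    have hcard3 : (loS s m (hiS s m U \ V)).card ≤ (hiS s m U \ V).card :=
      card_le_card (fun x hx => (mem_loS.1 hx).1)
    have hln : ps.length + 1 ≤ n := by
      have h := hl
      rwa [List.length_cons] at h
    have ih' := ih (fun p' hp' => hp p' (List.mem_cons_of_mem _ hp')) (by omega) (hiS s m U \ V)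
      (a + (loS s m U).card - q) hF2 hS2 (by omega) b' hb' hG'
    have hlen : (p :: ps).length = ps.length + 1 := List.length_cons
    rw [hlen]
    refine tabP_fix (cd_lt (by omega) hb (by omega)) ?_
    refine ⟨ps.length + 1, by omega, b, hb, _, by omega, rfl, Or.inr ⟨ps.length, by omega, rfl, v, hv,
      q, by omega, b', hb', _, by omega, ?_, ih'⟩⟩
    refine ⟨?_, ?_, hq, ?_, ?_, ?_⟩
    · rw [hVs, hG]
      exact hV
    · intro x hx u hu
      rw [hVs] at hx
      rw [hG] at hu
      exact hmin x hx u hu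
    · rw [hVs]
      omega
    · rw [hG, hVs]
      exact hG'
    · rw [hG, hVs]

end Pool.Agent.P49d
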