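import Pool.Agent.Lib.P49d.MThm
import Pool.Agent.Lib.P49d.Dig

/-!
# Module P49d.DPS: soundness of the dynamic program

PROOF. `tabP_induct` (`P99b9fe/TabFix.lean`) with `P x := ∀ k b a, k < n + 1 → b < (n + 1) ^ K → a < n + 1 →
x = cd n K k b a → ∃ ps, …`. Let `T` be a table with `T x → P x` and `dR n s m K T x`: `x = cd n K k b a` with
`k < n + 1`, …; by `cd_inj` these are the given ones. First case: `k = 0`, `a = 0`, `G = ∅`: `ps = []`. Second
case: `k = k' + 1`, `Stp …`, `T (cd n K k' b' a')`: there is `ps'` of length `k'` with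
`Sch s (G n s K b') a' ps'`, `G n s K b' = hiS s m (G n s K b \ Vs n m v)`,
`a' = a - q + (loS s m (G n s K b \ Vs n m v)).card`, so `Sch s (G n s K b \ Vs n m v) (a - q) ps'` by
`sch_of_hi`. Take `ps = ((Vs n m v).card + q) :: ps'`.
-/

set_option autoImplicit false

namespace Pool.Agent.P49d

open Finset Pool.Agent.P99b9fe

variable {n m K : ℕ} {s : ℕ → ℕ → Prop}

theorem dp_sound (hr : SO s) (hm : 1 ≤ m) {i k b a : ℕ} (hk : k < n + 1) (hb : b < (n + 1) ^ K)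
    (ha : a < n + 1) (h : tabP (dR n s m K) (Sz n K) i (cd n K k b a)) :
    ∃ ps : List ℕ, ps.length = k ∧ (∀ p ∈ ps, p ≤ m) ∧ Sch s (G n s K b) a ps := by
  refine tabP_induct (R := dR n s m K) (S := Sz n K)
    (P := fun x => ∀ k b a, k < n + 1 → b < (n + 1) ^ K → a < n + 1 → x = cd n K k b a →
      ∃ ps : List ℕ, ps.length = k ∧ (∀ p ∈ ps, p ≤ m) ∧ Sch s (G n s K b) a ps)
    ?_ i _ h k b a hk hb ha rfl
  intro T hT x _ hR k b a _ hb ha hx
  obtain ⟨k1, _, b1, hb1, a1, ha1, hx1, hcase⟩ := hR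
  obtain ⟨e1, e2, e3⟩ := cd_inj hb1 ha1 hb ha (hx1.symm.trans hx)
  subst e1 e2 e3
  rcases hcase with ⟨hk0, ha0, hG⟩ | ⟨k', hk', hkk, v, _, q, _, b', hb', a', ha', hS, hT'⟩
  · exact ⟨[], hk0.symm, fun p hp => absurd hp List.not_mem_nil, hG, ha0⟩
  · obtain ⟨ps', hl, hp, hs⟩ := hT _ hT' k' b' a' hk' hb' ha' rfl
    obtain ⟨h1, h2, h3, h4, h5, h6⟩ := hS
    rw [h5, h6] at hs
    have h7 := sch_of_hi hr hm hp hs
    refine ⟨((Vs n m v).card + q) :: ps', ?_, ?_, ?_⟩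
    · rw [List.length_cons, hl, hkk]
    · intro p hp'
      rcases List.mem_cons.1 hp' with h8 | h8
      · rw [h8]
        exact h4
      · exact hp p h8
    · exact ⟨Vs n m v, h1, q, h3, rfl, h2, h7⟩

end Pool.Agent.P49d
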