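import Pool.Agent.Lib.P49d.LeOrd

/-!
# Module P49d.FiHi: the union of the high components of an up-set is an up-set

PROOF. Let `x ∈ hiS s m U`, `y < n`, `Le s x y`; `y ∈ U` since `Fi n s U`. Show `Cn s U x y`; then `¬ Lo s m U y` by
`lo_congr`. Since `¬ Lo s m U x` we have `¬ Ht s U 1 x` (take `l = 1` in `Lo`), so some `y'` in the component of
`x` has level two; hence `x` has an `s`-neighbour in `U` (if `y' = x` the next element of the chain,
otherwise the second element of the path from `x` to `y'`). By `Le s x y` there are three cases.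
(1) `s x y`: `cn_rel`. (2) `x` has no successor: the neighbour `z` satisfies `s z x`, so `s z y` by `Dm s x y`, and
`x`, `z`, `y` is a path. (3) `s y z'` for some `z'`: then `s x z'` by `Dm s x y`, `z' ∈ U` because `Le s x z'`
(`le_of_rel`, `z' < n` by `hs`), and `x`, `z'`, `y` is a path.
-/

set_option autoImplicit false

namespace Pool.Agent.P49d

open Finset

variable {n m : ℕ} {s : ℕ → ℕ → Prop} {U : Finset ℕ}

theorem fi_hi (hr : SO s) (hs : ∀ x y, s x y → x ∈ range n ∧ y ∈ range n) (hU : Fi n s U) :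
    Fi n s (hiS s m U) := by
  refine ⟨fun x hx => hU.1 (mem_hiS.1 hx).1, fun x hx y hy hxy => ?_⟩
  obtain ⟨hxU, hxL⟩ := mem_hiS.1 hx
  have hyU : y ∈ U := hU.2 x hxU y hy hxy
  suffices hc : Cn s U x y by
    exact mem_hiS.2 ⟨hyU, fun h => hxL ((lo_congr hc).2 h)⟩
  have hH : ¬ Ht s U 1 x := by
    intro h
    exact hxL ⟨1, by omega, le_refl 1, Or.inl rfl, h⟩
  unfold Ht at hH
  push Not at hH
  obtain ⟨y', hy', hlv⟩ := hH
  obtain ⟨hy'U, y'', hr1, hlv'⟩ := (lv_succ_iff (k := 0)).1 hlv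
  have hy''U : y'' ∈ U := lv_one.1 hlv'
  have hnb : ∃ z ∈ U, s x z ∨ s z x := by
    rcases Relation.ReflTransGen.cases_head hy'.2 with h | ⟨c, hc, _⟩
    · subst h
      exact ⟨y'', hy''U, Or.inl hr1⟩
    · exact ⟨c, hc.1, hc.2⟩
  obtain ⟨z, hzU, hz⟩ := hnb
  rcases hxy.2.2 with h | h | ⟨z', h⟩
  · exact cn_rel hxU hyU (Or.inl h)
  · have hzx : s z x := by
      rcases hz with h1 | h1
      · exact absurd h1 (h z)
      · exact h1
    have hzy : s z y := hxy.1.1 z hzx
    exact cn_trans (cn_rel hxU hzU (Or.inr hzx)) (cn_rel hzU hyU (Or.inl hzy))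
  · have hxz : s x z' := hxy.1.2 z' h
    have hz'U : z' ∈ U := hU.2 x hxU z' (Finset.mem_range.1 (hs x z' hxz).2) (le_of_rel hr hxz)
    exact cn_trans (cn_rel hxU hz'U (Or.inl hxz)) (cn_rel hz'U hyU (Or.inr h))

theorem fi_univ : Fi n s (range n) :=
  ⟨Finset.Subset.refl _, fun _ _ _ hy _ => Finset.mem_range.2 hy⟩

end Pool.Agent.P49d
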