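import Pool.Agent.Lib.P49d.Basic

/-!
# Module P49d.Thr: thresholds

PROOF SKETCH. `exists_thr`: the numbers `l` with `1 ≤ l ∧ (l = 1 ∨ Mn r U m l)` are at most
`U.card + 1` (`mn_card`) and contain 1; let `l` be the largest one (`Nat.findGreatest`, or
`Finset.exists_max_image`/`Nat.find` on the complement). Then `¬ Mn (l + 1)` (otherwise `l + 1` is
such a number). `Lo r m U x` means: some such `l'` with `Ht r U l' x`; then `l' ≤ l` and `Ht r U l x` by
`ht_anti`. `exists_thr'`: let `l ≥ μ` be the least number with `¬ Mn r U m (l + 1)` (exists: `mn_card`).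
If `l = μ` use `h`. Otherwise `l - 1 ≥ μ` and by minimality `Mn r U m l`, so `Mn r U m (l - 1)` by
`mn_anti`.
-/

set_option autoImplicit false

namespace Pool.Agent.P49d

open Finset

variable {α : Type} {r : α → α → Prop} {m : ℕ}

theorem exists_thr (hr : SO r) (hm : 1 ≤ m) (U : Finset α) :
    ∃ l, 1 ≤ l ∧ ¬ Mn r U m (l + 1) ∧ (l = 1 ∨ Mn r U m l) ∧
      ∀ x, Lo r m U x ↔ Ht r U l x := by
  classical
  set P : ℕ → Prop := fun l => l = 1 ∨ Mn r U m l with hP
  have h1 : P 1 := Or.inl rfl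
  have hb : 1 ≤ U.card + 1 := by omega
  refine ⟨Nat.findGreatest P (U.card + 1), Nat.le_findGreatest hb h1, ?_,
    Nat.findGreatest_spec (P := P) hb h1, ?_⟩
  · intro h
    have h2 := mn_card hr hm h
    have h3 := Nat.le_findGreatest (P := P) (show Nat.findGreatest P (U.card + 1) + 1 ≤
      U.card + 1 by omega) (Or.inr h)
    omega
  · intro x
    constructor
    · rintro ⟨l', hl', _, h3, h4⟩
      exact ht_anti (Nat.le_findGreatest (P := P) hl' h3) h4
    · intro h
      exact ⟨_, Nat.findGreatest_le _, Nat.le_findGreatest hb h1,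
        Nat.findGreatest_spec (P := P) hb h1, h⟩

theorem exists_thr' (hr : SO r) (hm : 1 ≤ m) (U : Finset α) {μ : ℕ} (hμ : 1 ≤ μ)
    (h : μ = 1 ∨ Mn r U m (μ - 1)) :
    ∃ l, μ ≤ l ∧ ¬ Mn r U m (l + 1) ∧ (l = 1 ∨ Mn r U m (l - 1)) := by
  classical
  have hex : ∃ l, μ ≤ l ∧ ¬ Mn r U m (l + 1) := by
    refine ⟨max μ U.card, le_max_left _ _, fun h1 => ?_⟩
    have h2 := mn_card hr hm h1
    have h3 := le_max_right μ U.card
    omega
  have h1 := Nat.find_spec hex
  refine ⟨Nat.find hex, h1.1, h1.2, ?_⟩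
  rcases Nat.eq_or_lt_of_le h1.1 with h2 | h2
  · rw [← h2]
    exact h
  · right
    have h3 := Nat.find_min hex (m := Nat.find hex - 1) (by omega)
    have h4 : Mn r U m (Nat.find hex - 1 + 1) := by
      by_contra hc
      exact h3 ⟨by omega, hc⟩
    exact mn_anti (by omega) h4

end Pool.Agent.P49d
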