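import Pool.Agent.Lib.P49d.ConnF
import Pool.Agent.Lib.P49d.FiHi
import Pool.Agent.Lib.P49d.Thr
import Pool.Agent.Lib.P49d.Dig

/-!
# Module P49d.Gens: the high part of an up-set has few generators

PROOF. `H = hiS s m U`, `A` = the elements `a` of `H` with `∀ y ∈ H, Le s y a → y = a`.

`gen_card`: `A.card ≤ Kb m k w d = m * (2 * (k * Wb m w d))`. Let `R ⊆ A` be a transversal for the components
of `U` (`exists_transversal`). `R.card ≤ m`: let `l` be from `exists_thr` for `U`; each `x ∈ R ⊆ H` is not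
`Ht s U l x`, so its component contains an element of level `l + 1`; if `m ≤ R.card` these give
`Mn s U m (l + 1)` (elements in different components), a contradiction. For `x ∈ R` let
`C = U.filter (Cn s U x)`; `C ⊆ U ⊆ range n`; any two elements of `C` satisfy `Cn s C` (`cn_closed`).
`A ∩ C` is the union of the part of the elements without successors (`∀ z, ¬ s a z`) and the part of those
with successors. For each part `A'`: for `a ≠ b` in `A'`, `Dm s a b` is false: otherwise `Le s a b` or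
`Le s b a` (`le_or_le`), which contradicts the minimality; `a` is `s`-minimal in `C`: for `y ∈ C`, `s y a`:
`y ∈ H` (`lo_congr`), `Le s y a` (`le_of_rel`), so `y = a`, against irreflexivity. By `conn_bound`
`A'.card ≤ k * Wb m w d`. So `(A ∩ C).card ≤ 2 * (k * Wb m w d)` and `A` is the union of the sets `A ∩ C`, `x ∈ R`.

`gens`: let `b` be from `exists_setcode` for `A` (`K = Kb m k w d`). `G n s K b = H`: if `x ∈ G` then for some
`j < K` the digit `e` is `< n`, so `e ∈ A ⊆ H`, and `Le s e x`, so `x ∈ H` since `Fi n s H` (`fi_hi`). If `x ∈ H`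
then `Le s a x` for some `a ∈ A` (`exists_le_min`), and `a` is a digit `< n`.
(`SO s` is `hI.so`, and `hs` with `hI.sub` bounds `s`.)
-/

set_option autoImplicit false

namespace Pool.Agent.P49d

open Finset

variable {n m k w d : ℕ} {r s : ℕ → ℕ → Prop} {U : Finset ℕ}

theorem gen_card (hr : SO r) (hs : ∀ x y, r x y → x ∈ range n ∧ y ∈ range n) (hm : 2 ≤ m)
    (hI : Inv r s (range n) m) (hst : ∀ Q, Md s (range n) Q → ¬ Mn s Q m 2)
    (hT : Top r k w d (range n)) (hU : U ⊆ range n) {A : Finset ℕ} (hA : A ⊆ hiS s m U)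
    (hmin : ∀ a ∈ A, ∀ y ∈ hiS s m U, Le s y a → y = a) : A.card ≤ Kb m k w d := by
  classical
  have hAU : A ⊆ U := fun a ha => (mem_hiS.1 (hA ha)).1
  obtain ⟨R, hRA, hR1, hR2⟩ := exists_transversal (r := s) U A hAU
  have hRc : R.card ≤ m := by
    by_contra hcon
    obtain ⟨l, hl1, hl2, _, hl4⟩ := exists_thr hI.so (by omega : 1 ≤ m) U
    have hy : ∀ x ∈ R, ∃ y, Cn s U x y ∧ Lv s U (l + 1) y := by
      intro x hx
      have h1 := (mem_hiS.1 (hA (hRA hx))).2
      rw [hl4 x] at h1
      unfold Ht at h1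
      push Not at h1
      exact h1
    choose! y hy1 hy2 using hy
    obtain ⟨e⟩ := Function.Embedding.nonempty_of_card_le
      (show Fintype.card (Fin m) ≤ Fintype.card R by
        rw [Fintype.card_fin, Fintype.card_coe]
        omega)
    refine hl2 ⟨fun i => y (e i).1, fun i => ⟨cn_right (hy1 _ (e i).2), hy2 _ (e i).2⟩, ?_⟩
    intro i j hij hc
    have hne : (e i).1 ≠ (e j).1 := fun h => hij (e.injective (Subtype.ext h))
    exact hR1 _ (e i).2 _ (e j).2 hne
      (cn_trans (cn_trans (hy1 _ (e i).2) hc) (cn_symm (hy1 _ (e j).2)))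
  have hpart : ∀ x ∈ R, ∀ A' ⊆ A, (∀ a ∈ A', Cn s U x a) →
      (∀ a ∈ A', ∀ b ∈ A', (∃ z, s a z) ↔ ∃ z, s b z) → A'.card ≤ k * Wb m w d := by
    intro x hx A' hA' hxA hsuc
    have hCU : U.filter (fun y => Cn s U x y) ⊆ U := filter_subset _ _
    refine conn_bound hr hs hm hI hst hT (C := U.filter (fun y => Cn s U x y)) (hCU.trans hU)
      ?_ ?_ ?_ ?_
    · intro a ha b hb
      rw [cn_closed hCU ?_ ha]
      · exact cn_trans (cn_symm (mem_filter.1 ha).2) (mem_filter.1 hb).2
      · intro c hc e hce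
        exact mem_filter.2 ⟨cn_right hce, cn_trans (mem_filter.1 hc).2 hce⟩
    · intro a ha
      exact mem_filter.2 ⟨hAU (hA' ha), hxA a ha⟩
    · intro a ha y hy hya
      have h1 : Cn s U y a := cn_trans (cn_symm (mem_filter.1 hy).2) (hxA a ha)
      have h2 : y ∈ hiS s m U := by
        rw [mem_hiS]
        refine ⟨(mem_filter.1 hy).1, ?_⟩
        rw [lo_congr h1]
        exact (mem_hiS.1 (hA (hA' ha))).2
      have h3 := hmin a (hA' ha) y h2 (le_of_rel hI.so hya)
      rw [h3] at hya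
      exact hI.so.irr a hya
    · intro a ha b hb hab hd
      rcases le_or_le hd (hsuc a ha b hb) with h | h
      · exact hab (hmin b (hA' hb) a (hA (hA' ha)) h)
      · exact hab (hmin a (hA' ha) b (hA (hA' hb)) h).symm
  have hcov : A ⊆ R.biUnion (fun x => A.filter (fun a => Cn s U x a)) := by
    intro a ha
    obtain ⟨x, hx, hxa⟩ := hR2 a ha
    exact mem_biUnion.2 ⟨x, hx, mem_filter.2 ⟨ha, hxa⟩⟩
  have hone : ∀ x ∈ R, (A.filter (fun a => Cn s U x a)).card ≤ 2 * (k * Wb m w d) := by
    intro x hx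
    rw [← card_filter_add_card_filter_not (s := A.filter (fun a => Cn s U x a))
      (fun a => ∃ z, s a z)]
    have h1 := hpart x hx ((A.filter (fun a => Cn s U x a)).filter (fun a => ∃ z, s a z))
      ((filter_subset _ _).trans (filter_subset _ _))
      (fun a ha => (mem_filter.1 (mem_filter.1 ha).1).2)
      (fun a ha b hb => iff_of_true (mem_filter.1 ha).2 (mem_filter.1 hb).2)
    have h2 := hpart x hx ((A.filter (fun a => Cn s U x a)).filter (fun a => ¬ ∃ z, s a z))
      ((filter_subset _ _).trans (filter_subset _ _))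
      (fun a ha => (mem_filter.1 (mem_filter.1 ha).1).2)
      (fun a ha b hb => iff_of_false (mem_filter.1 ha).2 (mem_filter.1 hb).2)
    omega
  calc A.card ≤ (R.biUnion (fun x => A.filter (fun a => Cn s U x a))).card := card_le_card hcov
    _ ≤ R.card * (2 * (k * Wb m w d)) := card_biUnion_le_card_mul _ _ _ hone
    _ ≤ m * (2 * (k * Wb m w d)) := Nat.mul_le_mul_right _ hRc
    _ = Kb m k w d := rfl

theorem gens (hr : SO r) (hs : ∀ x y, r x y → x ∈ range n ∧ y ∈ range n) (hm : 2 ≤ m)
    (hI : Inv r s (range n) m) (hst : ∀ Q, Md s (range n) Q → ¬ Mn s Q m 2)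
    (hT : Top r k w d (range n)) (hU : Fi n s U) :
    ∃ b < (n + 1) ^ Kb m k w d, G n s (Kb m k w d) b = hiS s m U := by
  classical
  set A : Finset ℕ := (hiS s m U).filter (fun a => ∀ y ∈ hiS s m U, Le s y a → y = a) with hAdef
  have hAH : A ⊆ hiS s m U := filter_subset _ _
  have hHn : hiS s m U ⊆ range n := fun a ha => hU.1 (mem_hiS.1 ha).1
  have hc : A.card ≤ Kb m k w d := gen_card hr hs hm hI hst hT hU.1 hAH
    (fun a ha => (mem_filter.1 ha).2)
  obtain ⟨b, hb, hb2⟩ := exists_setcode (hAH.trans hHn) hc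
  refine ⟨b, hb, ?_⟩
  have hF : Fi n s (hiS s m U) := fi_hi hI.so (fun x y h => hs x y (hI.sub x y h)) hU
  ext x
  unfold G
  rw [mem_filter, mem_range]
  constructor
  · rintro ⟨hx, j, hj, hj2, hj3⟩
    have h1 : b / (n + 1) ^ j % (n + 1) ∈ A := (hb2 _ hj2).2 ⟨j, hj, rfl⟩
    exact hF.2 _ (hAH h1) x hx hj3
  · intro hx
    obtain ⟨a, ha, hax, hmin⟩ := exists_le_min (s := s) hx
    have h1 : a ∈ A := mem_filter.2 ⟨ha, hmin⟩
    have h2 := mem_range.1 (hHn ha)
    obtain ⟨j, hj, hj2⟩ := (hb2 a h2).1 h1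
    exact ⟨mem_range.1 (hHn hx), j, hj, by rw [hj2]; exact h2, by rw [hj2]; exact hax⟩

end Pool.Agent.P49d
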