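import Pool.Agent.Lib.P49d.Loop
import Pool.Agent.Lib.P49d.Gens
import Pool.Agent.Lib.P49d.DPS
import Pool.Agent.Lib.P49d.DPC

/-!
# Module P49d.Alg: the number found by the algorithm

PROOF. `s = star n m r`, `hI = star_inv`, `s` is bounded by `n` (`hI.sub`, `hs`). Let
`S = (range n).filter (fun k => ∀ k' < k + 1, ¬ Acc n s m K k')`, closed downwards, so `S = range S.card`;
`gval = S.card ≤ n`.

`alg_sound`: if `gval < n` then `gval ∉ S` and all smaller numbers are in `S`, so `Acc n s m K gval`. Then
`dp_sound` (`a = (loS s m (range n)).card ≤ n`) gives `ps` of length `gval` with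
`Sch s (hiS s m (range n)) (loS s m (range n)).card ps`, so `Sch s (range n) 0 ps` by `sch_of_hi`
(`zero_add`), `Sd s (range n) m gval` by `sd_of_sch`, and `hI.sd`. If `gval = n`: `sd_triv`.

`alg_opt`: if `n ≤ D` then `gval ≤ n ≤ D`. Let `D < n`. The same `σ` shows `Sd s (range n) m D`
(`hI.sub`), `sch_of_sd` gives `ps` of length `D`. `gens` for `hgen` (`star_stable`); `b` for `range n`
(`fi_univ`). `dp_complete` with `U = range n`, `a = 0` shows `Acc n s m K D`. So `S ⊆ range D`.
-/

set_option autoImplicit false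

namespace Pool.Agent.P49d

open Finset Pool.Agent.P99b9fe

variable {n m : ℕ} {r : ℕ → ℕ → Prop}

private theorem card_spec (n : ℕ) (P : ℕ → Prop)
    [DecidablePred (fun k => ∀ k' < k + 1, ¬ P k')] :
    ((range n).filter (fun k => ∀ k' < k + 1, ¬ P k')).card ≤ n ∧
    (((range n).filter (fun k => ∀ k' < k + 1, ¬ P k')).card < n →
      P ((range n).filter (fun k => ∀ k' < k + 1, ¬ P k')).card) ∧
    ∀ D < n, P D → ((range n).filter (fun k => ∀ k' < k + 1, ¬ P k')).card ≤ D := by
  classical
  by_cases h : ∃ k, k < n ∧ P k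
  · have h0 := Nat.find_spec h
    have h1 : ∀ j, j < Nat.find h → ¬ (j < n ∧ P j) := fun j hj => Nat.find_min h hj
    have hS : (range n).filter (fun k => ∀ k' < k + 1, ¬ P k') = range (Nat.find h) := by
      ext k
      simp only [mem_filter, mem_range]
      constructor
      · rintro ⟨hk, hk'⟩
        by_contra hc
        exact hk' (Nat.find h) (by omega) h0.2
      · intro hk
        refine ⟨by omega, fun k' hk' hP => h1 k' (by omega) ⟨by omega, hP⟩⟩
    rw [hS, card_range]
    exact ⟨h0.1.le, fun _ => h0.2, fun D hD hP => Nat.find_min' h ⟨hD, hP⟩⟩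
  · have hS : (range n).filter (fun k => ∀ k' < k + 1, ¬ P k') = range n := by
      apply filter_true_of_mem
      intro k hk k' hk' hP
      exact h ⟨k', by have := mem_range.mp hk; omega, hP⟩
    rw [hS, card_range]
    exact ⟨le_rfl, fun h' => absurd h' (lt_irrefl _), fun D hD hP => absurd ⟨D, hD, hP⟩ h⟩

theorem alg_sound (hr : SO r) (hs : ∀ x y, r x y → x ∈ range n ∧ y ∈ range n) (hm : 2 ≤ m)
    (K : ℕ) : Sd r (range n) m (gval n r m K) := by
  classical
  have hm1 : 1 ≤ m := by omega
  have hI := star_inv (m := m) hr hs hm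
  obtain ⟨h1, h2, -⟩ := card_spec n (Acc n (star n m r) m K)
  have hg : gval n r m K = ((range n).filter
      (fun k => ∀ k' < k + 1, ¬ Acc n (star n m r) m K k')).card := by
    unfold gval
    congr
  rw [← hg] at h1 h2
  rcases Nat.lt_or_ge (gval n r m K) n with h | h
  · obtain ⟨b, hb, hG, hT⟩ := h2 h
    have ha := lo_hi_card (r := star n m r) (m := m) (U := range n)
    rw [card_range] at ha
    obtain ⟨ps, hl, hp, hsch⟩ := dp_sound hI.so hm1 (by omega) hb (by omega) hT
    rw [hG] at hsch
    have h4 : Sch (star n m r) (range n) 0 ps :=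
      sch_of_hi hI.so hm1 hp (by rw [zero_add]; exact hsch)
    have h5 := sd_of_sch hp h4
    rw [hl] at h5
    exact hI.sd _ h5
  · have h6 : gval n r m K = n := le_antisymm h1 h
    rw [h6]
    have h7 := sd_triv (V := range n) (m := m) hr hm1
    rwa [card_range] at h7

theorem alg_opt (hr : SO r) (hs : ∀ x y, r x y → x ∈ range n ∧ y ∈ range n) (hm : 2 ≤ m)
    {k w d D : ℕ} (hT : Top r k w d (range n)) (h : Sd r (range n) m D) :
    gval n r m (Kb m k w d) ≤ D := by
  classical
  have hI := star_inv (m := m) hr hs hm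
  obtain ⟨h1, -, h3⟩ := card_spec n (Acc n (star n m r) m (Kb m k w d))
  have hg : gval n r m (Kb m k w d) = ((range n).filter
      (fun j => ∀ k' < j + 1, ¬ Acc n (star n m r) m (Kb m k w d) k')).card := by
    unfold gval
    congr
  rw [← hg] at h1 h3
  rcases Nat.lt_or_ge D n with hD | hD
  · have hsd : Sd (star n m r) (range n) m D := by
      obtain ⟨σ, e1, e2, e3⟩ := h
      exact ⟨σ, e1, e2, fun x hx y hy hxy => e3 x hx y hy (hI.sub x y hxy)⟩
    obtain ⟨ps, hl, hp, hsch⟩ := sch_of_sd hsd
    have hgen : ∀ U, Fi n (star n m r) U →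
        ∃ b < (n + 1) ^ Kb m k w d, G n (star n m r) (Kb m k w d) b = hiS (star n m r) m U :=
      fun U hU => gens hr hs hm hI (star_stable hr hs hm) hT hU
    obtain ⟨b, hb, hG⟩ := hgen (range n) fi_univ
    have h8 := dp_complete hI.so (fun x y hxy => hs x y (hI.sub x y hxy)) hgen ps hp
      (by omega) (range n) 0 fi_univ hsch (by simp) b hb hG
    rw [zero_add, hl] at h8
    exact h3 D hD ⟨b, hb, hG, h8⟩
  · exact h1.trans hD

end Pool.Agent.P49d
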