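import Pool.Agent.Lib.P49d.Defs

/-!
# Module P49d.Basic: components, levels, heights

Elementary facts about `Cn` (components), `Lv` (levels), `Ht`, `Mn`, `Lo` of Defs.lean.

PROOF SKETCHES. `cn_*`: `Relation.ReflTransGen` (induction, `.tail`, `.head`, `.symmetric`-like
argument: every step `a → b` has `b ∈ U`, and all elements of the path are in `U` since `x ∈ U`; for
`cn_symm` reverse the path, using `.head` with `a ∈ U` for the start). `cn_closed`: by induction along
the path all its elements are in `U` (`hc`). `lv_anti`: induction on `k` generalizing `x`: for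
`Lv (k+1) x` from `Lv (l+1) x`, `k ≤ l`: `x ∈ U`; if `k = 0` done, otherwise `l ≠ 0` and the induction
hypothesis for `y`. `lv_card`: stronger statement by induction on `k`: `Lv r U k x` implies
`k ≤ (U.filter (fun y => y = x ∨ r x y)).card`, as `{y | y = x ∨ r x y} ∩ U` contains `x` and, for
`r x y`, the set of `y`, which does not contain `x` (irreflexive, transitive). `ht_congr`, `lo_congr`:
`cn_trans`, `cn_symm`. `mn_card`: `lv_card` for `z ⟨0, _⟩`. `exists_min`: the number of elements of
`U.filter (fun u => r u x)` decreases (strong induction), or `Finset.exists_minimal`-like argument.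
-/

set_option autoImplicit false

namespace Pool.Agent.P49d

open Finset

variable {α : Type} {r s : α → α → Prop} {U W : Finset α} {x y z : α} {k l m : ℕ}

theorem BasicAux.rtg_mono {p q : α → α → Prop} (h : ∀ a b, p a b → q a b)
    (hp : Relation.ReflTransGen p x y) : Relation.ReflTransGen q x y := by
  induction hp with
  | refl => exact Relation.ReflTransGen.refl
  | tail _ hbc ih => exact ih.tail (h _ _ hbc)

theorem cn_refl (h : x ∈ U) : Cn r U x x := by
  exact ⟨h, Relation.ReflTransGen.refl⟩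

theorem cn_left (h : Cn r U x y) : x ∈ U := by
  exact h.1

theorem cn_right (h : Cn r U x y) : y ∈ U := by
  obtain ⟨hx, hp⟩ := h
  induction hp with
  | refl => exact hx
  | tail _ hbc _ => exact hbc.1

theorem cn_symm (h : Cn r U x y) : Cn r U y x := by
  obtain ⟨hx, hp⟩ := h
  refine ⟨cn_right ⟨hx, hp⟩, ?_⟩
  induction hp with
  | refl => exact Relation.ReflTransGen.refl
  | tail hab hbc ih =>
    exact Relation.ReflTransGen.head ⟨cn_right ⟨hx, hab⟩, hbc.2.symm⟩ ih

theorem cn_trans (h : Cn r U x y) (h' : Cn r U y z) : Cn r U x z := by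
  exact ⟨h.1, h.2.trans h'.2⟩

theorem cn_mono (hU : U ⊆ W) (h : Cn r U x y) : Cn r W x y := by
  exact ⟨hU h.1, BasicAux.rtg_mono (fun a b hab => ⟨hU hab.1, hab.2⟩) h.2⟩

theorem cn_rel (hx : x ∈ U) (hy : y ∈ U) (h : r x y ∨ r y x) : Cn r U x y := by
  exact ⟨hx, Relation.ReflTransGen.single ⟨hy, h⟩⟩

theorem cn_sub (hs : ∀ x y, s x y → r x y) (h : Cn s U x y) : Cn r U x y := by
  exact ⟨h.1, BasicAux.rtg_mono
    (fun a b hab => ⟨hab.1, hab.2.imp (hs a b) (hs b a)⟩) h.2⟩

/-- Components of a union of components. -/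
theorem cn_closed (hU : U ⊆ W) (hc : ∀ a ∈ U, ∀ b, Cn r W a b → b ∈ U) (hx : x ∈ U) :
    Cn r U x y ↔ Cn r W x y := by
  constructor
  · exact fun h => cn_mono hU h
  · rintro ⟨_, hp⟩
    refine ⟨hx, ?_⟩
    induction hp with
    | refl => exact Relation.ReflTransGen.refl
    | tail hab hbc ih =>
      exact ih.tail ⟨hc x hx _ ⟨hU hx, hab.tail hbc⟩, hbc.2⟩

theorem lv_one : Lv r U 1 x ↔ x ∈ U := by
  constructor
  · intro h
    exact h.1
  · intro h
    exact ⟨h, Or.inl rfl⟩

theorem lv_succ_iff : Lv r U (k + 2) x ↔ x ∈ U ∧ ∃ y, r x y ∧ Lv r U (k + 1) y := by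
  constructor
  · rintro ⟨h1, h2 | h2⟩
    · exact absurd h2 (Nat.succ_ne_zero k)
    · exact ⟨h1, h2⟩
  · rintro ⟨h1, h2⟩
    exact ⟨h1, Or.inr h2⟩

theorem lv_mem (h : Lv r U (k + 1) x) : x ∈ U := by
  exact h.1

theorem lv_anti (h : k ≤ l) (hl : Lv r U l x) : Lv r U k x := by
  induction k generalizing l x with
  | zero => exact trivial
  | succ k ih =>
    obtain ⟨l, rfl⟩ : ∃ l', l = l' + 1 := ⟨l - 1, by omega⟩
    obtain ⟨h1, h2⟩ := hl
    refine ⟨h1, ?_⟩
    by_cases hk : k = 0
    · exact Or.inl hk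
    · right
      rcases h2 with h2 | ⟨y, hy, hy2⟩
      · omega
      · exact ⟨y, hy, ih (by omega) hy2⟩

theorem lv_mono (hU : U ⊆ W) (h : Lv r U k x) : Lv r W k x := by
  induction k generalizing x with
  | zero => exact trivial
  | succ k ih =>
    obtain ⟨h1, h2⟩ := h
    refine ⟨hU h1, h2.imp id ?_⟩
    rintro ⟨y, hy, hy2⟩
    exact ⟨y, hy, ih hy2⟩

theorem lv_card (hr : SO r) (h : Lv r U k x) : k ≤ U.card := by
  classical
  have key : ∀ k x, Lv r U k x → k ≤ (U.filter (fun y => y = x ∨ r x y)).card := by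
    intro k
    induction k with
    | zero => intro x _; exact Nat.zero_le _
    | succ k ih =>
      rintro x ⟨h1, h2⟩
      have hx : x ∈ U.filter (fun y => y = x ∨ r x y) := mem_filter.2 ⟨h1, Or.inl rfl⟩
      rcases h2 with h2 | ⟨y, hy, hy2⟩
      · subst h2
        exact Finset.card_pos.2 ⟨x, hx⟩
      · have h3 := ih y hy2
        have hnot : x ∉ U.filter (fun z => z = y ∨ r y z) := by
          intro hm
          rcases (mem_filter.1 hm).2 with h4 | h4
          · rw [← h4] at hy
            exact hr.irr _ hy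
          · exact hr.irr _ (hr.trans _ _ _ hy h4)
        have hsub : insert x (U.filter (fun z => z = y ∨ r y z)) ⊆
            U.filter (fun y => y = x ∨ r x y) := by
          intro z hz
          rcases mem_insert.1 hz with h4 | h4
          · rw [h4]; exact hx
          · obtain ⟨h5, h6⟩ := mem_filter.1 h4
            refine mem_filter.2 ⟨h5, Or.inr ?_⟩
            rcases h6 with h6 | h6
            · rw [h6]; exact hy
            · exact hr.trans _ _ _ hy h6
        have h7 := Finset.card_le_card hsub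
        rw [Finset.card_insert_of_notMem hnot] at h7
        omega
  exact (key k x h).trans (Finset.card_le_card (filter_subset _ _))

theorem ht_congr (h : Cn r U x y) : Ht r U l x ↔ Ht r U l y := by
  constructor
  · intro hx z hz
    exact hx z (cn_trans h hz)
  · intro hy z hz
    exact hy z (cn_trans (cn_symm h) hz)

theorem ht_anti (h : k ≤ l) (hk : Ht r U k x) : Ht r U l x := by
  intro z hz hl
  exact hk z hz (lv_anti (by omega) hl)

theorem ht_sub (hU : U ⊆ W) (h : Ht r W l x) : Ht r U l x := by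
  intro z hz hl
  exact h z (cn_mono hU hz) (lv_mono hU hl)

theorem mn_anti (h : k ≤ l) (hl : Mn r U m l) : Mn r U m k := by
  obtain ⟨z, hz, hz2⟩ := hl
  exact ⟨z, fun i => ⟨(hz i).1, lv_anti h (hz i).2⟩, hz2⟩

theorem mn_card (hr : SO r) (hm : 1 ≤ m) (h : Mn r U m k) : k ≤ U.card := by
  obtain ⟨z, hz, _⟩ := h
  exact lv_card hr (hz ⟨0, by omega⟩).2

theorem lo_congr (h : Cn r U x y) : Lo r m U x ↔ Lo r m U y := by
  constructor
  · rintro ⟨l, h1, h2, h3, h4⟩
    exact ⟨l, h1, h2, h3, (ht_congr h).1 h4⟩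
  · rintro ⟨l, h1, h2, h3, h4⟩
    exact ⟨l, h1, h2, h3, (ht_congr h).2 h4⟩

theorem mem_loS : x ∈ loS r m U ↔ x ∈ U ∧ Lo r m U x := by
  classical
  unfold loS
  rw [mem_filter]

theorem mem_hiS : x ∈ hiS r m U ↔ x ∈ U ∧ ¬ Lo r m U x := by
  classical
  unfold hiS
  rw [mem_filter]

theorem lo_hi_card : (loS r m U).card + (hiS r m U).card = U.card := by
  classical
  unfold loS hiS
  exact Finset.card_filter_add_card_filter_not (s := U) (p := Lo r m U)

theorem sdiff_loS [DecidableEq α] : U \ loS r m U = hiS r m U := by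
  ext x
  rw [mem_sdiff, mem_loS, mem_hiS]
  tauto

theorem exists_min (hr : SO r) (hx : x ∈ U) : ∃ y ∈ U, (y = x ∨ r y x) ∧ ∀ u ∈ U, ¬ r u y := by
  classical
  have key : ∀ (n : ℕ) (x : α), x ∈ U → (U.filter (fun u => r u x)).card ≤ n →
      ∃ y ∈ U, (y = x ∨ r y x) ∧ ∀ u ∈ U, ¬ r u y := by
    intro n
    induction n with
    | zero =>
      intro x hx hn
      refine ⟨x, hx, Or.inl rfl, ?_⟩
      intro u hu hux
      have h1 : 0 < (U.filter (fun u => r u x)).card :=
        Finset.card_pos.2 ⟨u, mem_filter.2 ⟨hu, hux⟩⟩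
      omega
    | succ n ih =>
      intro x hx hn
      by_cases hex : ∃ u ∈ U, r u x
      · obtain ⟨u, hu, hux⟩ := hex
        have hlt : (U.filter (fun v => r v u)).card < (U.filter (fun v => r v x)).card := by
          apply Finset.card_lt_card
          rw [Finset.ssubset_iff_of_subset]
          · exact ⟨u, mem_filter.2 ⟨hu, hux⟩, fun h => hr.irr _ (mem_filter.1 h).2⟩
          · intro v hv
            obtain ⟨h1, h2⟩ := mem_filter.1 hv
            exact mem_filter.2 ⟨h1, hr.trans _ _ _ h2 hux⟩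
        obtain ⟨y, hy, hy1, hy2⟩ := ih u hu (by omega)
        refine ⟨y, hy, Or.inr ?_, hy2⟩
        rcases hy1 with hy1 | hy1
        · rw [hy1]; exact hux
        · exact hr.trans _ _ _ hy1 hux
      · push Not at hex
        exact ⟨x, hx, Or.inl rfl, hex⟩
  exact key _ x hx le_rfl

end Pool.Agent.P49d
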