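import Pool.Agent.Lib.P49d.Basic

/-!
# Module P49d.Clos: the smallest module containing a set

PROOF SKETCH. `tabP_fix`, `tabP_induct`, `tabP_lt` are in `P99b9fe/TabFix.lean`. `mc_md`: let
`x, y ∈ Mc`, `z < n`, `z ∉ Mc`. If `sp r z x y` then `clR` holds for `z` and the final table, so `z` is in the
table by `tabP_fix`. So `¬ sp r z x y`, which is the claim (`not_not`). `mc_least`: `tabP_induct` with
`P z := z ∈ Q`.
-/

set_option autoImplicit false

namespace Pool.Agent.P49d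

open Finset Pool.Agent.P99b9fe

variable {n : ℕ} {r : ℕ → ℕ → Prop} {X : ℕ → Prop} {Q : Finset ℕ} {x : ℕ}

theorem mem_mc : x ∈ Mc n r X ↔ tabP (clR n r X) n n x := by
  classical
  unfold Mc
  rw [mem_filter, mem_range]
  exact ⟨fun h => h.2, fun h => ⟨tabP_lt h, h⟩⟩

theorem mc_md : Md r (range n) (Mc n r X) := by
  refine ⟨fun x hx => mem_range.2 (tabP_lt (mem_mc.1 hx)), fun x hx y hy z hz hzM => ?_⟩
  by_contra hcon
  apply hzM
  rw [mem_mc] at hx hy ⊢
  exact tabP_fix (mem_range.1 hz) (Or.inr ⟨x, tabP_lt hx, y, tabP_lt hy, hx, hy, hcon⟩)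

theorem mc_sub (hx : x < n) (h : X x) : x ∈ Mc n r X :=
  mem_mc.2 (tabP_fix hx (Or.inl h))

theorem mc_least (hQ : Md r (range n) Q) (hX : ∀ x, X x → x ∈ Q) : Mc n r X ⊆ Q := by
  intro y hy
  refine tabP_induct (R := clR n r X) (S := n) (P := fun z => z ∈ Q) ?_ n y (mem_mc.1 hy)
  intro T hT z hz h
  rcases h with h | ⟨a, _, b, _, hTa, hTb, hsp⟩
  · exact hX z h
  · by_contra hzQ
    exact hsp (hQ.2 a (hT a hTa) b (hT b hTb) z (mem_range.2 hz) hzQ)

end Pool.Agent.P49d
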