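import Pool.Agent.Lib.P49d.Width

/-!
# Module P49d.ConnF: minimal elements of connected sets

PROOF. Let `C₀ = V.filter (fun y => y ∈ C ∨ ∃ x ∈ C, r x y)`, an up-set of `r` containing `C`
(transitivity of `r`, from `hr`). It is connected: elements of `C` are connected (`cn_sub` with `hI.sub`,
`cn_mono`), and `r x y` connects the others to `C`. By `hT` there are modules `Z i`, `i < k`, of `r` in the
class which contain the `r`-minimal elements of `C₀`.
For `a ∈ A` let `f a ∈ C₀` be `r`-minimal in `C₀` with `f a = a` or `r (f a) a` (`exists_min`). Then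
`f a ∈ C`: otherwise `r x (f a)` for some `x ∈ C ⊆ C₀`. `Dm s a (f a)` and `Dm s (f a) a`: clear if
`f a = a`; otherwise `r (f a) a` and `¬ s (f a) a` (by `hmin`), so `hI.tw`.
So if `f a = f b` or `Dm s (f a) (f b)`, then `Dm s a b` (transitivity of `Dm`), hence `a = b` by `hdm`.
So `f` is injective on `A`, `A' = A.image f` has no two different elements with `Dm s`, and `A' ⊆ ⋃ Z i`.
By `width_bound` for `A' ∩ Z i`: `A.card = A'.card ≤ ∑ i, (A' ∩ Z i).card ≤ k * Wb m w d`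
(`Finset.card_biUnion_le`).
-/

set_option autoImplicit false

namespace Pool.Agent.P49d

open Finset

variable {α : Type} [DecidableEq α] {r s : α → α → Prop} {V : Finset α} {m k w d : ℕ}

namespace ConnFAux

omit [DecidableEq α] in
theorem dm_refl (x : α) : Dm s x x := ⟨fun _ h => h, fun _ h => h⟩

omit [DecidableEq α] in
theorem dm_trans {x y z : α} (h : Dm s x y) (h' : Dm s y z) : Dm s x z :=
  ⟨fun u hu => h'.1 u (h.1 u hu), fun u hu => h.2 u (h'.2 u hu)⟩

/-- A system of `r`-minimal elements below the elements of `A`. -/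
theorem exists_f (hr : SO r)
    (hI : Inv r s V m) (hT : Top r k w d V) {C : Finset α}
    (hC : C ⊆ V) (hc : ∀ x ∈ C, ∀ y ∈ C, Cn s C x y) {A : Finset α} (hA : A ⊆ C)
    (hmin : ∀ a ∈ A, ∀ y ∈ C, ¬ s y a) :
    ∃ Z : Fin k → Finset α, (∀ i, Md r V (Z i) ∧ Cls r w d (Z i)) ∧
      ∀ a ∈ A, ∃ b, (∃ i, b ∈ Z i) ∧ Dm s a b ∧ Dm s b a := by
  classical
  set C₀ : Finset α := V.filter (fun y => y ∈ C ∨ ∃ x ∈ C, r x y) with hC₀
  have hsub : C ⊆ C₀ := fun x hx => Finset.mem_filter.2 ⟨hC hx, Or.inl hx⟩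
  have hCn : ∀ x ∈ C, ∀ y ∈ C, Cn r C₀ x y := fun x hx y hy =>
    cn_mono hsub (cn_sub hI.sub (hc x hx y hy))
  have hto : ∀ x ∈ C₀, ∃ c ∈ C, Cn r C₀ c x := by
    intro x hx
    rcases (Finset.mem_filter.1 hx).2 with h | ⟨c, hcC, hrc⟩
    · exact ⟨x, h, cn_refl hx⟩
    · exact ⟨c, hcC, cn_rel (hsub hcC) hx (Or.inl hrc)⟩
  obtain ⟨Z, hZ, hZm⟩ := hT C₀ (Finset.filter_subset _ _)
    (by
      intro x hx y hy hxy
      rcases (Finset.mem_filter.1 hx).2 with h | ⟨c, hcC, hrc⟩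
      · exact Finset.mem_filter.2 ⟨hy, Or.inr ⟨x, h, hxy⟩⟩
      · exact Finset.mem_filter.2 ⟨hy, Or.inr ⟨c, hcC, hr.trans _ _ _ hrc hxy⟩⟩)
    (by
      intro x hx y hy
      obtain ⟨c, hcC, h1⟩ := hto x hx
      obtain ⟨c', hcC', h2⟩ := hto y hy
      exact cn_trans (cn_symm h1) (cn_trans (hCn c hcC c' hcC') h2))
  refine ⟨Z, hZ, fun a ha => ?_⟩
  obtain ⟨b, hb, hba, hbm⟩ := exists_min hr (hsub (hA ha))
  have hbC : b ∈ C := by
    rcases (Finset.mem_filter.1 hb).2 with h | ⟨c, hcC, hrc⟩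
    · exact h
    · exact absurd hrc (hbm c (hsub hcC))
  refine ⟨b, hZm b hb hbm, ?_⟩
  rcases hba with rfl | hba
  · exact ⟨dm_refl _, dm_refl _⟩
  · have := hI.tw b a hba (hmin a ha b hbC)
    exact ⟨this.2, this.1⟩

end ConnFAux

theorem conn_bound (hr : SO r) (hs : ∀ x y, r x y → x ∈ V ∧ y ∈ V) (hm : 2 ≤ m)
    (hI : Inv r s V m) (hst : ∀ Q, Md s V Q → ¬ Mn s Q m 2) (hT : Top r k w d V) {C : Finset α}
    (hC : C ⊆ V) (hc : ∀ x ∈ C, ∀ y ∈ C, Cn s C x y) {A : Finset α} (hA : A ⊆ C)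
    (hmin : ∀ a ∈ A, ∀ y ∈ C, ¬ s y a) (hdm : ∀ x ∈ A, ∀ y ∈ A, x ≠ y → ¬ Dm s x y) :
    A.card ≤ k * Wb m w d := by
  classical
  obtain ⟨Z, hZ, hf⟩ := ConnFAux.exists_f hr hI hT hC hc hA hmin
  choose! f hf1 hf2 hf3 using hf
  have key : ∀ x ∈ A, ∀ y ∈ A, Dm s (f x) (f y) → x = y := by
    intro x hx y hy h
    by_contra hne
    exact hdm x hx y hy hne
      (ConnFAux.dm_trans (hf2 x hx) (ConnFAux.dm_trans h (hf3 y hy)))
  have hinj : Set.InjOn f (A : Set α) := by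
    intro x hx y hy h
    exact key x hx y hy (h ▸ ConnFAux.dm_refl _)
  have hcard : (A.image f).card = A.card := Finset.card_image_of_injOn hinj
  have hcov : A.image f ⊆ (Finset.univ : Finset (Fin k)).biUnion (fun i => A.image f ∩ Z i) := by
    intro y hy
    obtain ⟨x, hx, rfl⟩ := Finset.mem_image.1 hy
    obtain ⟨i, hi⟩ := hf1 x hx
    exact Finset.mem_biUnion.2 ⟨i, Finset.mem_univ _, Finset.mem_inter.2 ⟨hy, hi⟩⟩
  calc A.card = (A.image f).card := hcard.symm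
    _ ≤ ((Finset.univ : Finset (Fin k)).biUnion (fun i => A.image f ∩ Z i)).card :=
        Finset.card_le_card hcov
    _ ≤ ∑ i : Fin k, (A.image f ∩ Z i).card := Finset.card_biUnion_le
    _ ≤ ∑ _i : Fin k, Wb m w d := by
        refine Finset.sum_le_sum (fun i _ => ?_)
        refine width_bound hs hm hI hst d (Z i) (hZ i).1 (hZ i).2 _ Finset.inter_subset_right ?_
        intro x hx y hy hne hd
        obtain ⟨a, ha, rfl⟩ := Finset.mem_image.1 (Finset.mem_inter.1 hx).1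
        obtain ⟨b, hb, rfl⟩ := Finset.mem_image.1 (Finset.mem_inter.1 hy).1
        exact hne (by rw [key a ha b hb hd])
    _ = k * Wb m w d := by simp

end Pool.Agent.P49d
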