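import Pool.Agent.Lib.P49d.Stmt
import Pool.Agent.Lib.P99b9fe.TabFix

/-!
# Unit tasks on a fixed number of processors: definitions for the proof

Part 1: levels, low components, schedules with exact slot sizes. Part 2: flattening of modules,
dominance. Part 3: the algorithm, on the tasks `0, ..., n - 1`; `tabP` (of `P99b9fe/Defs.lean`)
iterates a rule on tables.
-/

set_option autoImplicit false

namespace Pool.Agent.P49d

open Pool.Agent.P99b9fe Finset

/-! ## Part 1 -/

section Ord

variable {α : Type}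

/-- `U` contains a chain of `h` elements which starts at `x` and goes up. -/
def Lv (r : α → α → Prop) (U : Finset α) : ℕ → α → Prop
  | 0, _ => True
  | h + 1, x => x ∈ U ∧ (h = 0 ∨ ∃ y, r x y ∧ Lv r U h y)

/-- The component of `x` in `U` has height at most `l`. -/
def Ht (r : α → α → Prop) (U : Finset α) (l : ℕ) (x : α) : Prop :=
  ∀ y, Cn r U x y → ¬ Lv r U (l + 1) y

/-- At least `m` components of `U` have height at least `h`. -/
def Mn (r : α → α → Prop) (U : Finset α) (m h : ℕ) : Prop :=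
  ∃ z : Fin m → α, (∀ i, z i ∈ U ∧ Lv r U h (z i)) ∧ ∀ i j, i ≠ j → ¬ Cn r U (z i) (z j)

/-- The component of `x` is a low component: its height is one or at most the height of the `m`-th
highest component. -/
def Lo (r : α → α → Prop) (m : ℕ) (U : Finset α) (x : α) : Prop :=
  ∃ l ≤ U.card + 1, 1 ≤ l ∧ (l = 1 ∨ Mn r U m l) ∧ Ht r U l x

open Classical in
/-- The union of the low components. -/
noncomputable def loS (r : α → α → Prop) (m : ℕ) (U : Finset α) : Finset α :=
  U.filter (Lo r m U)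

open Classical in
/-- The union of the other components. -/
noncomputable def hiS (r : α → α → Prop) (m : ℕ) (U : Finset α) : Finset α :=
  U.filter (fun x => ¬ Lo r m U x)

/-- The elements of `U`, together with `a` free tasks, can be processed in slots of exactly the
sizes `ps`. -/
def Sch [DecidableEq α] (r : α → α → Prop) : Finset α → ℕ → List ℕ → Prop
  | U, a, [] => U = ∅ ∧ a = 0
  | U, a, p :: ps => ∃ V ⊆ U, ∃ q ≤ a, V.card + q = p ∧ (∀ v ∈ V, ∀ u ∈ U, ¬ r u v) ∧
      Sch r (U \ V) (a - q) ps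

/-! ## Part 2 -/

/-- Dominance. -/
def Dm (r : α → α → Prop) (x y : α) : Prop :=
  (∀ z, r z x → r z y) ∧ ∀ z, r y z → r x z

/-- All relations inside the low components of `Q` are deleted. -/
def Fl (r : α → α → Prop) (m : ℕ) (Q : Finset α) (x y : α) : Prop :=
  r x y ∧ ¬ (x ∈ Q ∧ y ∈ Q ∧ Lo r m Q x)

/-- Properties preserved by flattening. -/
structure Inv (r s : α → α → Prop) (V : Finset α) (m : ℕ) : Prop where
  sub : ∀ x y, s x y → r x y
  so : SO s
  md : ∀ Z, Md r V Z → Md s V Z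
  dm : ∀ x y, Dm r x y → Dm s x y
  tw : ∀ x y, r x y → ¬ s x y → Dm s x y ∧ Dm s y x
  sd : ∀ D, Sd s V m D → Sd r V m D

end Ord

/-! ## Part 3 -/

/-- `z` is related differently to `a` and `b`. -/
def sp (r : ℕ → ℕ → Prop) (z a b : ℕ) : Prop := ¬ ((r z a ↔ r z b) ∧ (r a z ↔ r b z))

/-- The rule for the smallest module containing `X`. -/
def clR (n : ℕ) (r : ℕ → ℕ → Prop) (X T : ℕ → Prop) (z : ℕ) : Prop :=
  X z ∨ ∃ a < n, ∃ b < n, T a ∧ T b ∧ sp r z a b

open Classical in
/-- The smallest module containing `X`. -/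
noncomputable def Mc (n : ℕ) (r : ℕ → ℕ → Prop) (X : ℕ → Prop) : Finset ℕ :=
  (range n).filter (tabP (clR n r X) n n)

/-- The set coded by `c`: the first `t` digits in base `n`. -/
def Xc (n t c z : ℕ) : Prop := ∃ j < t, c / n ^ j % n = z

/-- The pair `(x, y)` is deleted when the module generated by the set coded by `c` is flattened. -/
def Rem (n m : ℕ) (r : ℕ → ℕ → Prop) (c x y : ℕ) : Prop :=
  r x y ∧ x ∈ Mc n r (Xc n (2 * m) c) ∧ y ∈ Mc n r (Xc n (2 * m) c) ∧
    Lo r m (Mc n r (Xc n (2 * m) c)) x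

/-- The order without the pairs in the table `T`. -/
def del (n : ℕ) (r : ℕ → ℕ → Prop) (T : ℕ → Prop) (x y : ℕ) : Prop := r x y ∧ ¬ T (x * n + y)

/-- The rule for the deleted pairs: flatten for the smallest code for which this changes something. -/
def flR (n m : ℕ) (r : ℕ → ℕ → Prop) (T : ℕ → Prop) (p : ℕ) : Prop :=
  ∃ c < n ^ (2 * m), Rem n m (del n r T) c (p / n) (p % n) ∧
    ∀ c' < c, ∀ p' < n * n, ¬ Rem n m (del n r T) c' (p' / n) (p' % n)

/-- The flattened order. -/
def star (n m : ℕ) (r : ℕ → ℕ → Prop) : ℕ → ℕ → Prop :=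
  del n r (tabP (flR n m r) (n * n) (n * n))

/-- The auxiliary order: dominance, with ties broken by the numbers, but a maximal element is not
put above an element which is neither maximal nor below it. -/
def Le (s : ℕ → ℕ → Prop) (x y : ℕ) : Prop :=
  Dm s x y ∧ (Dm s y x → x ≤ y) ∧ (s x y ∨ (∀ z, ¬ s x z) ∨ ∃ z, s y z)

open Classical in
/-- The up-set of the auxiliary order generated by the first `K` digits of `b` in base `n + 1`. -/
noncomputable def G (n : ℕ) (s : ℕ → ℕ → Prop) (K b : ℕ) : Finset ℕ :=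
  (range n).filter (fun x => ∃ j < K, b / (n + 1) ^ j % (n + 1) < n ∧
    Le s (b / (n + 1) ^ j % (n + 1)) x)

/-- The set coded by `v`: the first `m` digits in base `n + 1`. -/
def Vs (n m v : ℕ) : Finset ℕ :=
  (range n).filter (fun x => ∃ j < m, v / (n + 1) ^ j % (n + 1) = x)

/-- One slot: the set coded by `v` and `q` free tasks are processed. -/
def Stp (n : ℕ) (s : ℕ → ℕ → Prop) (m K b a v q b' a' : ℕ) : Prop :=
  Vs n m v ⊆ G n s K b ∧ (∀ x ∈ Vs n m v, ∀ u ∈ G n s K b, ¬ s u x) ∧ q ≤ a ∧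
    (Vs n m v).card + q ≤ m ∧ G n s K b' = hiS s m (G n s K b \ Vs n m v) ∧
    a' = a - q + (loS s m (G n s K b \ Vs n m v)).card

/-- The code of a state. -/
def cd (n K k b a : ℕ) : ℕ := (k * (n + 1) ^ K + b) * (n + 1) + a

/-- The rule of the dynamic program. -/
def dR (n : ℕ) (s : ℕ → ℕ → Prop) (m K : ℕ) (T : ℕ → Prop) (x : ℕ) : Prop :=
  ∃ k < n + 1, ∃ b < (n + 1) ^ K, ∃ a < n + 1, x = cd n K k b a ∧
    ((k = 0 ∧ a = 0 ∧ G n s K b = ∅) ∨
      ∃ k' < n + 1, k = k' + 1 ∧ ∃ v < (n + 1) ^ m, ∃ q < n + 1, ∃ b' < (n + 1) ^ K,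
        ∃ a' < n + 1, Stp n s m K b a v q b' a' ∧ T (cd n K k' b' a'))

/-- The number of codes of states. -/
def Sz (n K : ℕ) : ℕ := (n + 1) * (n + 1) ^ K * (n + 1)

/-- The dynamic program finds a schedule with `k` slots. -/
def Acc (n : ℕ) (s : ℕ → ℕ → Prop) (m K k : ℕ) : Prop :=
  ∃ b < (n + 1) ^ K, G n s K b = hiS s m (range n) ∧
    tabP (dR n s m K) (Sz n K) (Sz n K) (cd n K k b (loS s m (range n)).card)

open Classical in
/-- The number found by the algorithm. -/
noncomputable def gval (n : ℕ) (r : ℕ → ℕ → Prop) (m K : ℕ) : ℕ :=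
  ((range n).filter (fun k => ∀ k' < k + 1, ¬ Acc n (star n m r) m K k')).card

/-- The order on `Fin n` as a relation on numbers. -/
def rN {n : ℕ} (r : Fin n → Fin n → Prop) (x y : ℕ) : Prop :=
  ∃ (hx : x < n) (hy : y < n), r ⟨x, hx⟩ ⟨y, hy⟩

/-- Up-sets of the auxiliary order. -/
def Fi (n : ℕ) (s : ℕ → ℕ → Prop) (U : Finset ℕ) : Prop :=
  U ⊆ range n ∧ ∀ x ∈ U, ∀ y < n, Le s x y → y ∈ U

/-! ### The bound for the number of generators -/

/-- The bound for antichains of the dominance. -/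
def Wb (m w d : ℕ) : ℕ := (m + w + 1) ^ (d + 1)

/-- The number of generators. -/
def Kb (m k w d : ℕ) : ℕ := m * (2 * (k * Wb m w d))

end Pool.Agent.P49d
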