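import Pool.Agent.Lib.P49d.Basic

/-!
# Module P49d.Drop: removing minimal elements

`X` is a set of minimal elements of `U` which is removed.

PROOF SKETCH. `lv_keep`: induction on `k` (generalizing `y`): `y ∉ X` since `r u y`; the next element
`y'` of the chain has `r y y'`, so it is not minimal either. `lv_drop`: `Lv (k + 2) x` gives `y` with
`r x y` and `Lv (k + 1) y`; apply `lv_keep` to `y`, and `cn_rel`. `mn_drop`: apply `lv_drop` to the
witnesses; the new witnesses are in the same components of `U`, so not connected in `U \ X`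
(`cn_mono`, `cn_trans`, `cn_symm`). `mn_keep`: for a witness `z i`: if its component in `U` contains
an element `y` of level `l + 1`, take the element given by `lv_drop` (`l = k + 1`). Otherwise no element
of the component is in `X` (by `hc`), and the chain from `z i` lies in the component: lemma: if no
element of the component of `z` is in `X` then `Lv r U l z → Lv r (U \ X) l z` (induction on `l`).
-/

set_option autoImplicit false

namespace Pool.Agent.P49d

open Finset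

variable {α : Type} [DecidableEq α] {r : α → α → Prop} {U X : Finset α} {x y u : α} {k l m : ℕ}

theorem lv_keep (hX : ∀ v ∈ X, ∀ u ∈ U, ¬ r u v) (hu : u ∈ U) (hy : r u y) (h : Lv r U k y) :
    Lv r (U \ X) k y := by
  induction k generalizing u y with
  | zero => trivial
  | succ k ih =>
    have hyU : y ∈ U := lv_mem h
    have hyX : y ∉ X := fun hyX => hX y hyX u hu hy
    have hyUX : y ∈ U \ X := mem_sdiff.2 ⟨hyU, hyX⟩
    rcases k with _ | k
    · exact lv_one.2 hyUX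
    · obtain ⟨_, y', hyy', hy'⟩ := lv_succ_iff.1 h
      exact lv_succ_iff.2 ⟨hyUX, y', hyy', ih hyU hyy' hy'⟩

theorem lv_drop (hX : ∀ v ∈ X, ∀ u ∈ U, ¬ r u v) (h : Lv r U (k + 2) x) :
    ∃ y, Cn r U x y ∧ Lv r (U \ X) (k + 1) y := by
  obtain ⟨hx, y, hxy, hy⟩ := lv_succ_iff.1 h
  exact ⟨y, cn_rel hx (lv_mem hy) (Or.inl hxy), lv_keep hX hx hxy hy⟩

/-- New witnesses in the same components. -/
private theorem mn_of {l' : ℕ} (hl' : 1 ≤ l') {z : Fin m → α} (hz : ∀ i j, i ≠ j → ¬ Cn r U (z i) (z j))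
    (h : ∀ i, ∃ y, Cn r U (z i) y ∧ Lv r (U \ X) l' y) : Mn r (U \ X) m l' := by
  choose w hw1 hw2 using h
  obtain ⟨l, rfl⟩ : ∃ l, l' = l + 1 := ⟨l' - 1, by omega⟩
  refine ⟨w, fun i => ⟨lv_mem (hw2 i), hw2 i⟩, fun i j hij hcn => hz i j hij ?_⟩
  exact cn_trans (hw1 i) (cn_trans (cn_mono sdiff_subset hcn) (cn_symm (hw1 j)))

theorem mn_drop (hX : ∀ v ∈ X, ∀ u ∈ U, ¬ r u v) (h : Mn r U m (k + 2)) :
    Mn r (U \ X) m (k + 1) := by
  obtain ⟨z, hz1, hz2⟩ := h
  exact mn_of (by omega) hz2 fun i => lv_drop hX (hz1 i).2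

/-- If no element of the component is removed then the level stays. -/
private theorem lv_stay {z : α} (hz : ∀ v, Cn r U z v → v ∉ X) (h : Lv r U l z) : Lv r (U \ X) l z := by
  induction l generalizing z with
  | zero => trivial
  | succ l ih =>
    have hzU : z ∈ U := lv_mem h
    have hzUX : z ∈ U \ X := mem_sdiff.2 ⟨hzU, hz z (cn_refl hzU)⟩
    rcases l with _ | l
    · exact lv_one.2 hzUX
    · obtain ⟨_, y, hzy, hy⟩ := lv_succ_iff.1 h
      have hc : Cn r U z y := cn_rel hzU (lv_mem hy) (Or.inl hzy)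
      exact lv_succ_iff.2 ⟨hzUX, y, hzy, ih (fun v hv => hz v (cn_trans hc hv)) hy⟩

theorem mn_keep (hl : 1 ≤ l) (hX : ∀ v ∈ X, ∀ u ∈ U, ¬ r u v)
    (hc : ∀ v ∈ X, ∃ y, Cn r U v y ∧ Lv r U (l + 1) y) (h : Mn r U m l) : Mn r (U \ X) m l := by
  obtain ⟨z, hz1, hz2⟩ := h
  refine mn_of hl hz2 fun i => ?_
  by_cases hy : ∃ y, Cn r U (z i) y ∧ Lv r U (l + 1) y
  · obtain ⟨y, hy1, hy2⟩ := hy
    obtain ⟨k, rfl⟩ : ∃ k, l = k + 1 := ⟨l - 1, by omega⟩
    obtain ⟨y', hy'1, hy'2⟩ := lv_drop hX hy2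
    exact ⟨y', cn_trans hy1 hy'1, hy'2⟩
  · refine ⟨z i, cn_refl (hz1 i).1, lv_stay (fun v hv hvX => hy ?_) (hz1 i).2⟩
    obtain ⟨y, hy1, hy2⟩ := hc v hvX
    exact ⟨y, cn_trans hv hy1, hy2⟩

end Pool.Agent.P49d
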