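import Pool.Agent.Lib.P49d.Basic

/-!
# Module P49d.Relax: relaxations of schedules with exact slot sizes

PROOF SKETCH. All by induction on the list `ps` (for `sch_priority` see below).

`sch_relax` (the elements of `X` become free tasks). First slot `V ⊆ W`, `q ≤ b`. Take
`V' = V \ X`, `q' = q + (V ∩ X).card`: `V' ⊆ W \ X`, `V'.card + q' = V.card + q`, elements of `V'` are
minimal in `W \ X`, `q' ≤ b + X.card`. The rest: `(W \ X) \ V' = (W \ V) \ (X \ V)`,
`b + X.card - q' = (b - q) + (X \ V).card`; use the induction hypothesis for `W \ V` and `X \ V`.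

`sch_map` (another order on another set): `V' = U'.filter (f x ∈ V)`; `f` is a bijection from `V'` onto
`V` and from `U' \ V'` onto `U \ V`.

`sch_priority` (the elements of `W` have priority over free tasks). Among all pairs `(V, q)` as in the
definition of `Sch r W b (p :: ps)` take one with the largest `V.card` (it is bounded by `p`;
e.g. by strong induction on `q`: least `q`). If `0 < q` and some `h ∈ W \ V` is minimal in `W`, then
`(insert h V, q - 1)` is another such pair: `Sch r (W \ insert h V) (b - q + 1) ps` follows from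
`sch_relax` with `X = {h}`.
-/

set_option autoImplicit false

namespace Pool.Agent.P49d

open Finset

variable {α β : Type} [DecidableEq α] [DecidableEq β] {r : α → α → Prop}

theorem sch_relax {ps : List ℕ} : ∀ {W X : Finset α} {b : ℕ}, X ⊆ W → Sch r W b ps →
    Sch r (W \ X) (b + X.card) ps := by
  induction ps with
  | nil =>
    intro W X b hX h
    obtain ⟨hW, hb⟩ := h
    subst hW
    have hX0 : X = ∅ := Finset.subset_empty.1 hX
    subst hX0
    exact ⟨by simp, by simp [hb]⟩
  | cons p ps ih =>
    intro W X b hX h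
    obtain ⟨V, hV, q, hq, hc, hmin, hrest⟩ := h
    have hcard : (V \ X).card + (V ∩ X).card = V.card := Finset.card_sdiff_add_card_inter V X
    have hcard2 : (X \ V).card + (X ∩ V).card = X.card := Finset.card_sdiff_add_card_inter X V
    have hcomm : (X ∩ V).card = (V ∩ X).card := by rw [Finset.inter_comm]
    refine ⟨V \ X, Finset.sdiff_subset_sdiff hV subset_rfl, q + (V ∩ X).card, by omega, by omega, ?_, ?_⟩
    · intro v hv u hu
      rw [Finset.mem_sdiff] at hv hu
      exact hmin v hv.1 u hu.1
    · have h1 := ih (W := W \ V) (X := X \ V) (Finset.sdiff_subset_sdiff hX subset_rfl) hrest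
      have h2 : (W \ X) \ (V \ X) = (W \ V) \ (X \ V) := by
        ext x
        simp only [Finset.mem_sdiff]
        tauto
      have h3 : b + X.card - (q + (V ∩ X).card) = b - q + (X \ V).card := by omega
      rw [h2, h3]
      exact h1

theorem sch_map {s : β → β → Prop} {f : β → α} {ps : List ℕ} : ∀ {U : Finset α} {U' : Finset β}
    {a : ℕ}, (∀ x ∈ U', ∀ y ∈ U', f x = f y → x = y) → U'.image f = U →
    (∀ x ∈ U', ∀ y ∈ U', s x y → r (f x) (f y)) → Sch r U a ps → Sch s U' a ps := by
  induction ps with
  | nil =>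
    intro U U' a _ hU _ h
    obtain ⟨h1, h2⟩ := h
    subst h1
    exact ⟨Finset.image_eq_empty.1 hU, h2⟩
  | cons p ps ih =>
    intro U U' a hf hU hs h
    obtain ⟨V, hV, q, hq, hc, hmin, hrest⟩ := h
    have himg : (U'.filter (fun x => f x ∈ V)).image f = V := by
      ext y
      simp only [Finset.mem_image, Finset.mem_filter]
      constructor
      · rintro ⟨x, ⟨_, hx⟩, rfl⟩
        exact hx
      · intro hy
        have h1 := hV hy
        rw [← hU, Finset.mem_image] at h1
        obtain ⟨x, hx, rfl⟩ := h1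
        exact ⟨x, ⟨hx, hy⟩, rfl⟩
    have hcard : (U'.filter (fun x => f x ∈ V)).card = V.card := by
      conv_rhs => rw [← himg]
      rw [Finset.card_image_of_injOn]
      intro x hx y hy hxy
      rw [Finset.mem_coe, Finset.mem_filter] at hx hy
      exact hf x hx.1 y hy.1 hxy
    refine ⟨U'.filter (fun x => f x ∈ V), Finset.filter_subset _ _, q, hq, by omega, ?_, ?_⟩
    · intro v hv u hu huv
      rw [Finset.mem_filter] at hv
      refine hmin (f v) hv.2 (f u) ?_ (hs u hu v hv.1 huv)
      rw [← hU]
      exact Finset.mem_image_of_mem f hu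
    · refine ih (U := U \ V) (U' := U' \ U'.filter (fun x => f x ∈ V)) ?_ ?_ ?_ hrest
      · intro x hx y hy hxy
        exact hf x (Finset.mem_sdiff.1 hx).1 y (Finset.mem_sdiff.1 hy).1 hxy
      · ext y
        simp only [Finset.mem_image, Finset.mem_sdiff, Finset.mem_filter]
        constructor
        · rintro ⟨x, ⟨hx, hxV⟩, rfl⟩
          refine ⟨?_, fun h => hxV ⟨hx, h⟩⟩
          rw [← hU]
          exact Finset.mem_image_of_mem f hx
        · rintro ⟨hy, hyV⟩
          rw [← hU, Finset.mem_image] at hy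
          obtain ⟨x, hx, rfl⟩ := hy
          exact ⟨x, ⟨hx, fun h => hyV h.2⟩, rfl⟩
      · intro x hx y hy hxy
        exact hs x (Finset.mem_sdiff.1 hx).1 y (Finset.mem_sdiff.1 hy).1 hxy

theorem RelaxAux.priority {W : Finset α} {b p : ℕ} {ps : List ℕ} : ∀ (q : ℕ) (V : Finset α), V ⊆ W → q ≤ b →
    V.card + q = p → (∀ v ∈ V, ∀ u ∈ W, ¬ r u v) → Sch r (W \ V) (b - q) ps →
    ∃ V ⊆ W, ∃ q ≤ b, V.card + q = p ∧ (∀ v ∈ V, ∀ u ∈ W, ¬ r u v) ∧ Sch r (W \ V) (b - q) ps ∧
      (q = 0 ∨ ∀ x ∈ W, (∀ u ∈ W, ¬ r u x) → x ∈ V) := by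
  intro q
  induction q with
  | zero =>
    intro V hV hq hc hmin hrest
    exact ⟨V, hV, 0, hq, hc, hmin, hrest, Or.inl rfl⟩
  | succ q ih =>
    intro V hV hq hc hmin hrest
    by_cases hall : ∀ x ∈ W, (∀ u ∈ W, ¬ r u x) → x ∈ V
    · exact ⟨V, hV, q + 1, hq, hc, hmin, hrest, Or.inr hall⟩
    · push Not at hall
      obtain ⟨x, hx, hxmin, hxV⟩ := hall
      refine ih (insert x V) ?_ (by omega) ?_ ?_ ?_
      · intro y hy
        rw [Finset.mem_insert] at hy
        rcases hy with rfl | hy
        · exact hx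
        · exact hV hy
      · rw [Finset.card_insert_of_notMem hxV]
        omega
      · intro v hv
        rw [Finset.mem_insert] at hv
        rcases hv with rfl | hv
        · exact hxmin
        · exact hmin v hv
      · have h1 := sch_relax (W := W \ V) (X := {x})
          (Finset.singleton_subset_iff.2 (Finset.mem_sdiff.2 ⟨hx, hxV⟩)) hrest
        have h2 : (W \ V) \ {x} = W \ insert x V := by
          ext y
          simp only [Finset.mem_sdiff, Finset.mem_insert, Finset.mem_singleton]
          tauto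
        have h3 : b - (q + 1) + ({x} : Finset α).card = b - q := by
          rw [Finset.card_singleton]
          omega
        rw [h2, h3] at h1
        exact h1

theorem sch_priority {W : Finset α} {b p : ℕ} {ps : List ℕ} (h : Sch r W b (p :: ps)) :
    ∃ V ⊆ W, ∃ q ≤ b, V.card + q = p ∧ (∀ v ∈ V, ∀ u ∈ W, ¬ r u v) ∧ Sch r (W \ V) (b - q) ps ∧
      (q = 0 ∨ ∀ x ∈ W, (∀ u ∈ W, ¬ r u x) → x ∈ V) := by
  obtain ⟨V, hV, q, hq, hc, hmin, hrest⟩ := h
  exact RelaxAux.priority q V hV hq hc hmin hrest

end Pool.Agent.P49d
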