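import Pool.Agent.Lib.P49d.FiHi
import Pool.Agent.Lib.P49d.Relax

/-!
# Module P49d.Exch: exchange argument for the dominance

PROOF. Let `rk y = ((range n).filter (fun z => Le s z y)).card`. Among all pairs `(V, q)` as in the
definition of `Sch s U a (p :: ps)` take one with the smallest `∑ v ∈ V, rk v` (well-founded). Claim:
`Fi n s (U \ V)`. Otherwise there are `x ∈ U \ V` and `y < n`, `Le s x y`, `y ∉ U \ V`; `y ∈ U` since `Fi n s U`, so
`y ∈ V`, `x ≠ y`. Let `V' = insert x (V.erase y)`: the same cardinality, `V' ⊆ U`, and `x` is minimal in `U`: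
if `s u x`, `u ∈ U` then `s u y` by `Dm s x y`, against the minimality of `y`. `Sch s (U \ V') (a - q) ps`: by
`sch_map` with `f z = if z = y then x else z` from `U \ V' = insert y ((U \ V).erase x)` onto `U \ V`: for
`u, v ∈ U \ V'`, `s u v`: if `u = y` then `s x v` by `Dm s x y` (`v ≠ y`); if `v = y` this contradicts the
minimality of `y` in `U`. `rk x < rk y`: by `le_trans'` the set for `x` is contained in the set for `y`, and
`y` is in the second one (`le_refl'`) but not in the first one (`le_antisymm'`). So the sum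
decreases, a contradiction.
-/

set_option autoImplicit false

namespace Pool.Agent.P49d

open Finset

variable {n a p : ℕ} {s : ℕ → ℕ → Prop} {U : Finset ℕ} {ps : List ℕ}

namespace ExchAux

open Classical in
/-- the rank of `y` -/
noncomputable def rk (n : ℕ) (s : ℕ → ℕ → Prop) (y : ℕ) : ℕ :=
  ((range n).filter (fun z => Le s z y)).card

theorem rk_lt {x y : ℕ} (hy : y < n) (hxy : x ≠ y) (h : Le s x y) : rk n s x < rk n s y := by
  classical
  unfold rk
  apply card_lt_card
  rw [ssubset_iff_of_subset]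
  · refine ⟨y, mem_filter.2 ⟨mem_range.2 hy, le_refl'⟩, ?_⟩
    intro h1
    exact hxy (le_antisymm' h (mem_filter.1 h1).2)
  · intro z hz
    rw [mem_filter] at hz ⊢
    exact ⟨hz.1, le_trans' hz.2 h⟩

/-- the first slot -/
def Fst (s : ℕ → ℕ → Prop) (U : Finset ℕ) (a p : ℕ) (ps : List ℕ) (V : Finset ℕ) : Prop :=
  V ⊆ U ∧ ∃ q ≤ a, V.card + q = p ∧ (∀ v ∈ V, ∀ u ∈ U, ¬ s u v) ∧ Sch s (U \ V) (a - q) ps

theorem swap {V : Finset ℕ} {x y : ℕ} (hV : Fst s U a p ps V) (hx : x ∈ U \ V) (hy : y ∈ V)
    (h : Dm s x y) : Fst s U a p ps (insert x (V.erase y)) := by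
  obtain ⟨hVU, q, hq, hp, hmin, hsch⟩ := hV
  obtain ⟨hxU, hxV⟩ := mem_sdiff.1 hx
  have hxy : x ≠ y := by
    rintro rfl
    exact hxV hy
  have hyU := hVU hy
  have hxmin : ∀ u ∈ U, ¬ s u x := fun u hu hux => hmin y hy u hu (h.1 u hux)
  refine ⟨?_, q, hq, ?_, ?_, ?_⟩
  · intro z hz
    rw [mem_insert] at hz
    rcases hz with rfl | hz
    · exact hxU
    · exact hVU (mem_of_mem_erase hz)
  · have h1 : x ∉ V.erase y := fun h1 => hxV (mem_of_mem_erase h1)
    have h2 := card_pos.2 ⟨y, hy⟩
    rw [card_insert_of_notMem h1, card_erase_of_mem hy]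
    omega
  · intro v hv
    rw [mem_insert] at hv
    rcases hv with rfl | hv
    · exact hxmin
    · exact hmin v (mem_of_mem_erase hv)
  · refine sch_map (f := fun z => if z = y then x else z) ?_ ?_ ?_ hsch
    · intro z hz w hw hzw
      have hxn : ∀ w, w ∈ U \ insert x (V.erase y) → w ≠ x := by
        rintro w hw rfl
        exact (mem_sdiff.1 hw).2 (mem_insert_self _ _)
      by_cases h1 : z = y
      · by_cases h2 : w = y
        · rw [h1, h2]
        · simp only [if_pos h1, if_neg h2] at hzw
          exact absurd hzw.symm (hxn w hw)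
      · by_cases h2 : w = y
        · simp only [if_neg h1, if_pos h2] at hzw
          exact absurd hzw (hxn z hz)
        · simpa only [if_neg h1, if_neg h2] using hzw
    · ext w
      rw [mem_image]
      constructor
      · rintro ⟨z, hz, rfl⟩
        rw [mem_sdiff, mem_insert, mem_erase] at hz
        by_cases h1 : z = y
        · simp only [if_pos h1]
          exact hx
        · simp only [if_neg h1]
          rw [mem_sdiff]
          exact ⟨hz.1, fun h2 => hz.2 (Or.inr ⟨h1, h2⟩)⟩
      · intro hw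
        obtain ⟨hw1, hw2⟩ := mem_sdiff.1 hw
        by_cases h1 : w = x
        · refine ⟨y, ?_, ?_⟩
          · rw [mem_sdiff, mem_insert, mem_erase]
            refine ⟨hyU, ?_⟩
            rintro (h2 | h2)
            · exact hxy h2.symm
            · exact h2.1 rfl
          · simp only [if_true]
            exact h1.symm
        · refine ⟨w, ?_, ?_⟩
          · rw [mem_sdiff, mem_insert, mem_erase]
            refine ⟨hw1, ?_⟩
            rintro (h2 | h2)
            · exact h1 h2
            · exact hw2 h2.2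
          · have h2 : w ≠ y := by
              rintro rfl
              exact hw2 hy
            simp only [if_neg h2]
    · intro u hu v hv huv
      have hu' := (mem_sdiff.1 hu).1
      by_cases h2 : v = y
      · rw [h2] at huv
        exact absurd huv (hmin y hy u hu')
      · by_cases h1 : u = y
        · simp only [if_pos h1, if_neg h2]
          rw [h1] at huv
          exact h.2 v huv
        · simp only [if_neg h1, if_neg h2]
          exact huv

end ExchAux

open ExchAux

theorem exch (hr : SO s) (hs : ∀ x y, s x y → x ∈ range n ∧ y ∈ range n) (hU : Fi n s U)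
    (h : Sch s U a (p :: ps)) :
    ∃ V ⊆ U, ∃ q ≤ a, V.card + q = p ∧ (∀ v ∈ V, ∀ u ∈ U, ¬ s u v) ∧
      Sch s (U \ V) (a - q) ps ∧ Fi n s (U \ V) := by
  classical
  obtain ⟨V₀, hV₀U, h₀⟩ := h
  have hex : ∃ k, ∃ V, Fst s U a p ps V ∧ ∑ v ∈ V, rk n s v = k :=
    ⟨_, V₀, ⟨hV₀U, h₀⟩, rfl⟩
  obtain ⟨V, hV, hVk⟩ := Nat.find_spec hex
  have hmin : ∀ W, Fst s U a p ps W → ∑ v ∈ V, rk n s v ≤ ∑ v ∈ W, rk n s v := by
    intro W hW
    rw [hVk]
    exact Nat.find_min' hex ⟨W, hW, rfl⟩
  have hFi : Fi n s (U \ V) := by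
    refine ⟨sdiff_subset.trans hU.1, ?_⟩
    intro x hx y hy hxy
    by_contra hyn
    have hxU := (mem_sdiff.1 hx).1
    have hyU := hU.2 x hxU y hy hxy
    have hyV : y ∈ V := by
      by_contra h1
      exact hyn (mem_sdiff.2 ⟨hyU, h1⟩)
    have hne : x ≠ y := by
      rintro rfl
      exact hyn hx
    have h1 := hmin _ (swap hV hx hyV hxy.1)
    have h2 : x ∉ V.erase y := fun h2 => (mem_sdiff.1 hx).2 (mem_of_mem_erase h2)
    rw [sum_insert h2, ← add_sum_erase _ _ hyV] at h1
    have h3 := rk_lt hy hne hxy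
    omega
  obtain ⟨hVU, q, hq, hp, hm, hsch⟩ := hV
  exact ⟨V, hVU, q, hq, hp, hm, hsch, hFi⟩

end Pool.Agent.P49d
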