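import Pool.Agent.Lib.P49d.RThm

/-!
# Module P49d.FlatP: properties preserved by flattening a module

Write `r' = Fl r m Q`. An element `x ∈ Q` with `Lo r m Q x` is called low. If `x, y ∈ Q`, `r x y` then `x`
is low iff `y` is low (`cn_rel`, `lo_congr`); so for a low `x`: `r' z x` iff `r z x` and `z ∉ Q`, and `r' x z`
iff `r x z` and `z ∉ Q`. For `x` not low (or `x ∉ Q`): `r' z x` iff `r z x`, `r' x z` iff `r x z`.
FACT: if `x` is low and `r x z` or `r z x` for some `z ∈ Q` then some `q ∈ Q` is in another component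
(`¬ Cn r Q x q`): `Ht r Q l x`, the component has an element of level two, so `l ≥ 2` and `Mn r Q m l`
with `m ≥ 2` gives two elements in different components.

`fl_so`: transitivity: let `r' x y`, `r' y z`, `r x z`. If `x, z ∈ Q`, `x` low: `y ∈ Q` contradicts
`r' x y`; `y ∉ Q`: `r x y` gives `r z y` by `hQ`, against `r y z`.

`fl_md`: let `z₁, z₂ ∈ Z`, `y ∈ V \ Z`, `r' y z₁`. We want `r' y z₂`. `r y z₂` by `hZ`. Suppose that the pair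
`(y, z₂)` is deleted: `y, z₂ ∈ Q` and `y`, `z₂` low. If `z₁ ∈ Q` then also `(y, z₁)` is deleted. So
`z₁ ∉ Q`, and `r y z₁`, `y ∈ Q` give `r q z₁` for all `q ∈ Q` (`hQ`). By the FACT let `q ∈ Q` be in another
component than `y`. If `q ∉ Z` then `r q z₁` gives `r q z₂` (`hZ`), so `q` is in the component of `z₂`, which is
the one of `y`. If `q ∈ Z` then `r y z₂` gives `r y q` (`hZ`). Both are contradictions. The other
direction (`r' z₁ y`) is dual.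

`fl_dm`: let `Dm r x y`. Let `r' z x`; then `r z x`, `r z y`. If the pair `(z, y)` is deleted: `z, y ∈ Q`, low.
If `x ∈ Q` then `x` is in the component of `z`, so `(z, x)` is deleted. If `x ∉ Q`: `r z x` gives `r y x` by
`hQ` (with `hs`), so `r y y` by `Dm r x y`. Dual for the successors.

`fl_tw`: let `r x y`, `¬ r' x y`: `x, y ∈ Q` low. `r' z x` iff `r z x` and `z ∉ Q` iff (by `hQ`, `hs`) `r z y`
and `z ∉ Q` iff `r' z y`; the same for the successors.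

`inv_step`: combine; `sd` by `sd_of_fl` (`SO s` is `hI.so`), `tw`: if `¬ s x y` use `hI.tw` and `fl_dm`,
otherwise `fl_tw`.
-/

set_option autoImplicit false

namespace Pool.Agent.P49d

open Finset

variable {α : Type} [DecidableEq α] {r s : α → α → Prop} {V Q Z : Finset α} {m : ℕ} {x y : α}

namespace FlatPAux

omit [DecidableEq α] in
/-- A low element which is related to an element of `Q`: some element of `Q` is in another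
component. -/
theorem fact (hm : 2 ≤ m) {z : α} (hx : x ∈ Q) (hz : z ∈ Q) (hl : Lo r m Q x) (h : r x z ∨ r z x) :
    ∃ q ∈ Q, ¬ Cn r Q x q := by
  obtain ⟨l, -, -, h1, h2⟩ := hl
  rcases h1 with h1 | h1
  · exfalso
    rw [h1] at h2
    rcases h with h | h
    · refine h2 x (cn_refl hx) ?_
      rw [show (1 : ℕ) + 1 = 0 + 2 from rfl, lv_succ_iff]
      exact ⟨hx, z, h, lv_one.2 hz⟩
    · refine h2 z (cn_rel hx hz (Or.inr h)) ?_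
      rw [show (1 : ℕ) + 1 = 0 + 2 from rfl, lv_succ_iff]
      exact ⟨hz, x, h, lv_one.2 hx⟩
  · obtain ⟨w, hw, hn⟩ := h1
    by_contra hcon
    push Not at hcon
    have h3 := hcon _ (hw ⟨0, by omega⟩).1
    have h4 := hcon _ (hw ⟨1, by omega⟩).1
    refine hn ⟨0, by omega⟩ ⟨1, by omega⟩ ?_ (cn_trans (cn_symm h3) h4)
    intro h5
    have := congrArg Fin.val h5
    simp at this

omit [DecidableEq α] in
theorem low_rel {z : α} (hx : x ∈ Q) (hz : z ∈ Q) (h : r x z ∨ r z x) (hl : Lo r m Q x) :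
    Lo r m Q z := (lo_congr (cn_rel hx hz h)).1 hl

omit [DecidableEq α] in
theorem md_up (hm : 2 ≤ m) (hQ : Md r V Q) (hZ : Md r V Z) {z₁ z₂ y : α}
    (h1 : z₁ ∈ Z) (h2 : z₂ ∈ Z) (hy : y ∈ V) (hyZ : y ∉ Z) (h : Fl r m Q y z₁) : Fl r m Q y z₂ := by
  obtain ⟨h3, h4⟩ := h
  have h5 : r y z₂ := ((hZ.2 z₁ h1 z₂ h2 y hy hyZ).1).1 h3
  refine ⟨h5, ?_⟩
  rintro ⟨h6, h7, h8⟩
  by_cases h9 : z₁ ∈ Q
  · exact h4 ⟨h6, h9, h8⟩
  · obtain ⟨q, hq, hcn⟩ := fact hm h6 h7 h8 (Or.inl h5)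
    have h10 : r q z₁ := ((hQ.2 y h6 q hq z₁ (hZ.1 h1) h9).2).1 h3
    by_cases hqZ : q ∈ Z
    · exact hcn (cn_rel h6 hq (Or.inl (((hZ.2 z₂ h2 q hqZ y hy hyZ).1).1 h5)))
    · have h11 : r q z₂ := ((hZ.2 z₁ h1 z₂ h2 q (hQ.1 hq) hqZ).1).1 h10
      exact hcn (cn_trans (cn_rel h6 h7 (Or.inl h5)) (cn_rel h7 hq (Or.inr h11)))

omit [DecidableEq α] in
theorem md_dn (hm : 2 ≤ m) (hQ : Md r V Q) (hZ : Md r V Z) {z₁ z₂ y : α}
    (h1 : z₁ ∈ Z) (h2 : z₂ ∈ Z) (hy : y ∈ V) (hyZ : y ∉ Z) (h : Fl r m Q z₁ y) : Fl r m Q z₂ y := by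
  obtain ⟨h3, h4⟩ := h
  have h5 : r z₂ y := ((hZ.2 z₁ h1 z₂ h2 y hy hyZ).2).1 h3
  refine ⟨h5, ?_⟩
  rintro ⟨h6, h7, h8⟩
  have h8' : Lo r m Q y := low_rel h6 h7 (Or.inl h5) h8
  by_cases h9 : z₁ ∈ Q
  · exact h4 ⟨h9, h7, low_rel h7 h9 (Or.inr h3) h8'⟩
  · obtain ⟨q, hq, hcn⟩ := fact hm h7 h6 h8' (Or.inr h5)
    have h10 : r z₁ q := ((hQ.2 y h7 q hq z₁ (hZ.1 h1) h9).1).1 h3
    by_cases hqZ : q ∈ Z
    · exact hcn (cn_rel h7 hq (Or.inr (((hZ.2 z₂ h2 q hqZ y hy hyZ).2).1 h5)))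
    · have h11 : r z₂ q := ((hZ.2 z₁ h1 z₂ h2 q (hQ.1 hq) hqZ).2).1 h10
      exact hcn (cn_trans (cn_rel h7 h6 (Or.inr h5)) (cn_rel h6 hq (Or.inl h11)))

omit [DecidableEq α] in
theorem tw_up (hs : ∀ x y, r x y → x ∈ V ∧ y ∈ V) (hQ : Md r V Q) (hx : x ∈ Q)
    (hy : y ∈ Q) (hl : Lo r m Q x) {z : α} (h : Fl r m Q z x) : Fl r m Q z y := by
  obtain ⟨h1, h2⟩ := h
  have h3 : z ∉ Q := fun h3 => h2 ⟨h3, hx, low_rel hx h3 (Or.inr h1) hl⟩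
  exact ⟨((hQ.2 x hx y hy z (hs _ _ h1).1 h3).1).1 h1, fun h4 => h3 h4.1⟩

omit [DecidableEq α] in
theorem tw_dn (hs : ∀ x y, r x y → x ∈ V ∧ y ∈ V) (hQ : Md r V Q) (hx : x ∈ Q)
    (hy : y ∈ Q) (hl : Lo r m Q x) {z : α} (h : Fl r m Q x z) : Fl r m Q y z := by
  obtain ⟨h1, h2⟩ := h
  have h3 : z ∉ Q := fun h3 => h2 ⟨hx, h3, hl⟩
  exact ⟨((hQ.2 x hx y hy z (hs _ _ h1).2 h3).2).1 h1, fun h4 => h3 h4.2.1⟩

end FlatPAux

open FlatPAux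

theorem fl_so (hr : SO r) (hs : ∀ x y, r x y → x ∈ V ∧ y ∈ V) (hQ : Md r V Q) :
    SO (Fl r m Q) := by
  refine ⟨fun x h => hr.irr x h.1, ?_⟩
  rintro x y z ⟨h1, h2⟩ ⟨h3, h4⟩
  refine ⟨hr.trans _ _ _ h1 h3, ?_⟩
  rintro ⟨h5, h6, h7⟩
  by_cases hy : y ∈ Q
  · exact h2 ⟨h5, hy, h7⟩
  · have h8 : r z y := ((hQ.2 x h5 z h6 y (hs _ _ h1).2 hy).2).1 h1
    exact hr.irr z (hr.trans _ _ _ h8 h3)

theorem fl_md (hr : SO r) (hs : ∀ x y, r x y → x ∈ V ∧ y ∈ V) (hm : 2 ≤ m) (hQ : Md r V Q)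
    (hZ : Md r V Z) : Md (Fl r m Q) V Z := by
  refine ⟨hZ.1, fun z₁ h1 z₂ h2 y hy hyZ => ⟨⟨?_, ?_⟩, ⟨?_, ?_⟩⟩⟩
  · exact md_up hm hQ hZ h1 h2 hy hyZ
  · exact md_up hm hQ hZ h2 h1 hy hyZ
  · exact md_dn hm hQ hZ h1 h2 hy hyZ
  · exact md_dn hm hQ hZ h2 h1 hy hyZ

theorem fl_dm (hr : SO r) (hs : ∀ x y, r x y → x ∈ V ∧ y ∈ V) (hQ : Md r V Q) (h : Dm r x y) :
    Dm (Fl r m Q) x y := by
  constructor
  · rintro z ⟨h1, h2⟩
    refine ⟨h.1 z h1, ?_⟩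
    rintro ⟨h3, h4, h5⟩
    by_cases hx : x ∈ Q
    · exact h2 ⟨h3, hx, h5⟩
    · have h6 : r y x := ((hQ.2 z h3 y h4 x (hs _ _ h1).2 hx).2).1 h1
      exact hr.irr y (h.1 y h6)
  · rintro z ⟨h1, h2⟩
    have hxz := h.2 z h1
    refine ⟨hxz, ?_⟩
    rintro ⟨h3, h4, h5⟩
    by_cases hy : y ∈ Q
    · exact h2 ⟨hy, h4, low_rel h4 hy (Or.inr h1) (low_rel h3 h4 (Or.inl hxz) h5)⟩
    · have h6 : r y x := ((hQ.2 z h4 x h3 y (hs _ _ h1).1 hy).1).1 h1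
      exact hr.irr y (h.1 y h6)

theorem fl_tw (hr : SO r) (hs : ∀ x y, r x y → x ∈ V ∧ y ∈ V) (hQ : Md r V Q) (h : r x y)
    (h' : ¬ Fl r m Q x y) : Dm (Fl r m Q) x y ∧ Dm (Fl r m Q) y x := by
  have h1 : x ∈ Q ∧ y ∈ Q ∧ Lo r m Q x := by
    by_contra hcon
    exact h' ⟨h, hcon⟩
  obtain ⟨hx, hy, hl⟩ := h1
  have hl' : Lo r m Q y := low_rel hx hy (Or.inl h) hl
  exact ⟨⟨fun z => tw_up hs hQ hx hy hl, fun z => tw_dn hs hQ hy hx hl'⟩,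
    ⟨fun z => tw_up hs hQ hy hx hl', fun z => tw_dn hs hQ hx hy hl⟩⟩

theorem inv_refl (hr : SO r) : Inv r r V m :=
  ⟨fun _ _ h => h, hr, fun _ h => h, fun _ _ h => h, fun _ _ h h' => absurd h h', fun _ h => h⟩

theorem inv_step (hs : ∀ x y, r x y → x ∈ V ∧ y ∈ V) (hm : 2 ≤ m) (hI : Inv r s V m)
    (hQ : Md s V Q) : Inv r (Fl s m Q) V m := by
  have hs' : ∀ x y, s x y → x ∈ V ∧ y ∈ V := fun x y h => hs x y (hI.sub x y h)
  refine ⟨fun x y h => hI.sub x y h.1, fl_so hI.so hs' hQ, fun Z hZ => fl_md hI.so hs' hm hQ (hI.md Z hZ),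
    fun x y h => fl_dm hI.so hs' hQ (hI.dm x y h), ?_, fun D h => hI.sd D (sd_of_fl hI.so (by omega) hQ h)⟩
  intro x y h h'
  by_cases hxy : s x y
  · exact fl_tw hI.so hs' hQ hxy h'
  · obtain ⟨h1, h2⟩ := hI.tw x y h hxy
    exact ⟨fl_dm hI.so hs' hQ h1, fl_dm hI.so hs' hQ h2⟩

end Pool.Agent.P49d
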