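import Pool.Agent.Lib.P49d.Basic

/-!
# Module P49d.LeOrd: the auxiliary order

PROOF SKETCH. `Dm` is reflexive and transitive, `s x y → Dm s x y` (`hr.trans`), and then `¬ Dm s y x`
(otherwise `s x y` gives, by `Dm s y x`, `s x x`). `le_refl'`: third condition: either `∀ z, ¬ s x z` or
`∃ z, s x z`. `le_antisymm'`: both dominate, so `x ≤ y ≤ x`. `le_trans'`: `Dm s x z`; if `Dm s z x` then all
three dominate each other, `x ≤ y ≤ z`. Third condition: done if `z` has a successor or `x` has none.
Otherwise `z` has no successor and `x` has one; from `Le s y z`: `s y z` or `y` has no successor. If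
`s y z` then `s x z` since `Dm s x y`. If `y` has no successor, `Le s x y` gives `s x y`, and `Dm s y z` gives
`s x z`. `le_of_rel`: above. `not_dm_of_le_min`: see the statement: if `x ≠ y`, `Dm s x y`, and both or none
of `x`, `y` have a successor, then `Le s x y` or `Le s y x` (if also `Dm s y x` compare `x` and `y`).
-/

set_option autoImplicit false

namespace Pool.Agent.P49d

open Finset

variable {s : ℕ → ℕ → Prop} {x y z : ℕ}

theorem dm_refl : Dm s x x := by
  exact ⟨fun _ h => h, fun _ h => h⟩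

theorem dm_trans (h : Dm s x y) (h' : Dm s y z) : Dm s x z := by
  exact ⟨fun w hw => h'.1 w (h.1 w hw), fun w hw => h.2 w (h'.2 w hw)⟩

theorem dm_of_rel (hr : SO s) (h : s x y) : Dm s x y ∧ ¬ Dm s y x := by
  exact ⟨⟨fun w hw => hr.trans _ _ _ hw h, fun w hw => hr.trans _ _ _ h hw⟩,
    fun hd => hr.irr x (hd.1 x h)⟩

theorem le_refl' : Le s x x := by
  refine ⟨dm_refl, fun _ => le_rfl, ?_⟩
  by_cases h : ∃ z, s x z
  · exact Or.inr (Or.inr h)
  · push Not at h
    exact Or.inr (Or.inl h)

theorem le_antisymm' (h : Le s x y) (h' : Le s y x) : x = y := by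
  exact le_antisymm (h.2.1 h'.1) (h'.2.1 h.1)

theorem le_trans' (h : Le s x y) (h' : Le s y z) : Le s x z := by
  refine ⟨dm_trans h.1 h'.1, fun hd => ?_, ?_⟩
  · exact (h.2.1 (dm_trans h'.1 hd)).trans (h'.2.1 (dm_trans hd h.1))
  · by_cases hz : ∃ w, s z w
    · exact Or.inr (Or.inr hz)
    by_cases hx : ∀ w, ¬ s x w
    · exact Or.inr (Or.inl hx)
    rcases h'.2.2 with h1 | h1 | h1
    · exact Or.inl (h.1.2 z h1)
    · rcases h.2.2 with h2 | h2 | ⟨w, h2⟩
      · exact Or.inl (h'.1.1 x h2)
      · exact absurd h2 hx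
      · exact absurd h2 (h1 w)
    · exact absurd h1 hz

theorem le_of_rel (hr : SO s) (h : s x y) : Le s x y := by
  obtain ⟨h1, h2⟩ := dm_of_rel hr h
  exact ⟨h1, fun h3 => absurd h3 h2, Or.inl h⟩

theorem le_or_le (hxy : Dm s x y) (h : (∃ z, s x z) ↔ ∃ z, s y z) : Le s x y ∨ Le s y x := by
  have h3 : s x y ∨ (∀ z, ¬ s x z) ∨ ∃ z, s y z := by
    by_cases hx : ∃ z, s x z
    · exact Or.inr (Or.inr (h.1 hx))
    · push Not at hx
      exact Or.inr (Or.inl hx)
  have h4 : s y x ∨ (∀ z, ¬ s y z) ∨ ∃ z, s x z := by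
    by_cases hy : ∃ z, s y z
    · exact Or.inr (Or.inr (h.2 hy))
    · push Not at hy
      exact Or.inr (Or.inl hy)
  by_cases hyx : Dm s y x
  · rcases le_total x y with hle | hle
    · exact Or.inl ⟨hxy, fun _ => hle, h3⟩
    · exact Or.inr ⟨hyx, fun _ => hle, h4⟩
  · exact Or.inl ⟨hxy, fun h5 => absurd h5 hyx, h3⟩

/-- Minimal elements below a given element. -/
theorem exists_le_min {H : Finset ℕ} (hx : x ∈ H) :
    ∃ a ∈ H, Le s a x ∧ ∀ y ∈ H, Le s y a → y = a := by
  classical
  obtain ⟨a, ha, hmin⟩ := Finset.exists_min_image (H.filter (fun a => Le s a x))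
    (fun a => (H.filter (fun y => Le s y a)).card) ⟨x, mem_filter.2 ⟨hx, le_refl'⟩⟩
  obtain ⟨haH, hax⟩ := mem_filter.1 ha
  refine ⟨a, haH, hax, fun y hy hya => ?_⟩
  by_contra hne
  have h1 := hmin y (mem_filter.2 ⟨hy, le_trans' hya hax⟩)
  have h2 : (H.filter (fun w => Le s w y)).card < (H.filter (fun w => Le s w a)).card := by
    apply Finset.card_lt_card
    rw [Finset.ssubset_iff_of_subset]
    · refine ⟨a, mem_filter.2 ⟨haH, le_refl'⟩, fun h3 => hne ?_⟩
      exact le_antisymm' hya (mem_filter.1 h3).2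
    · intro w hw
      obtain ⟨h3, h4⟩ := mem_filter.1 hw
      exact mem_filter.2 ⟨h3, le_trans' h4 hya⟩
  omega

/-- A finite set of non-`Lo` elements has a transversal for the components. -/
theorem exists_transversal {α : Type} [DecidableEq α] {r : α → α → Prop} (U A : Finset α)
    (hA : A ⊆ U) : ∃ R ⊆ A, (∀ x ∈ R, ∀ y ∈ R, x ≠ y → ¬ Cn r U x y) ∧
      ∀ a ∈ A, ∃ x ∈ R, Cn r U x a := by
  induction A using Finset.induction_on with
  | empty =>
    exact ⟨∅, Finset.empty_subset _, fun x hx => absurd hx (Finset.notMem_empty _),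
      fun x hx => absurd hx (Finset.notMem_empty _)⟩
  | insert a A ha ih =>
    obtain ⟨R, hR, h1, h2⟩ := ih (fun z hz => hA (mem_insert_of_mem hz))
    have haU : a ∈ U := hA (mem_insert_self _ _)
    by_cases h : ∃ x ∈ R, Cn r U x a
    · refine ⟨R, hR.trans (subset_insert _ _), h1, fun b hb => ?_⟩
      rcases mem_insert.1 hb with hb | hb
      · rw [hb]
        exact h
      · exact h2 b hb
    · push Not at h
      refine ⟨insert a R, insert_subset_insert _ hR, ?_, ?_⟩
      · intro x hx y hy hxy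
        rcases mem_insert.1 hx with hx | hx
        · rcases mem_insert.1 hy with hy | hy
          · exact absurd (hx.trans hy.symm) hxy
          · rw [hx]
            intro hc
            exact h y hy (cn_symm hc)
        · rcases mem_insert.1 hy with hy | hy
          · rw [hy]
            exact h x hx
          · exact h1 x hx y hy hxy
      · intro b hb
        rcases mem_insert.1 hb with hb | hb
        · exact ⟨a, mem_insert_self _ _, by rw [hb]; exact cn_refl haU⟩
        · obtain ⟨x, hx, hxb⟩ := h2 b hb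
          exact ⟨x, mem_insert_of_mem hx, hxb⟩

end Pool.Agent.P49d
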