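import Pool.Agent.Lib.P49d.FlatP
import Pool.Agent.Lib.P49d.Clos
import Pool.Agent.Lib.P49d.Dig
import Pool.Agent.Lib.P49d.Thr

/-!
# Module P49d.Loop: the flattened order

PROOF of `star_inv`: for all `i`, `Inv r (del n r (tabP (flR n m r) (n * n) i)) (range n) m`, by induction
on `i`. `i = 0`: the table is empty, `del n r _ = r`, `inv_refl`. Step: `T = tabP … i`, `s = del n r T`,
`T' = tabP … (i + 1)`. If for no `c < n ^ (2 * m)` and `p' < n * n` the relation
`Rem n m s c (p' / n) (p' % n)` holds then `T' = T` below `n * n` and `del n r T' = s`. Otherwise let `c₀` be the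
smallest such `c` (`Nat.find`). For `x, y < n` and `p = x * n + y` (`p / n = x`, `p % n = y`, `p < n * n`):
`flR n m r T p ↔ Rem n m s c₀ x y`, so `del n r T' x y ↔ s x y ∧ ¬ Rem n m s c₀ x y ↔ Fl s m Q x y` with
`Q = Mc n s (Xc n (2 * m) c₀)`; so `del n r T' = Fl s m Q` (`funext`, `propext`; outside of `n` both are false by
`hs`), and `inv_step` with `mc_md`.

PROOF of `star_stable`: let `T` be the final table, `s = star n m r = del n r T`, `Q` a module with
`Mn s Q m 2`: witnesses `z i`, and `y i ∈ Q` with `s (z i) (y i)` (`lv_succ_iff`). By `exists_code` (`B = n`)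
there is `c < n ^ (2 * m)` whose first `2 * m` digits are the `z i` and the `y i` (all are `< n` since
`Q ⊆ range n`). Let `M = Mc n s (Xc n (2 * m) c)`; `M ⊆ Q` by `mc_least`, it contains the `z i`, `y i` (`mc_sub`), so
`Mn s M m 2` (`cn_mono`). By `exists_thr` for `M`: `l` with `¬ Mn s M m (l + 1)`, `l = 1 ∨ Mn s M m l`, `Lo ↔ Ht l`;
`l ≥ 2` since `¬ Mn s M m (l + 1)` (`mn_anti`). Take witnesses `w i` of `Mn s M m l`. If every component of
a `w i` had an element of level `l + 1`, these would be witnesses of `Mn s M m (l + 1)`. So some `w i`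
has `Ht s M l (w i)`, so it is `Lo`, and since its level is at least two there is `y ∈ M` with
`s (w i) y`. So `Rem n m s c (w i) y`. Let `c₀` be the smallest code for which some pair `p' < n * n`
satisfies `Rem`, then `flR n m r T p'`, so `T p'` by `tabP_fix`; but `Rem` contains
`s (p' / n) (p' % n)`, that is `¬ T (p' / n * n + p' % n)`.
-/

set_option autoImplicit false

namespace Pool.Agent.P49d

open Finset Pool.Agent.P99b9fe

variable {n m : ℕ} {r : ℕ → ℕ → Prop}

namespace LoopAux

private theorem pair_div {n x y : ℕ} (hy : y < n) : (x * n + y) / n = x := by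
  rw [Nat.add_comm, Nat.add_mul_div_right _ _ (by omega), Nat.div_eq_of_lt hy, Nat.zero_add]

private theorem pair_mod {n x y : ℕ} (hy : y < n) : (x * n + y) % n = y := by
  rw [Nat.add_comm, Nat.add_mul_mod_self_right, Nat.mod_eq_of_lt hy]

private theorem pair_lt {n x y : ℕ} (hx : x < n) (hy : y < n) : x * n + y < n * n := by
  have h : (x + 1) * n ≤ n * n := Nat.mul_le_mul_right n hx
  rw [Nat.succ_mul] at h
  omega

private theorem find_code {n m : ℕ} {s : ℕ → ℕ → Prop}
    (hex : ∃ c, c < n ^ (2 * m) ∧ ∃ p' < n * n, Rem n m s c (p' / n) (p' % n)) :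
    ∃ c, (c < n ^ (2 * m) ∧ ∃ p' < n * n, Rem n m s c (p' / n) (p' % n)) ∧
      ∀ c' < c, ∀ p' < n * n, ¬ Rem n m s c' (p' / n) (p' % n) := by
  classical
  refine ⟨Nat.find hex, Nat.find_spec hex, ?_⟩
  intro c' hc' p' hp' hrem
  exact Nat.find_min hex hc' ⟨lt_trans hc' (Nat.find_spec hex).1, p', hp', hrem⟩

private theorem step {n m : ℕ} {r : ℕ → ℕ → Prop} (hr : SO r)
    (hs : ∀ x y, r x y → x ∈ range n ∧ y ∈ range n) (hm : 2 ≤ m) (i : ℕ) :
    Inv r (del n r (tabP (flR n m r) (n * n) i)) (range n) m := by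
  induction i with
  | zero =>
    have h : del n r (tabP (flR n m r) (n * n) 0) = r := by
      funext x y
      exact propext ⟨fun h => h.1, fun h => ⟨h, fun hf => hf⟩⟩
    rw [h]
    exact inv_refl hr
  | succ i ih =>
    generalize hT : tabP (flR n m r) (n * n) i = T at ih
    have hT' : ∀ p, tabP (flR n m r) (n * n) (i + 1) p ↔ p < n * n ∧ (T p ∨ flR n m r T p) := by
      intro p
      show p < n * n ∧ (tabP (flR n m r) (n * n) i p ∨
        flR n m r (tabP (flR n m r) (n * n) i) p) ↔ _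
      rw [hT]
    by_cases hex : ∃ c, c < n ^ (2 * m) ∧ ∃ p' < n * n,
        Rem n m (del n r T) c (p' / n) (p' % n)
    · obtain ⟨c0, ⟨hc0, p0, hp0, hrem0⟩, hmin⟩ := find_code hex
      have hfl : ∀ p < n * n, (flR n m r T p ↔ Rem n m (del n r T) c0 (p / n) (p % n)) := by
        intro p hp
        constructor
        · rintro ⟨c, hc, hrem, hmin'⟩
          rcases lt_trichotomy c c0 with h | h | h
          · exact absurd hrem (hmin c h p hp)
          · rw [← h]
            exact hrem
          · exact absurd hrem0 (hmin' c0 h p0 hp0)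
        · intro hrem
          exact ⟨c0, hc0, hrem, hmin⟩
      have heq : del n r (tabP (flR n m r) (n * n) (i + 1)) =
          Fl (del n r T) m (Mc n (del n r T) (Xc n (2 * m) c0)) := by
        funext x y
        apply propext
        constructor
        · rintro ⟨hxy, hn⟩
          have hx := mem_range.1 (hs x y hxy).1
          have hy := mem_range.1 (hs x y hxy).2
          have hp := pair_lt hx hy
          have hnT : ¬ T (x * n + y) := fun h => hn ((hT' _).2 ⟨hp, Or.inl h⟩)
          refine ⟨⟨hxy, hnT⟩, ?_⟩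
          rintro ⟨h1, h2, h3⟩
          apply hn
          refine (hT' _).2 ⟨hp, Or.inr ((hfl _ hp).2 ?_)⟩
          rw [pair_div hy, pair_mod hy]
          exact ⟨⟨hxy, hnT⟩, h1, h2, h3⟩
        · rintro ⟨⟨hxy, hnT⟩, h2⟩
          have hy := mem_range.1 (hs x y hxy).2
          refine ⟨hxy, ?_⟩
          intro h
          obtain ⟨hp, h | h⟩ := (hT' _).1 h
          · exact hnT h
          · rw [hfl _ hp, pair_div hy, pair_mod hy] at h
            exact h2 ⟨h.2.1, h.2.2.1, h.2.2.2⟩
      rw [heq]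
      exact inv_step hs hm ih mc_md
    · have heq : del n r (tabP (flR n m r) (n * n) (i + 1)) = del n r T := by
        funext x y
        apply propext
        constructor
        · rintro ⟨hxy, hn⟩
          have hx := mem_range.1 (hs x y hxy).1
          have hy := mem_range.1 (hs x y hxy).2
          exact ⟨hxy, fun h => hn ((hT' _).2 ⟨pair_lt hx hy, Or.inl h⟩)⟩
        · rintro ⟨hxy, hnT⟩
          refine ⟨hxy, ?_⟩
          intro h
          obtain ⟨hp, h | ⟨c, hc, hrem, _⟩⟩ := (hT' _).1 h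
          · exact hnT h
          · exact hex ⟨c, hc, _, hp, hrem⟩
      rw [heq]
      exact ih

end LoopAux

open LoopAux

theorem star_inv (hr : SO r) (hs : ∀ x y, r x y → x ∈ range n ∧ y ∈ range n) (hm : 2 ≤ m) :
    Inv r (star n m r) (range n) m :=
  step hr hs hm (n * n)

theorem star_stable (hr : SO r) (hs : ∀ x y, r x y → x ∈ range n ∧ y ∈ range n) (hm : 2 ≤ m)
    (Q : Finset ℕ) (hQ : Md (star n m r) (range n) Q) : ¬ Mn (star n m r) Q m 2 := by
  classical
  rintro ⟨z, hz, hzz⟩
  have hso : SO (star n m r) := (star_inv hr hs hm).so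
  have hy : ∀ i, ∃ y, star n m r (z i) y ∧ y ∈ Q := by
    intro i
    obtain ⟨_, y, h1, h2⟩ := (lv_succ_iff (k := 0)).1 (hz i).2
    exact ⟨y, h1, lv_mem h2⟩
  choose y hy1 hy2 using hy
  have hlt : ∀ x ∈ Q, x < n := fun x hx => mem_range.1 (hQ.1 hx)
  obtain ⟨f, hf1, hf2, hf3⟩ : ∃ f : ℕ → ℕ, (∀ i : Fin m, f i = z i) ∧
      (∀ i : Fin m, f (m + i) = y i) ∧ ∀ j < 2 * m, f j ∈ Q := by
    refine ⟨fun j => if h : j < m then z ⟨j, h⟩ else if h : j - m < m then y ⟨j - m, h⟩ else 0,
      ?_, ?_, ?_⟩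
    · intro i
      simp only [i.2, dif_pos, Fin.eta]
    · intro i
      have h1 : ¬ (m + (i : ℕ) < m) := by omega
      have h2 : m + (i : ℕ) - m = i := by omega
      simp only [h1, dif_neg, not_false_eq_true, h2, i.2, dif_pos, Fin.eta]
    · intro j hj
      by_cases h : j < m
      · simp only [h, dif_pos]
        exact (hz _).1
      · have h1 : j - m < m := by omega
        simp only [h, dif_neg, not_false_eq_true, h1, dif_pos]
        exact hy2 _
  obtain ⟨c, hc, hcd⟩ := exists_code n (2 * m) f (fun j hj => hlt _ (hf3 j hj))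
  have hXQ : ∀ x, Xc n (2 * m) c x → x ∈ Q := by
    rintro x ⟨j, hj, rfl⟩
    rw [hcd j hj]
    exact hf3 j hj
  have hMQ : Mc n (star n m r) (Xc n (2 * m) c) ⊆ Q := mc_least hQ hXQ
  have hzM : ∀ i, z i ∈ Mc n (star n m r) (Xc n (2 * m) c) := by
    intro i
    refine mc_sub (hlt _ (hz i).1) ⟨i, by omega, ?_⟩
    rw [hcd _ (by omega), hf1]
  have hyM : ∀ i, y i ∈ Mc n (star n m r) (Xc n (2 * m) c) := by
    intro i
    refine mc_sub (hlt _ (hy2 i)) ⟨m + i, by omega, ?_⟩
    rw [hcd _ (by omega), hf2]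
  generalize hM : Mc n (star n m r) (Xc n (2 * m) c) = M at hMQ hzM hyM
  have hMn : Mn (star n m r) M m 2 := by
    refine ⟨z, fun i => ⟨hzM i, (lv_succ_iff (k := 0)).2 ⟨hzM i, y i, hy1 i, lv_one.2 (hyM i)⟩⟩,
      fun i j hij h => hzz i j hij (cn_mono hMQ h)⟩
  obtain ⟨l, hl1, hl2, hl3, hl4⟩ := exists_thr hso (by omega : 1 ≤ m) M
  have hl5 : l ≠ 1 := by
    rintro rfl
    exact hl2 hMn
  obtain ⟨w, hw, hww⟩ := hl3.resolve_left hl5
  obtain ⟨i, hi⟩ : ∃ i, Ht (star n m r) M l (w i) := by
    by_contra hcon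
    push Not at hcon
    have h1 : ∀ i, ∃ v, Cn (star n m r) M (w i) v ∧ Lv (star n m r) M (l + 1) v := by
      intro i
      have h2 := hcon i
      unfold Ht at h2
      push Not at h2
      exact h2
    choose v hv1 hv2 using h1
    apply hl2
    refine ⟨v, fun i => ⟨cn_right (hv1 i), hv2 i⟩, fun i j hij h => hww i j hij ?_⟩
    exact cn_trans (cn_trans (hv1 i) h) (cn_symm (hv1 j))
  have hLo : Lo (star n m r) m M (w i) := (hl4 _).2 hi
  obtain ⟨l', rfl⟩ : ∃ l', l = l' + 2 := ⟨l - 2, by omega⟩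
  obtain ⟨_, u, hu1, hu2⟩ := lv_succ_iff.1 (hw i).2
  have huM : u ∈ M := lv_mem hu2
  have hun : u < n := hlt _ (hMQ huM)
  have hwn : w i < n := hlt _ (hMQ (hw i).1)
  have hrem : Rem n m (star n m r) c (w i) u := by
    refine ⟨hu1, ?_, ?_, ?_⟩
    · rw [hM]
      exact (hw i).1
    · rw [hM]
      exact huM
    · rw [hM]
      exact hLo
  obtain ⟨c0, ⟨hc0, p0, hp0, hrem0⟩, hmin⟩ := find_code (n := n) (m := m) (s := star n m r)
    ⟨c, hc, w i * n + u, pair_lt hwn hun, by rw [pair_div hun, pair_mod hun]; exact hrem⟩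
  have hT : tabP (flR n m r) (n * n) (n * n) p0 := tabP_fix hp0 ⟨c0, hc0, hrem0, hmin⟩
  apply hrem0.1.2
  rw [Nat.div_add_mod']
  exact hT

end Pool.Agent.P49d
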