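import Pool.Agent.Lib.P49d.Thr
import Pool.Agent.Lib.P49d.Relax
import Pool.Agent.Lib.P49d.Drop

/-!
# Module P49d.MThm: low components may be treated as free tasks

PROOF of `sch_thr` by induction on `ps`, generalizing `U`, `a`, `l`. Write `L = U.filter (Ht r U l)`,
`H = U.filter (¬ Ht r U l)`; both are unions of components of `U` (`ht_congr`).

`ps = []`: `H = ∅` and `a + L.card = 0`, so `U = ∅`, `a = 0`.

`p :: ps`: by `sch_priority`: `V ⊆ H`, `q ≤ a + L.card`, `V.card + q = p ≤ m`, `V` minimal in `H` (hence in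
`U`: `u ∈ U`, `r u v`, `v ∈ H` imply that `u` is in the component of `v`, so `u ∈ H`), `Sch r (H \ V)
(a + L.card - q) ps`, and (`q = 0` or all minimal elements of `H` are in `V`).

CLAIM. There are `Q ⊆ L`, `Q.card ≤ q`, `q - Q.card ≤ a`, `Q` minimal in `U`, and `μ ≥ 1` such that for
`U₁ = U \ (V ∪ Q)`: (i) `Ht r U₁ μ x` for all `x ∈ L \ Q`, (ii) `μ = 1 ∨ Mn r U₁ m (μ - 1)`.

From the claim: `exists_thr'` gives `l' ≥ μ` with `¬ Mn r U₁ m (l' + 1)` and (`l' = 1` or
`Mn r U₁ m (l' - 1)`). Put `L' = U₁.filter (Ht r U₁ l')` (contains `L \ Q` by (i) and `ht_anti`) and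
`H' = U₁.filter (¬ Ht)`, `H' ⊆ H \ V`. `sch_relax` with `X = (H \ V) \ H'`: `Sch r H' (a + L.card - q +
X.card) ps`. With `a₁ = a - (q - Q.card)`: `a₁ + L'.card = a + L.card - q + X.card`, as `L' = (L \ Q) ∪ X`
(disjoint). The induction hypothesis gives `Sch r U₁ a₁ ps`. So `Sch r U a (p :: ps)` with the slot
`V ∪ Q` and `q - Q.card` free tasks.

PROOF OF THE CLAIM.
(A) `q = 0`: `Q = ∅`, `μ = l`. (i) `ht_sub`. (ii) if `l ≥ 2`: `mn_keep` with `l - 1`, `X = V`: for
`v ∈ V ⊆ H` some `y` in its component has level `l + 1`, hence level `l` (`lv_anti`).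
(B) `q > 0`, all minimal elements of `H` are in `V`.
 `l = 1`: the elements of `L` are isolated in `U` (if `r u x` with `x ∈ L`, `u ∈ U` then `u` has level 2
 and is in the component of `x`). `Q ⊆ L` any subset with `min q L.card` elements, `μ = 1`, (i) `ht_sub`.
 `l ≥ 2`: let `M` be the set of the minimal elements of `U` in `L`. `q ≤ M.card`: take the witnesses `z i`
 of `Mn r U m (l - 1)` and `y i ∈ U` minimal with `y i = z i` or `r (y i) (z i)` (`exists_min`); `y i` is in
 the component of `z i`, so `y` is injective; `y i ∈ M` or `y i ∈ H`, then `y i ∈ V`. So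
 `m ≤ V.card + M.card`, and `V.card + q ≤ m`. Let `M' = {x ∈ M | Lv r U l x}`.
  (B1) `q ≤ M'.card`: `Q ⊆ M'` with `q` elements, `μ = l`: (i) `ht_sub`, (ii) `mn_keep` with `l - 1`,
  `X = V ∪ Q` (for `x ∈ Q` take `y = x`).
  (B2) `M'.card < q`: `M' ⊆ Q ⊆ M` with `Q.card = q` (`Finset.exists_subsuperset_card_eq`), `μ = l - 1`.
  (i) Let `x ∈ L \ Q` and let `y` be in its component in `U₁`, of level `l` in `U₁`. Then `y` has level
  `l` in `U`, `y ∈ L` (same component of `U`), `y ∉ Q`. `y` is minimal in `U`: if `u ∈ U`, `r u y`, then `u`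
  has level `l + 1` and is in the component of `x`, against `Ht r U l x`. So `y ∈ M' ⊆ Q`, a
  contradiction. (ii) If `l = 2` then `μ = 1`. If `l ≥ 3`: `mn_drop` for `Mn r U m (l - 1)`, `X = V ∪ Q`.

`sch_of_hi`: `exists_thr`, `sch_thr`, `mn_anti`.
-/

set_option autoImplicit false

namespace Pool.Agent.P49d

open Finset Classical

variable {α : Type} [DecidableEq α] {r : α → α → Prop}

namespace MThmAux

theorem not_ht_lv {U : Finset α} {l : ℕ} {v : α} (h : ¬ Ht r U l v) :
    ∃ y, Cn r U v y ∧ Lv r U (l + 1) y := by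
  unfold Ht at h
  push Not at h
  exact h

/-- The claim in the proof of `sch_thr`. -/
theorem claim (hr : SO r) {m : ℕ} {U V : Finset α} {a l q : ℕ} (hl : 1 ≤ l)
    (hc : l = 1 ∨ Mn r U m (l - 1)) (hV : V ⊆ U.filter (fun x => ¬ Ht r U l x))
    (hVmin : ∀ v ∈ V, ∀ u ∈ U, ¬ r u v) (hle : V.card + q ≤ m)
    (hqa : q ≤ a + (U.filter (fun x => Ht r U l x)).card)
    (hq0 : q = 0 ∨ ∀ x ∈ U.filter (fun x => ¬ Ht r U l x),
      (∀ u ∈ U.filter (fun x => ¬ Ht r U l x), ¬ r u x) → x ∈ V) :
    ∃ Q ⊆ U.filter (fun x => Ht r U l x), Q.card ≤ q ∧ q - Q.card ≤ a ∧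
      (∀ v ∈ Q, ∀ u ∈ U, ¬ r u v) ∧ ∃ μ, 1 ≤ μ ∧
      (∀ x ∈ U.filter (fun x => Ht r U l x), x ∉ Q → Ht r (U \ (V ∪ Q)) μ x) ∧
      (μ = 1 ∨ Mn r (U \ (V ∪ Q)) m (μ - 1)) := by
  have hVH : ∀ v ∈ V, ∃ y, Cn r U v y ∧ Lv r U l y := by
    intro v hv
    obtain ⟨y, h1, h2⟩ := not_ht_lv (mem_filter.mp (hV hv)).2
    exact ⟨y, h1, lv_anti (Nat.le_succ l) h2⟩
  rcases hq0 with hq0 | hq0
  · -- (A)
    subst hq0
    refine ⟨∅, empty_subset _, by simp, by simp, by simp, l, hl, ?_, ?_⟩
    · intro x hx _
      exact ht_sub sdiff_subset (mem_filter.mp hx).2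
    · rcases hc with hc | hc
      · exact Or.inl hc
      · rcases Nat.lt_or_ge l 2 with h2 | h2
        · exact Or.inl (by omega)
        · refine Or.inr (mn_keep (by omega) ?_ ?_ hc)
          · intro v hv u hu
            rw [union_empty] at hv
            exact hVmin v hv u hu
          · intro v hv
            rw [union_empty] at hv
            have e : l - 1 + 1 = l := by omega
            rw [e]
            exact hVH v hv
  · rcases Nat.lt_or_ge l 2 with h2 | h2
    · -- l = 1
      have hl1 : l = 1 := by omega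
      subst hl1
      have hiso : ∀ x ∈ U.filter (fun x => Ht r U 1 x), ∀ u ∈ U, ¬ r u x := by
        intro x hx u hu hux
        obtain ⟨hxU, hxH⟩ := mem_filter.mp hx
        exact hxH u (cn_rel hxU hu (Or.inr hux)) (lv_succ_iff.mpr ⟨hu, x, hux, lv_one.mpr hxU⟩)
      obtain ⟨Q, hQL, hQc⟩ := Finset.exists_subset_card_eq
        (Nat.min_le_right q (U.filter (fun x => Ht r U 1 x)).card)
      refine ⟨Q, hQL, ?_, ?_, fun v hv => hiso v (hQL hv), 1, le_rfl, ?_, Or.inl rfl⟩
      · rw [hQc]; exact Nat.min_le_left _ _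
      · rw [hQc]; omega
      · intro x hx _
        exact ht_sub sdiff_subset (mem_filter.mp hx).2
    · -- l ≥ 2
      have hMn : Mn r U m (l - 1) := by
        rcases hc with hc | hc
        · omega
        · exact hc
      set L : Finset α := U.filter (fun x => Ht r U l x) with hL
      set M : Finset α := L.filter (fun x => ∀ u ∈ U, ¬ r u x) with hM
      have hML : M ⊆ L := filter_subset _ _
      have hqM : q ≤ M.card := by
        obtain ⟨z, hz, hzz⟩ := hMn
        choose y hyU hyz hymin using fun i => exists_min hr (hz i).1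
        have hcn : ∀ i, Cn r U (y i) (z i) := by
          intro i
          rcases hyz i with h | h
          · rw [h]; exact cn_refl (hz i).1
          · exact cn_rel (hyU i) (hz i).1 (Or.inl h)
        have hinj : Function.Injective y := by
          intro i j hij
          by_contra hne
          refine hzz i j hne (cn_trans (cn_symm (hcn i)) ?_)
          rw [hij]
          exact hcn j
        have hsub : (univ : Finset (Fin m)).image y ⊆ V ∪ M := by
          intro x hx
          obtain ⟨i, -, rfl⟩ := mem_image.mp hx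
          by_cases hh : Ht r U l (y i)
          · refine mem_union_right _ ?_
            rw [hM, mem_filter, hL, mem_filter]
            exact ⟨⟨hyU i, hh⟩, hymin i⟩
          · refine mem_union_left _ (hq0 _ (mem_filter.mpr ⟨hyU i, hh⟩) ?_)
            intro u hu
            exact hymin i u (mem_filter.mp hu).1
        have h3 := card_le_card hsub
        rw [card_image_of_injective _ hinj, card_univ, Fintype.card_fin] at h3
        have h4 := card_union_le V M
        omega
      set M' : Finset α := M.filter (fun x => Lv r U l x) with hM'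
      have hM'M : M' ⊆ M := filter_subset _ _
      have hMmin : ∀ v ∈ M, ∀ u ∈ U, ¬ r u v := fun v hv => (mem_filter.mp hv).2
      rcases Nat.lt_or_ge M'.card q with hlt | hge
      · -- (B2)
        obtain ⟨Q, hQ1, hQ2, hQc⟩ := Finset.exists_subsuperset_card_eq hM'M hlt.le hqM
        refine ⟨Q, hQ2.trans hML, hQc.le, by omega, fun v hv => hMmin v (hQ2 hv), l - 1, by omega,
          ?_, ?_⟩
        · intro x hx hxQ y hy hyl
          have e : l - 1 + 1 = l := by omega
          rw [e] at hyl
          have hyl' : Lv r U l y := lv_mono sdiff_subset hyl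
          have hxy : Cn r U x y := cn_mono sdiff_subset hy
          have hyU1 := cn_right hy
          have hyU : y ∈ U := (mem_sdiff.mp hyU1).1
          have hyQ : y ∉ Q := fun h => (mem_sdiff.mp hyU1).2 (mem_union_right _ h)
          have hxH : Ht r U l x := (mem_filter.mp hx).2
          refine hyQ (hQ1 ?_)
          rw [hM', mem_filter, hM, mem_filter, hL, mem_filter]
          refine ⟨⟨⟨hyU, (ht_congr hxy).mp hxH⟩, ?_⟩, hyl'⟩
          intro u hu huy
          have hlk : ∃ k, l = k + 1 := ⟨l - 1, by omega⟩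
          obtain ⟨k, hk⟩ := hlk
          refine hxH u (cn_trans hxy (cn_rel hyU hu (Or.inr huy))) ?_
          rw [hk] at hyl' ⊢
          exact lv_succ_iff.mpr ⟨hu, y, huy, hyl'⟩
        · rcases Nat.lt_or_ge l 3 with h3 | h3
          · exact Or.inl (by omega)
          · refine Or.inr ?_
            have hlk : ∃ k, l = k + 3 := ⟨l - 3, by omega⟩
            obtain ⟨k, hk⟩ := hlk
            have e1 : l - 1 = k + 2 := by omega
            have e2 : l - 1 - 1 = k + 1 := by omega
            rw [e2]
            rw [e1] at hMn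
            refine mn_drop ?_ hMn
            intro v hv u hu
            rcases mem_union.mp hv with hv | hv
            · exact hVmin v hv u hu
            · exact hMmin v (hQ2 hv) u hu
      · -- (B1)
        obtain ⟨Q, hQ1, hQc⟩ := Finset.exists_subset_card_eq hge
        refine ⟨Q, (hQ1.trans hM'M).trans hML, hQc.le, by omega,
          fun v hv => hMmin v (hM'M (hQ1 hv)), l, hl, ?_, Or.inr (mn_keep (by omega) ?_ ?_ hMn)⟩
        · intro x hx _
          exact ht_sub sdiff_subset (mem_filter.mp hx).2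
        · intro v hv u hu
          rcases mem_union.mp hv with hv | hv
          · exact hVmin v hv u hu
          · exact hMmin v (hM'M (hQ1 hv)) u hu
        · intro v hv
          have e : l - 1 + 1 = l := by omega
          rw [e]
          rcases mem_union.mp hv with hv | hv
          · exact hVH v hv
          · have h5 := hQ1 hv
            have h6 : v ∈ U := (mem_filter.mp (hML (hM'M h5))).1
            exact ⟨v, cn_refl h6, (mem_filter.mp h5).2⟩

end MThmAux

theorem sch_thr (hr : SO r) {m : ℕ} (hm : 1 ≤ m) (ps : List ℕ) :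
    (∀ p ∈ ps, p ≤ m) → ∀ (U : Finset α) (a l : ℕ), 1 ≤ l → ¬ Mn r U m (l + 1) →
      (l = 1 ∨ Mn r U m (l - 1)) →
      Sch r (U.filter (fun x => ¬ Ht r U l x)) (a + (U.filter (fun x => Ht r U l x)).card) ps →
      Sch r U a ps := by
  induction ps with
  | nil =>
    intro _ U a l _ _ _ h
    obtain ⟨h1, h2⟩ := h
    have h3 : (U.filter (fun x => Ht r U l x)).card = 0 := by omega
    rw [card_eq_zero] at h3
    refine ⟨?_, by omega⟩
    rw [← filter_union_filter_not_eq (fun x => Ht r U l x) U, h3, h1, empty_union]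
  | cons p ps ih =>
    intro hp U a l hl hn hc h
    set L : Finset α := U.filter (fun x => Ht r U l x) with hL
    set H : Finset α := U.filter (fun x => ¬ Ht r U l x) with hH
    obtain ⟨V, hVH, q, hq, hVq, hVmin, hSch, hq0⟩ := sch_priority h
    have hpm : p ≤ m := hp p (List.mem_cons_self ..)
    have hVmin' : ∀ v ∈ V, ∀ u ∈ U, ¬ r u v := by
      intro v hv u hu huv
      obtain ⟨hvU, hvH⟩ := mem_filter.mp (hVH hv)
      have h1 : Cn r U u v := cn_rel hu hvU (Or.inl huv)
      exact hVmin v hv u (mem_filter.mpr ⟨hu, fun h2 => hvH ((ht_congr h1).mp h2)⟩) huv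
    obtain ⟨Q, hQL, hQq, hqa, hQmin, μ, hμ, hi, hii⟩ :=
      MThmAux.claim hr hl hc hVH hVmin' (by omega) hq hq0
    obtain ⟨l', hl', hn', hc'⟩ := exists_thr' hr hm (U \ (V ∪ Q)) hμ hii
    set U₁ : Finset α := U \ (V ∪ Q) with hU₁
    set L' : Finset α := U₁.filter (fun x => Ht r U₁ l' x) with hL'
    set H' : Finset α := U₁.filter (fun x => ¬ Ht r U₁ l' x) with hH'
    have hHV : H' ⊆ H \ V := by
      intro x hx
      obtain ⟨hx1, hx2⟩ := mem_filter.mp hx
      obtain ⟨hxU, hxVQ⟩ := mem_sdiff.mp hx1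
      have hxV : x ∉ V := fun h => hxVQ (mem_union_left _ h)
      have hxQ : x ∉ Q := fun h => hxVQ (mem_union_right _ h)
      refine mem_sdiff.mpr ⟨mem_filter.mpr ⟨hxU, fun hh => hx2 ?_⟩, hxV⟩
      exact ht_anti hl' (hi x (mem_filter.mpr ⟨hxU, hh⟩) hxQ)
    have hrel := sch_relax (X := (H \ V) \ H') sdiff_subset hSch
    rw [Finset.sdiff_sdiff_eq_self hHV] at hrel
    have hdLH : Disjoint L H := disjoint_filter_filter_not U U (fun x => Ht r U l x)
    have hU1eq : U₁ = (L \ Q) ∪ (H \ V) := by
      ext x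
      rw [hU₁, mem_sdiff, mem_union, mem_union, mem_sdiff, mem_sdiff, hL, hH, mem_filter, mem_filter]
      constructor
      · rintro ⟨h1, h2⟩
        push Not at h2
        by_cases h3 : Ht r U l x
        · exact Or.inl ⟨⟨h1, h3⟩, h2.2⟩
        · exact Or.inr ⟨⟨h1, h3⟩, h2.1⟩
      · rintro (⟨⟨h1, h3⟩, h4⟩ | ⟨⟨h1, h3⟩, h4⟩)
        · refine ⟨h1, ?_⟩
          rintro (h5 | h5)
          · exact (mem_filter.mp (hVH h5)).2 h3
          · exact h4 h5
        · refine ⟨h1, ?_⟩
          rintro (h5 | h5)
          · exact h4 h5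
          · exact h3 (mem_filter.mp (hQL h5)).2
    have hc1 : U₁.card = (L.card - Q.card) + (H \ V).card := by
      rw [hU1eq, card_union_of_disjoint (hdLH.mono sdiff_subset sdiff_subset),
        card_sdiff_of_subset hQL]
    have hc2 : L'.card + H'.card = U₁.card := card_filter_add_card_filter_not _
    have hc3 : ((H \ V) \ H').card = (H \ V).card - H'.card := card_sdiff_of_subset hHV
    have hc4 : H'.card ≤ (H \ V).card := card_le_card hHV
    have hc5 : Q.card ≤ L.card := card_le_card hQL
    have hcount : a + L.card - q + ((H \ V) \ H').card = (a - (q - Q.card)) + L'.card := by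
      omega
    rw [hcount] at hrel
    have hS := ih (fun p hp' => hp p (List.mem_cons_of_mem _ hp')) U₁ (a - (q - Q.card)) l'
      (hμ.trans hl') hn' hc' hrel
    have hdis : Disjoint V Q := (hdLH.symm.mono hVH hQL)
    refine ⟨V ∪ Q, ?_, q - Q.card, hqa, ?_, ?_, hS⟩
    · exact union_subset (hVH.trans (filter_subset _ _)) (hQL.trans (filter_subset _ _))
    · rw [card_union_of_disjoint hdis]
      omega
    · intro v hv u hu
      rcases mem_union.mp hv with hv | hv
      · exact hVmin' v hv u hu
      · exact hQmin v hv u hu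

/-- Low components may be treated as free tasks. -/
theorem sch_of_hi (hr : SO r) {m : ℕ} (hm : 1 ≤ m) {U : Finset α} {a : ℕ} {ps : List ℕ}
    (hp : ∀ p ∈ ps, p ≤ m) (h : Sch r (hiS r m U) (a + (loS r m U).card) ps) : Sch r U a ps := by
  obtain ⟨l, hl, hn, hc, hx⟩ := exists_thr hr hm U
  have e1 : loS r m U = U.filter (fun x => Ht r U l x) := by
    unfold loS
    exact filter_congr (fun x _ => hx x)
  have e2 : hiS r m U = U.filter (fun x => ¬ Ht r U l x) := by
    unfold hiS
    exact filter_congr (fun x _ => not_congr (hx x))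
  rw [e1, e2] at h
  refine sch_thr hr hm ps hp U a l hl hn ?_ h
  rcases hc with hc | hc
  · exact Or.inl hc
  · exact Or.inr (mn_anti (Nat.sub_le l 1) hc)

end Pool.Agent.P49d
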