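import Pool.Agent.Lib.P99b9fe.PolyTab
import Pool.Agent.Lib.P49d.Basic

/-!
# Module P49d.PBase: polynomial time, tables for sets and relations

`PolyC`, `PolyN`, `PolyP`: lists of bits, numbers, propositions computable in polynomial time (files
`Lib/PolyTime/*`, `Lib/P8e91ed/PolyBin.lean`, `Lib/P99b9fe/PolyFin.lean`, `Lib/P99b9fe/PolyTab.lean`: `p_ex`, `p_fa`
(bounded quantifiers), `p_all`, `p_any` (over `Fin N`), `n_card`, `n_div`, `n_mod`, `cU`, `nU`, `nL` (passing to the
context with one more number), `poly_tabL` (iteration of a rule on tables, `tabL_getD`)).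
A set of numbers `< n` is given by a list `u` of bits (`sT n u`), a relation on the numbers `< n` by a
list of bits `t` (`rT n t`).

PROOF SKETCH. `poly_tb`: `PolyP.ofB (PolyB.getD ..)`. `poly_mkL`: `PolyP` gives `φ`; the list
`(List.range (S a)).map (φ a)` by `cMap`/`PolyC.map_range`. `poly_mkR`: `poly_mkL` with `S = n * n` and
`P' a p = P a (p / n) (p % n)`; for it substitute `x = p / n`, `y = p % n` in `hP` (`PolyC.reindex` along
`p ↦ ((p.1, p.2 / n p.1), p.2 % n p.1)` and `.comp`, see `poly_conn_move` in `P99b9fe/PolyConn.lean`).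
`poly_move`: a proposition or a list moved to another domain; use it for `poly_tabL`.
`poly_card`: `n_card`.
-/

set_option autoImplicit false

namespace Pool.Agent.P49d

open Finset Pool.Agent.P99b9fe Pool.Agent.Lib.PolyTime Pool.Agent.Lib.Pa7c826
open Pool.Agent.Lib.P8e91ed.PT

/-- A list of bits as a predicate. -/
def tb (l : List Bool) (x : ℕ) : Prop := l.getD x false = true

/-- The relation on the numbers `< n` given by a table. -/
def rT (n : ℕ) (t : List Bool) (x y : ℕ) : Prop := x < n ∧ y < n ∧ tb t (x * n + y)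

open Classical in
/-- The set of numbers `< n` given by a table. -/
noncomputable def sT (n : ℕ) (u : List Bool) : Finset ℕ := (range n).filter (tb u)

variable {α β : Type} {D : α → Prop} {D' : β → Prop} {ctx : List (α → List Bool)}
  {ctx' : List (β → List Bool)} {n x y : α → ℕ} {t u : α → List Bool}

theorem poly_moveC (π : β → α) (hD : ∀ b, D' b → D (π b))
    (hc : ∀ f ∈ ctx, PolyC D' ctx' (fun b => f (π b))) (h : PolyC D ctx t) :
    PolyC D' ctx' (fun b => t (π b)) := by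
  refine (PolyC.reindex (D' := D') h π hD).comp ?_
  intro f hf
  obtain ⟨g, hg, rfl⟩ := List.mem_map.1 hf
  exact hc g hg

theorem poly_moveP {P : α → Prop} (π : β → α) (hD : ∀ b, D' b → D (π b))
    (hc : ∀ f ∈ ctx, PolyC D' ctx' (fun b => f (π b))) (h : PolyP D ctx P) :
    PolyP D' ctx' (fun b => P (π b)) := by
  obtain ⟨φ, h1, h2⟩ := h
  exact ⟨fun b => φ (π b), poly_moveC (t := fun a => [φ a]) π hD hc h1,
    fun b hb => h2 (π b) (hD b hb)⟩

theorem poly_tb (ht : PolyC D ctx t) (hx : PolyN D ctx x) :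
    PolyP D ctx (fun a => tb (t a) (x a)) := PolyP.ofB (PolyB.getD ht hx)

theorem poly_rT (hn : PolyN D ctx n) (ht : PolyC D ctx t) (hx : PolyN D ctx x)
    (hy : PolyN D ctx y) : PolyP D ctx (fun a => rT (n a) (t a) (x a) (y a)) := (PolyP.lt hx hn).and ((PolyP.lt hy hn).and (poly_tb ht ((hx.mul hn).add hy)))

theorem mem_sT {n : ℕ} {u : List Bool} {x : ℕ} : x ∈ sT n u ↔ x < n ∧ tb u x := by
  simp [sT]

theorem poly_sT (hn : PolyN D ctx n) (hu : PolyC D ctx u) (hx : PolyN D ctx x) :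
    PolyP D ctx (fun a => x a ∈ sT (n a) (u a)) := ((PolyP.lt hx hn).and (poly_tb hu hx)).congr (fun _ _ => mem_sT.symm)

theorem poly_mkL {S : α → ℕ} {P : α → ℕ → Prop} (hS : PolyN D ctx S)
    (hP : PolyP (Dx D S) (cx ctx) (fun p => P p.1 p.2)) :
    ∃ u : α → List Bool, PolyC D ctx u ∧ ∀ a, D a → ∀ x, tb (u a) x ↔ x < S a ∧ P a x := by
  obtain ⟨φ, h1, h2⟩ := hP
  refine ⟨fun a => (List.range (S a)).map (fun i => φ (a, i)), cMap (φ := fun a i => φ (a, i)) hS h1,
    fun a ha x => ?_⟩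
  unfold tb
  beta_reduce
  rw [List.getD_eq_getElem?_getD, List.getElem?_map]
  by_cases hx : x < S a
  · rw [List.getElem?_range hx]
    simp only [Option.map_some, Option.getD_some]
    rw [h2 (a, x) ⟨ha, hx⟩]
    exact ⟨fun h => ⟨hx, h⟩, fun h => h.2⟩
  · rw [List.getElem?_eq_none (by simpa using hx)]
    simp [hx]

theorem poly_mkS {P : α → ℕ → Prop} (hn : PolyN D ctx n)
    (hP : PolyP (Dx D n) (cx ctx) (fun p => P p.1 p.2)) :
    ∃ u : α → List Bool, PolyC D ctx u ∧
      ∀ a, D a → ∀ x, x ∈ sT (n a) (u a) ↔ x < n a ∧ P a x := by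
  obtain ⟨u, h1, h2⟩ := poly_mkL hn hP
  refine ⟨u, h1, fun a ha x => ?_⟩
  rw [mem_sT, h2 a ha x]
  tauto

theorem poly_mkR {P : α → ℕ → ℕ → Prop} (hn : PolyN D ctx n)
    (hP : PolyP (Dx (Dx D n) (fun p => n p.1)) (cx (cx ctx)) (fun p => P p.1.1 p.1.2 p.2)) :
    ∃ t : α → List Bool, PolyC D ctx t ∧
      ∀ a, D a → ∀ x y, rT (n a) (t a) x y ↔ x < n a ∧ y < n a ∧ P a x y := by
  have hP' : PolyP (Dx D (fun a => n a * n a)) (cx ctx)
      (fun p => P p.1 (p.2 / n p.1) (p.2 % n p.1)) := by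
    refine poly_moveP (P := fun p => P p.1.1 p.1.2 p.2)
      (fun p : α × ℕ => ((p.1, p.2 / n p.1), p.2 % n p.1)) ?_ ?_ hP
    · rintro ⟨a, x⟩ ⟨ha, hx⟩
      have hn0 : 0 < n a := by
        rcases Nat.eq_zero_or_pos (n a) with h | h
        · exfalso
          simp only [h, Nat.mul_zero, Nat.not_lt_zero] at hx
        · exact h
      exact ⟨⟨ha, Nat.div_lt_of_lt_mul hx⟩, Nat.mod_lt _ hn0⟩
    · intro f hf
      have hn' : PolyN (Dx D (fun a => n a * n a)) (cx ctx) (fun p => n p.1) := nU hn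
      simp only [cx, List.mem_append, Pool.Agent.Lib.PolyTime.lift, List.mem_map,
        List.mem_singleton] at hf
      rcases hf with ⟨g, hg, rfl⟩ | rfl
      · rcases hg with ⟨g', hg', rfl⟩ | rfl
        · exact cU (PolyC.var hg')
        · exact n_div nL hn'
      · exact n_mod nL hn'
  obtain ⟨t, h1, h2⟩ := poly_mkL (S := fun a => n a * n a)
    (P := fun a x => P a (x / n a) (x % n a)) (hn.mul hn) hP'
  refine ⟨t, h1, fun a ha x y => ?_⟩
  unfold rT
  rw [h2 a ha]
  constructor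
  · rintro ⟨hx, hy, -, h3⟩
    have hn0 : 0 < n a := by omega
    rw [Nat.add_comm, Nat.add_mul_div_right _ _ hn0, Nat.div_eq_of_lt hy, Nat.zero_add,
      Nat.add_mul_mod_self_right, Nat.mod_eq_of_lt hy] at h3
    exact ⟨hx, hy, h3⟩
  · rintro ⟨hx, hy, h3⟩
    have hn0 : 0 < n a := by omega
    refine ⟨hx, hy, ?_, ?_⟩
    · have : x * n a + n a ≤ n a * n a := by
        rw [← Nat.succ_mul]
        exact Nat.mul_le_mul_right _ hx
      omega
    · rw [Nat.add_comm, Nat.add_mul_div_right _ _ hn0, Nat.div_eq_of_lt hy, Nat.zero_add,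
        Nat.add_mul_mod_self_right, Nat.mod_eq_of_lt hy]
      exact h3

theorem poly_card (hn : PolyN D ctx n) (hu : PolyC D ctx u) :
    PolyN D ctx (fun a => (sT (n a) (u a)).card) := by
  classical
  exact n_card (n := n) (P := fun a => tb (u a)) hn (poly_tb (cU hu) nL)

/-- Iterating a rule on tables (`poly_tabL` with `tb`). -/
theorem poly_tab' {R : α → (ℕ → Prop) → ℕ → Prop} {S : α → ℕ} (hS : PolyN D ctx S)
    (hR : ∀ (T : α × ℕ → List Bool) (x : (α × ℕ) × ℕ → ℕ) (D' : (α × ℕ) × ℕ → Prop)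
      (ctx' : List ((α × ℕ) × ℕ → List Bool)), (∀ p, D' p → D p.1.1) →
      (∀ f ∈ ctx, PolyC D' ctx' (fun p => f p.1.1)) → PolyC D' ctx' (fun p => T p.1) →
      PolyN D' ctx' x → PolyP D' ctx' (fun p => R p.1.1 (tb (T p.1)) (x p))) :
    ∃ T : α → List Bool, PolyC D ctx T ∧
      ∀ a, D a → tb (T a) = tabP (R a) (S a) (S a) := by
  refine ⟨_, poly_tabL (R := R) hS hR, fun a _ => ?_⟩
  funext x
  exact propext (tabL_getD _ _ _ _)

end Pool.Agent.P49d
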