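import Pool.Agent.Lib.P49d.PBase

/-!
# Module P49d.PCn: polynomial time, components

PROOF SKETCH (compare `P99b9fe/PolyConn.lean`). Breadth first search from `x a`: `poly_tab'` with `S = n` and the
rule `R T z := z ∈ U ∧ (z = x ∨ ∃ v < n, T v ∧ (r v z ∨ r z v))`, where `r = rT n t`, `U = sT n u`. For the final
table `T = tabP R n n`: if `x ∈ U` then `T z ↔ Cn r U x z`: `→` by `tabP_induct`, `←` by induction along the
path with `tabP_fix` (`z ∈ U` implies `z < n`). If `x ∉ U` both sides are handled by adding `x ∈ U` to the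
proposition: `Cn r U x y ↔ x ∈ U ∧ T y`.
-/

set_option autoImplicit false

namespace Pool.Agent.P49d

open Finset Pool.Agent.P99b9fe Pool.Agent.Lib.PolyTime Pool.Agent.Lib.Pa7c826
open Pool.Agent.Lib.P8e91ed.PT

variable {α : Type} {D : α → Prop} {ctx : List (α → List Bool)} {n x y : α → ℕ}
  {t u : α → List Bool}

namespace PCnAux

/-- The rule of the breadth first search. -/
def cnR (n : ℕ) (r : ℕ → ℕ → Prop) (U : Finset ℕ) (x : ℕ) (T : ℕ → Prop) (z : ℕ) : Prop :=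
  z ∈ U ∧ (z = x ∨ ∃ v < n, T v ∧ (r v z ∨ r z v))

theorem cnR_spec (n : ℕ) (r : ℕ → ℕ → Prop) (U : Finset ℕ) (hU : ∀ z ∈ U, z < n) (x y : ℕ) :
    (x ∈ U ∧ tabP (cnR n r U x) n n y) ↔ Cn r U x y := by
  constructor
  · rintro ⟨hx, hy⟩
    have key : ∀ z, tabP (cnR n r U x) n n z → Cn r U x z := by
      refine tabP_induct (P := fun z => Cn r U x z) ?_ n
      rintro T hT z hz ⟨h1, h2⟩
      rcases h2 with h2 | ⟨v, _, h3, h4⟩
      · rw [h2]
        exact cn_refl hx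
      · exact ⟨hx, (hT v h3).2.tail ⟨h1, h4⟩⟩
    exact key y hy
  · rintro ⟨hx, h2⟩
    refine ⟨hx, ?_⟩
    induction h2 with
    | refl => exact tabP_fix (hU x hx) ⟨hx, Or.inl rfl⟩
    | @tail b c _ hbc ih =>
      exact tabP_fix (hU c hbc.1) ⟨hbc.1, Or.inr ⟨b, tabP_lt ih, ih, hbc.2⟩⟩

end PCnAux

open PCnAux in
theorem poly_cn (hn : PolyN D ctx n) (ht : PolyC D ctx t) (hu : PolyC D ctx u)
    (hx : PolyN D ctx x) (hy : PolyN D ctx y) :
    PolyP D ctx (fun a => Cn (rT (n a) (t a)) (sT (n a) (u a)) (x a) (y a)) := by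
  obtain ⟨T, hT, hT2⟩ := poly_tab' (D := D) (ctx := ctx)
    (R := fun a => cnR (n a) (rT (n a) (t a)) (sT (n a) (u a)) (x a)) hn (by
      intro T z D' ctx' hD hc hT hz
      have hn1 : PolyN D' ctx' (fun p => n p.1.1) :=
        poly_moveC (fun p : (α × ℕ) × ℕ => p.1.1) hD hc hn
      have hx1 : PolyN D' ctx' (fun p => x p.1.1) :=
        poly_moveC (fun p : (α × ℕ) × ℕ => p.1.1) hD hc hx
      have ht1 : PolyC D' ctx' (fun p => t p.1.1) :=
        poly_moveC (fun p : (α × ℕ) × ℕ => p.1.1) hD hc ht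
      have hu1 : PolyC D' ctx' (fun p => u p.1.1) :=
        poly_moveC (fun p : (α × ℕ) × ℕ => p.1.1) hD hc hu
      have e1 : PolyP D' ctx' (fun p => z p ∈ sT (n p.1.1) (u p.1.1)) := poly_sT hn1 hu1 hz
      have e2 : PolyP D' ctx' (fun p => z p = x p.1.1) := PolyP.eq hz hx1
      have e3 : PolyP D' ctx' (fun p : (α × ℕ) × ℕ => ∃ v < n p.1.1, tb (T p.1) v ∧
          (rT (n p.1.1) (t p.1.1) v (z p) ∨ rT (n p.1.1) (t p.1.1) (z p) v)) := by
        refine p_ex (n := fun p : (α × ℕ) × ℕ => n p.1.1) hn1 ((poly_tb (cU hT) nL).and ?_)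
        exact (poly_rT (nU hn1) (cU ht1) nL (nU hz)).or (poly_rT (nU hn1) (cU ht1) (nU hz) nL)
      exact e1.and (e2.or e3))
  refine ((poly_sT hn hu hx).and (poly_tb hT hy)).congr (fun a ha => ?_)
  rw [hT2 a ha]
  exact cnR_spec (n a) _ _ (fun z hz => (mem_sT.1 hz).1) _ _

end Pool.Agent.P49d
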