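import Pool.Agent.Lib.P49d.PCn
import Pool.Agent.Lib.P49d.PLv
import Pool.Agent.Lib.P49d.Dig

/-!
# Module P49d.PLo: polynomial time, heights and low components

PROOF SKETCH. `Ht r U l x` is `∀ y < n, Cn r U x y → ¬ Lv r U (l + 1) y` (`cn_right`: `y ∈ U`, so `y < n`).
`Mn r U m l` is `∃ c < n ^ m, (∀ i : Fin m, z i ∈ U ∧ Lv r U l (z i)) ∧ ∀ i j : Fin m, i ≠ j → ¬ Cn r U (z i) (z j)`
with `z i = c / n ^ i % n` (`exists_code`; all `z i ∈ U` are `< n`); `p_ex`, `p_all`, `p_const`. `Lo` is a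
bounded quantifier (`poly_card`). `poly_loS`, `poly_hiS`: `poly_mkS`.
-/

set_option autoImplicit false

namespace Pool.Agent.P49d

open Finset Pool.Agent.P99b9fe Pool.Agent.Lib.PolyTime Pool.Agent.Lib.Pa7c826
open Pool.Agent.Lib.P8e91ed.PT

variable {α : Type} {D : α → Prop} {ctx : List (α → List Bool)} {n x l : α → ℕ}
  {t u : α → List Bool}

namespace PLoAux

theorem ht_iff {n l x : ℕ} {r : ℕ → ℕ → Prop} {u : List Bool} :
    (∀ y < n, Cn r (sT n u) x y → ¬ Lv r (sT n u) (l + 1) y) ↔ Ht r (sT n u) l x :=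
  ⟨fun h y hy => h y (mem_sT.1 (cn_right hy)).1 hy, fun h y _ hy => h y hy⟩

theorem mn_iff {n m l : ℕ} {r : ℕ → ℕ → Prop} {u : List Bool} :
    (∃ c < n ^ m, (∀ i : Fin m, c / n ^ (i : ℕ) % n ∈ sT n u ∧
      Lv r (sT n u) l (c / n ^ (i : ℕ) % n)) ∧
      ∀ i j : Fin m, i ≠ j → ¬ Cn r (sT n u) (c / n ^ (i : ℕ) % n) (c / n ^ (j : ℕ) % n)) ↔
    Mn r (sT n u) m l := by
  constructor
  · rintro ⟨c, _, h1, h2⟩
    exact ⟨fun i => c / n ^ (i : ℕ) % n, h1, h2⟩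
  · rintro ⟨z, h1, h2⟩
    obtain ⟨c, hc, hd⟩ := exists_code n m (fun j => if h : j < m then z ⟨j, h⟩ else 0) (by
      intro j hj
      simp only [hj, dif_pos]
      exact (mem_sT.1 (h1 ⟨j, hj⟩).1).1)
    have hd' : ∀ i : Fin m, c / n ^ (i : ℕ) % n = z i := by
      intro i
      rw [hd i i.2]
      simp only [i.2, dif_pos]
    refine ⟨c, hc, fun i => ?_, fun i j hij => ?_⟩
    · rw [hd' i]
      exact h1 i
    · rw [hd' i, hd' j]
      exact h2 i j hij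

theorem lo_iff {m x : ℕ} {r : ℕ → ℕ → Prop} {U : Finset ℕ} :
    (∃ l < U.card + 2, 1 ≤ l ∧ (l = 1 ∨ Mn r U m l) ∧ Ht r U l x) ↔ Lo r m U x := by
  constructor
  · rintro ⟨l, hl, h⟩
    exact ⟨l, by omega, h⟩
  · rintro ⟨l, hl, h⟩
    exact ⟨l, by omega, h⟩

end PLoAux

open PLoAux

theorem poly_ht (hn : PolyN D ctx n) (ht : PolyC D ctx t) (hu : PolyC D ctx u)
    (hl : PolyN D ctx l) (hx : PolyN D ctx x) :
    PolyP D ctx (fun a => Ht (rT (n a) (t a)) (sT (n a) (u a)) (l a) (x a)) := by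
  have n1 : PolyN (Dx D n) (cx ctx) (fun p => n p.1) := nU hn
  have t1 : PolyC (Dx D n) (cx ctx) (fun p => t p.1) := cU ht
  have u1 : PolyC (Dx D n) (cx ctx) (fun p => u p.1) := cU hu
  have l1 : PolyN (Dx D n) (cx ctx) (fun p => l p.1) := nU hl
  have x1 : PolyN (Dx D n) (cx ctx) (fun p => x p.1) := nU hx
  have y1 : PolyN (Dx D n) (cx ctx) (fun p => p.2) := nL
  exact (p_fa (P := fun a y => Cn (rT (n a) (t a)) (sT (n a) (u a)) (x a) y →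
      ¬ Lv (rT (n a) (t a)) (sT (n a) (u a)) (l a + 1) y) hn
    ((poly_cn n1 t1 u1 x1 y1).imp (poly_lv n1 t1 u1 l1.succ y1).not)).congr
      (fun a _ => ht_iff)

theorem poly_mn (m : ℕ) (hn : PolyN D ctx n) (ht : PolyC D ctx t) (hu : PolyC D ctx u)
    (hl : PolyN D ctx l) :
    PolyP D ctx (fun a => Mn (rT (n a) (t a)) (sT (n a) (u a)) m (l a)) := by
  have hN : PolyN D ctx (fun a => n a ^ m) := PolyN.pow hn m
  have n1 : PolyN (Dx D (fun a => n a ^ m)) (cx ctx) (fun p => n p.1) := nU hn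
  have t1 : PolyC (Dx D (fun a => n a ^ m)) (cx ctx) (fun p => t p.1) := cU ht
  have u1 : PolyC (Dx D (fun a => n a ^ m)) (cx ctx) (fun p => u p.1) := cU hu
  have l1 : PolyN (Dx D (fun a => n a ^ m)) (cx ctx) (fun p => l p.1) := nU hl
  have c1 : PolyN (Dx D (fun a => n a ^ m)) (cx ctx) (fun p => p.2) := nL
  have dg : ∀ i : ℕ, PolyN (Dx D (fun a => n a ^ m)) (cx ctx)
      (fun p => p.2 / n p.1 ^ i % n p.1) :=
    fun i => n_mod (n_div c1 (PolyN.pow n1 i)) n1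
  refine (p_ex (P := fun a c => (∀ i : Fin m, c / n a ^ (i : ℕ) % n a ∈ sT (n a) (u a) ∧
      Lv (rT (n a) (t a)) (sT (n a) (u a)) (l a) (c / n a ^ (i : ℕ) % n a)) ∧
      ∀ i j : Fin m, i ≠ j → ¬ Cn (rT (n a) (t a)) (sT (n a) (u a))
        (c / n a ^ (i : ℕ) % n a) (c / n a ^ (j : ℕ) % n a)) hN ?_).congr
      (fun a _ => mn_iff)
  refine PolyP.and ?_ ?_
  · exact p_all (P := fun (p : α × ℕ) (i : Fin m) => p.2 / n p.1 ^ (i : ℕ) % n p.1 ∈ sT (n p.1) (u p.1) ∧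
      Lv (rT (n p.1) (t p.1)) (sT (n p.1) (u p.1)) (l p.1) (p.2 / n p.1 ^ (i : ℕ) % n p.1))
      fun i => (poly_sT n1 u1 (dg i)).and (poly_lv n1 t1 u1 l1 (dg i))
  · refine p_all (P := fun (p : α × ℕ) (i : Fin m) => ∀ j : Fin m, i ≠ j →
      ¬ Cn (rT (n p.1) (t p.1)) (sT (n p.1) (u p.1))
        (p.2 / n p.1 ^ (i : ℕ) % n p.1) (p.2 / n p.1 ^ (j : ℕ) % n p.1)) fun i => ?_
    exact p_all (P := fun (p : α × ℕ) (j : Fin m) => i ≠ j →
      ¬ Cn (rT (n p.1) (t p.1)) (sT (n p.1) (u p.1))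
        (p.2 / n p.1 ^ (i : ℕ) % n p.1) (p.2 / n p.1 ^ (j : ℕ) % n p.1)) fun j =>
      (p_const (i ≠ j)).imp (poly_cn n1 t1 u1 (dg i) (dg j)).not

theorem poly_lo (m : ℕ) (hn : PolyN D ctx n) (ht : PolyC D ctx t) (hu : PolyC D ctx u)
    (hx : PolyN D ctx x) :
    PolyP D ctx (fun a => Lo (rT (n a) (t a)) m (sT (n a) (u a)) (x a)) := by
  have hc : PolyN D ctx (fun a => (sT (n a) (u a)).card + 2) := (poly_card hn hu).succ.succ
  have n1 : PolyN (Dx D (fun a => (sT (n a) (u a)).card + 2)) (cx ctx) (fun p => n p.1) := nU hn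
  have t1 : PolyC (Dx D (fun a => (sT (n a) (u a)).card + 2)) (cx ctx) (fun p => t p.1) := cU ht
  have u1 : PolyC (Dx D (fun a => (sT (n a) (u a)).card + 2)) (cx ctx) (fun p => u p.1) := cU hu
  have x1 : PolyN (Dx D (fun a => (sT (n a) (u a)).card + 2)) (cx ctx) (fun p => x p.1) := nU hx
  have l1 : PolyN (Dx D (fun a => (sT (n a) (u a)).card + 2)) (cx ctx) (fun p => p.2) := nL
  exact (p_ex (P := fun a l => 1 ≤ l ∧ (l = 1 ∨ Mn (rT (n a) (t a)) (sT (n a) (u a)) m l) ∧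
      Ht (rT (n a) (t a)) (sT (n a) (u a)) l (x a)) hc
    ((PolyP.le (PolyN.const 1) l1).and (((PolyP.eq l1 (PolyN.const 1)).or
      (poly_mn m n1 t1 u1 l1)).and (poly_ht n1 t1 u1 l1 x1)))).congr (fun a _ => lo_iff)

theorem poly_loS (m : ℕ) (hn : PolyN D ctx n) (ht : PolyC D ctx t) (hu : PolyC D ctx u) :
    ∃ v : α → List Bool, PolyC D ctx v ∧
      ∀ a, D a → sT (n a) (v a) = loS (rT (n a) (t a)) m (sT (n a) (u a)) := by
  have n1 : PolyN (Dx D n) (cx ctx) (fun p => n p.1) := nU hn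
  have t1 : PolyC (Dx D n) (cx ctx) (fun p => t p.1) := cU ht
  have u1 : PolyC (Dx D n) (cx ctx) (fun p => u p.1) := cU hu
  have x1 : PolyN (Dx D n) (cx ctx) (fun p => p.2) := nL
  obtain ⟨v, hv, hv'⟩ := poly_mkS (P := fun a x => x ∈ sT (n a) (u a) ∧
    Lo (rT (n a) (t a)) m (sT (n a) (u a)) x) hn
    ((poly_sT n1 u1 x1).and (poly_lo m n1 t1 u1 x1))
  refine ⟨v, hv, fun a ha => ?_⟩
  ext x
  rw [hv' a ha x, mem_loS]
  exact ⟨fun h => h.2, fun h => ⟨(mem_sT.1 h.1).1, h⟩⟩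

theorem poly_hiS (m : ℕ) (hn : PolyN D ctx n) (ht : PolyC D ctx t) (hu : PolyC D ctx u) :
    ∃ v : α → List Bool, PolyC D ctx v ∧
      ∀ a, D a → sT (n a) (v a) = hiS (rT (n a) (t a)) m (sT (n a) (u a)) := by
  have n1 : PolyN (Dx D n) (cx ctx) (fun p => n p.1) := nU hn
  have t1 : PolyC (Dx D n) (cx ctx) (fun p => t p.1) := cU ht
  have u1 : PolyC (Dx D n) (cx ctx) (fun p => u p.1) := cU hu
  have x1 : PolyN (Dx D n) (cx ctx) (fun p => p.2) := nL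
  obtain ⟨v, hv, hv'⟩ := poly_mkS (P := fun a x => x ∈ sT (n a) (u a) ∧
    ¬ Lo (rT (n a) (t a)) m (sT (n a) (u a)) x) hn
    ((poly_sT n1 u1 x1).and (poly_lo m n1 t1 u1 x1).not)
  refine ⟨v, hv, fun a ha => ?_⟩
  ext x
  rw [hv' a ha x, mem_hiS]
  exact ⟨fun h => h.2, fun h => ⟨(mem_sT.1 h.1).1, h⟩⟩

end Pool.Agent.P49d
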