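import Pool.Agent.Lib.P49d.PBase

/-!
# Module P49d.PMc: polynomial time, the module generated by a set

PROOF SKETCH. `poly_tab'` with `S = n` and `R a T z = clR (n a) (rT (n a) (t a)) (Xc (n a) q (c a)) T z`: `Xc` is a
finite disjunction over `j < q` (`p_any` over `Fin q`, `n_div`, `n_mod`, `PolyN.pow`), `sp` is a Boolean
combination of `poly_rT`, and the quantifiers are bounded (`p_ex`). The functions of `a` are moved to the
context of `poly_tab'` by `poly_moveC` (`t`, `n`, `c`). The table of `Mc` is the final table: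
`sT (n a) T = (range n).filter (tb T)`.
-/

set_option autoImplicit false

namespace Pool.Agent.P49d

open Finset Pool.Agent.P99b9fe Pool.Agent.Lib.PolyTime Pool.Agent.Lib.Pa7c826
open Pool.Agent.Lib.P8e91ed.PT

variable {α : Type} {D : α → Prop} {ctx : List (α → List Bool)} {n c x : α → ℕ}
  {t : α → List Bool}

theorem poly_xc (q : ℕ) (hn : PolyN D ctx n) (hc : PolyN D ctx c) (hx : PolyN D ctx x) :
    PolyP D ctx (fun a => Xc (n a) q (c a) (x a)) := by
  refine (p_any (N := q) (P := fun a j => c a / n a ^ (j : ℕ) % n a = x a) fun j => ?_).congr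
    (fun a _ => ?_)
  · exact PolyP.eq (n_mod (n_div hc (PolyN.pow hn j)) hn) hx
  · constructor
    · rintro ⟨j, hj⟩
      exact ⟨j, j.2, hj⟩
    · rintro ⟨j, hj, h⟩
      exact ⟨⟨j, hj⟩, h⟩

namespace PMcAux

theorem poly_iff {P Q : α → Prop} (h : PolyP D ctx P) (h' : PolyP D ctx Q) :
    PolyP D ctx (fun a => P a ↔ Q a) :=
  ((h.imp h').and (h'.imp h)).congr (fun a _ => iff_iff_implies_and_implies.symm)

theorem poly_sp {z y : α → ℕ} (hn : PolyN D ctx n) (ht : PolyC D ctx t) (hz : PolyN D ctx z)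
    (hx : PolyN D ctx x) (hy : PolyN D ctx y) :
    PolyP D ctx (fun a => sp (rT (n a) (t a)) (z a) (x a) (y a)) :=
  ((poly_iff (poly_rT hn ht hz hx) (poly_rT hn ht hz hy)).and
    (poly_iff (poly_rT hn ht hx hz) (poly_rT hn ht hy hz))).not

theorem poly_clR {z : α → ℕ} {T : α → List Bool} (q : ℕ) (hn : PolyN D ctx n)
    (ht : PolyC D ctx t) (hc : PolyN D ctx c) (hT : PolyC D ctx T) (hz : PolyN D ctx z) :
    PolyP D ctx (fun a => clR (n a) (rT (n a) (t a)) (Xc (n a) q (c a)) (tb (T a)) (z a)) := by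
  have hn1 : PolyN (Dx D n) (cx ctx) (fun p => n p.1) := nU hn
  have ht1 : PolyC (Dx D n) (cx ctx) (fun p => t p.1) := cU ht
  have hT1 : PolyC (Dx D n) (cx ctx) (fun p => T p.1) := cU hT
  have hz1 : PolyN (Dx D n) (cx ctx) (fun p => z p.1) := nU hz
  have hi1 : PolyN (Dx D n) (cx ctx) (fun p => p.2) := nL
  have hn2 : PolyN (Dx (Dx D n) (fun p => n p.1)) (cx (cx ctx)) (fun p => n p.1.1) := nU hn1
  have ht2 : PolyC (Dx (Dx D n) (fun p => n p.1)) (cx (cx ctx)) (fun p => t p.1.1) := cU ht1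
  have hT2 : PolyC (Dx (Dx D n) (fun p => n p.1)) (cx (cx ctx)) (fun p => T p.1.1) := cU hT1
  have hz2 : PolyN (Dx (Dx D n) (fun p => n p.1)) (cx (cx ctx)) (fun p => z p.1.1) := nU hz1
  have hi2 : PolyN (Dx (Dx D n) (fun p => n p.1)) (cx (cx ctx)) (fun p => p.1.2) := nU hi1
  have hj2 : PolyN (Dx (Dx D n) (fun p => n p.1)) (cx (cx ctx)) (fun p => p.2) := nL
  refine (poly_xc q hn hc hz).or ?_
  refine p_ex (P := fun a i => ∃ b < n a, tb (T a) i ∧ tb (T a) b ∧
    sp (rT (n a) (t a)) (z a) i b) hn ?_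
  refine p_ex (P := fun p b => tb (T p.1) p.2 ∧ tb (T p.1) b ∧
    sp (rT (n p.1) (t p.1)) (z p.1) p.2 b) hn1 ?_
  exact (poly_tb hT2 hi2).and ((poly_tb hT2 hj2).and (poly_sp hn2 ht2 hz2 hi2 hj2))

end PMcAux

open PMcAux

theorem poly_mc (q : ℕ) (hn : PolyN D ctx n) (ht : PolyC D ctx t) (hc : PolyN D ctx c) :
    ∃ v : α → List Bool, PolyC D ctx v ∧
      ∀ a, D a → sT (n a) (v a) = Mc (n a) (rT (n a) (t a)) (Xc (n a) q (c a)) := by
  obtain ⟨v, hv, hv'⟩ := poly_tab' (R := fun a => clR (n a) (rT (n a) (t a)) (Xc (n a) q (c a)))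
    hn (fun T x D' ctx' hD hctx hT hx =>
      poly_clR (n := fun p : (α × ℕ) × ℕ => n p.1.1) (c := fun p => c p.1.1)
        (t := fun p => t p.1.1) (T := fun p => T p.1) q
        (poly_moveC (fun p : (α × ℕ) × ℕ => p.1.1) hD hctx hn)
        (poly_moveC (fun p : (α × ℕ) × ℕ => p.1.1) hD hctx ht)
        (poly_moveC (fun p : (α × ℕ) × ℕ => p.1.1) hD hctx hc) hT hx)
  refine ⟨v, hv, fun a ha => ?_⟩
  have h := hv' a ha
  ext y
  rw [mem_sT, h]
  simp only [Mc, mem_filter, mem_range]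

end Pool.Agent.P49d
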