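import Pool.Agent.Lib.P49d.PLo
import Pool.Agent.Lib.P49d.PMc

/-!
# Module P49d.PStar: polynomial time, the flattened order

PROOF SKETCH. `poly_rem`: `poly_mc` gives the table `v` of `Mc`; then `poly_rT`, `poly_sT`, `poly_lo`.
`poly_star`: `poly_tab'` with `S = n * n` and `R a T p = flR (n a) m (rT (n a) (t a)) T p`. In the context of
`poly_tab'` (with the table `T p.1` in the context) first make the table `t'` of
`del (n a) (rT (n a) (t a)) (tb T)` by `poly_mkR` (`P x y := rT n t x y ∧ ¬ tb T (x * n + y)`; then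
`rT n t' = del n (rT n t) (tb T)` by `funext`), so the proposition is
`∃ c < n ^ (2 * m), Rem n m (rT n t') c (p / n) (p % n) ∧ ∀ c' < c, ∀ p' < n * n, ¬ Rem n m (rT n t') c' (p' / n) (p' % n)`:
`p_ex`, `p_fa`, `poly_rem`, with `cU`, `nU`, `nL`. At the end `star = del n r (final table)`: `poly_mkR` again.
-/

set_option autoImplicit false

namespace Pool.Agent.P49d

open Finset Pool.Agent.P99b9fe Pool.Agent.Lib.PolyTime Pool.Agent.Lib.Pa7c826
open Pool.Agent.Lib.P8e91ed.PT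

variable {α : Type} {D : α → Prop} {ctx : List (α → List Bool)} {n c x y : α → ℕ}
  {t : α → List Bool}

theorem poly_rem (m : ℕ) (hn : PolyN D ctx n) (ht : PolyC D ctx t) (hc : PolyN D ctx c)
    (hx : PolyN D ctx x) (hy : PolyN D ctx y) :
    PolyP D ctx (fun a => Rem (n a) m (rT (n a) (t a)) (c a) (x a) (y a)) := by
  obtain ⟨v, hv, hv'⟩ := poly_mc (2 * m) hn ht hc
  refine (((poly_rT hn ht hx hy).and ((poly_sT hn hv hx).and ((poly_sT hn hv hy).and
    (poly_lo m hn ht hv hx))))).congr (fun a ha => ?_)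
  unfold Rem
  rw [hv' a ha]

namespace PStarAux

theorem poly_del {T : α → List Bool} (hn : PolyN D ctx n) (ht : PolyC D ctx t)
    (hT : PolyC D ctx T) :
    ∃ t' : α → List Bool, PolyC D ctx t' ∧
      ∀ a, D a → rT (n a) (t' a) = del (n a) (rT (n a) (t a)) (tb (T a)) := by
  have hn1 : PolyN (Dx D n) (cx ctx) (fun p => n p.1) := nU hn
  have ht1 : PolyC (Dx D n) (cx ctx) (fun p => t p.1) := cU ht
  have hT1 : PolyC (Dx D n) (cx ctx) (fun p => T p.1) := cU hT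
  have hi1 : PolyN (Dx D n) (cx ctx) (fun p => p.2) := nL
  have hn2 : PolyN (Dx (Dx D n) (fun p => n p.1)) (cx (cx ctx)) (fun p => n p.1.1) := nU hn1
  have ht2 : PolyC (Dx (Dx D n) (fun p => n p.1)) (cx (cx ctx)) (fun p => t p.1.1) := cU ht1
  have hT2 : PolyC (Dx (Dx D n) (fun p => n p.1)) (cx (cx ctx)) (fun p => T p.1.1) := cU hT1
  have hi2 : PolyN (Dx (Dx D n) (fun p => n p.1)) (cx (cx ctx)) (fun p => p.1.2) := nU hi1
  have hj2 : PolyN (Dx (Dx D n) (fun p => n p.1)) (cx (cx ctx)) (fun p => p.2) := nL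
  obtain ⟨t', ht', h⟩ := poly_mkR
    (P := fun a x y => rT (n a) (t a) x y ∧ ¬ tb (T a) (x * n a + y)) hn
    ((poly_rT hn2 ht2 hi2 hj2).and (poly_tb hT2 ((hi2.mul hn2).add hj2)).not)
  refine ⟨t', ht', fun a ha => ?_⟩
  funext x y
  apply propext
  rw [h a ha x y]
  unfold del
  constructor
  · exact fun h => h.2.2
  · exact fun h => ⟨h.1.1, h.1.2.1, h⟩

theorem poly_flR (m : ℕ) {T : α → List Bool} {z : α → ℕ} (hn : PolyN D ctx n)
    (ht : PolyC D ctx t) (hT : PolyC D ctx T) (hz : PolyN D ctx z) :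
    PolyP D ctx (fun a => flR (n a) m (rT (n a) (t a)) (tb (T a)) (z a)) := by
  obtain ⟨t', ht', h'⟩ := poly_del hn ht hT
  have hN : PolyN D ctx (fun a => n a ^ (2 * m)) := PolyN.pow hn _
  have hn1 : PolyN (Dx D (fun a => n a ^ (2 * m))) (cx ctx) (fun p => n p.1) := nU hn
  have ht1 : PolyC (Dx D (fun a => n a ^ (2 * m))) (cx ctx) (fun p => t' p.1) := cU ht'
  have hz1 : PolyN (Dx D (fun a => n a ^ (2 * m))) (cx ctx) (fun p => z p.1) := nU hz
  have hc1 : PolyN (Dx D (fun a => n a ^ (2 * m))) (cx ctx) (fun p => p.2) := nL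
  have hn2 : PolyN (Dx (Dx D (fun a => n a ^ (2 * m))) (fun p => p.2)) (cx (cx ctx))
    (fun p => n p.1.1) := nU hn1
  have ht2 : PolyC (Dx (Dx D (fun a => n a ^ (2 * m))) (fun p => p.2)) (cx (cx ctx))
    (fun p => t' p.1.1) := cU ht1
  have hc2 : PolyN (Dx (Dx D (fun a => n a ^ (2 * m))) (fun p => p.2)) (cx (cx ctx))
    (fun p => p.2) := nL
  have hn3 : PolyN (Dx (Dx (Dx D (fun a => n a ^ (2 * m))) (fun p => p.2))
    (fun p => n p.1.1 * n p.1.1)) (cx (cx (cx ctx))) (fun p => n p.1.1.1) := nU hn2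
  have ht3 : PolyC (Dx (Dx (Dx D (fun a => n a ^ (2 * m))) (fun p => p.2))
    (fun p => n p.1.1 * n p.1.1)) (cx (cx (cx ctx))) (fun p => t' p.1.1.1) := cU ht2
  have hc3 : PolyN (Dx (Dx (Dx D (fun a => n a ^ (2 * m))) (fun p => p.2))
    (fun p => n p.1.1 * n p.1.1)) (cx (cx (cx ctx))) (fun p => p.1.2) := nU hc2
  have hp3 : PolyN (Dx (Dx (Dx D (fun a => n a ^ (2 * m))) (fun p => p.2))
    (fun p => n p.1.1 * n p.1.1)) (cx (cx (cx ctx))) (fun p => p.2) := nL
  have key : PolyP D ctx (fun a => ∃ c < n a ^ (2 * m),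
      Rem (n a) m (rT (n a) (t' a)) c (z a / n a) (z a % n a) ∧
      ∀ c' < c, ∀ p' < n a * n a,
        ¬ Rem (n a) m (rT (n a) (t' a)) c' (p' / n a) (p' % n a)) := by
    refine p_ex (P := fun a c => Rem (n a) m (rT (n a) (t' a)) c (z a / n a) (z a % n a) ∧
      ∀ c' < c, ∀ p' < n a * n a,
        ¬ Rem (n a) m (rT (n a) (t' a)) c' (p' / n a) (p' % n a)) hN ?_
    refine (poly_rem m hn1 ht1 hc1 (n_div hz1 hn1) (n_mod hz1 hn1)).and ?_
    refine p_fa (n := fun p : α × ℕ => p.2) (P := fun p c' => ∀ p' < n p.1 * n p.1,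
      ¬ Rem (n p.1) m (rT (n p.1) (t' p.1)) c' (p' / n p.1) (p' % n p.1)) hc1 ?_
    refine p_fa (n := fun p : (α × ℕ) × ℕ => n p.1.1 * n p.1.1) (P := fun p p' =>
      ¬ Rem (n p.1.1) m (rT (n p.1.1) (t' p.1.1)) p.2 (p' / n p.1.1) (p' % n p.1.1))
      (hn2.mul hn2) ?_
    exact (poly_rem m hn3 ht3 hc3 (n_div hp3 hn3) (n_mod hp3 hn3)).not
  refine key.congr (fun a ha => ?_)
  unfold flR
  rw [h' a ha]

end PStarAux

open PStarAux

theorem poly_star (m : ℕ) (hn : PolyN D ctx n) (ht : PolyC D ctx t) :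
    ∃ t' : α → List Bool, PolyC D ctx t' ∧
      ∀ a, D a → rT (n a) (t' a) = star (n a) m (rT (n a) (t a)) := by
  obtain ⟨T, hT, hT'⟩ := poly_tab' (R := fun a => flR (n a) m (rT (n a) (t a)))
    (S := fun a => n a * n a) (hn.mul hn) (fun T x D' ctx' hD hctx hT hx =>
      poly_flR (n := fun p : (α × ℕ) × ℕ => n p.1.1)
        (t := fun p => t p.1.1) (T := fun p => T p.1) m
        (poly_moveC (fun p : (α × ℕ) × ℕ => p.1.1) hD hctx hn)
        (poly_moveC (fun p : (α × ℕ) × ℕ => p.1.1) hD hctx ht) hT hx)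
  obtain ⟨t', ht', h'⟩ := poly_del hn ht hT
  refine ⟨t', ht', fun a ha => ?_⟩
  rw [h' a ha, hT' a ha]
  rfl

end Pool.Agent.P49d
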