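import Pool.Agent.Lib.P49d.Basic

/-!
# Module P49d.Slots: schedules as functions and as lists of slots

PROOF SKETCH. `sch_of_fun`: more generally, for `s ≤ σ x < s + D` on `U` and the list
`(List.range' s D).map ...`, by induction on `D` (generalizing `s`, `U`): the first slot is
`V = U.filter (σ x = s)`, its elements are minimal as all values are `≥ s`; on `U \ V` the values are
`≥ s + 1` and for `t > s` the sets `(U \ V).filter (σ x = t)` and `U.filter (σ x = t)` agree.
`fun_of_sch`: induction on `ps`; `a = 0` forces `q = 0`; `τ x = 0` for `x ∈ V` and `τ x = τ' x + 1` for the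
other elements; if `r x y`, `x, y ∈ U` then `y ∉ V`. `sch_of_sd`, `sd_of_sch`: from these
(`σ x + 1 ≤ D` is `σ x < D`). `sd_triv`: `Sch r U 0 (List.replicate U.card 1)` by induction on the
cardinality (`exists_min`), then `sd_of_sch`.
-/

set_option autoImplicit false

namespace Pool.Agent.P49d

open Finset

variable {α : Type} [DecidableEq α] {r : α → α → Prop} {U V : Finset α} {m D : ℕ}

theorem SlotsAux.sch_of_fun' (σ : α → ℕ) (D : ℕ) : ∀ (s : ℕ) (U : Finset α),
    (∀ x ∈ U, s ≤ σ x ∧ σ x < s + D) → (∀ x ∈ U, ∀ y ∈ U, r x y → σ x < σ y) →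
    Sch r U 0 ((List.range' s D).map (fun t => (U.filter (fun x => σ x = t)).card)) := by
  induction D with
  | zero =>
    intro s U hU _
    simp only [List.range'_zero, List.map_nil, Sch, and_true]
    rw [Finset.eq_empty_iff_forall_notMem]
    intro x hx
    have := hU x hx
    omega
  | succ D ih =>
    intro s U hU hσ
    rw [List.range'_succ, List.map_cons]
    refine ⟨U.filter (fun x => σ x = s), Finset.filter_subset _ _, 0, le_rfl, by rw [add_zero], ?_, ?_⟩
    · intro v hv u hu huv
      rw [Finset.mem_filter] at hv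
      have h1 := hσ u hu v hv.1 huv
      have h2 := (hU u hu).1
      omega
    · have h1 := ih (s + 1) (U \ U.filter (fun x => σ x = s)) (by
        intro x hx
        rw [Finset.mem_sdiff, Finset.mem_filter] at hx
        have h2 := hU x hx.1
        have h3 : σ x ≠ s := fun h => hx.2 ⟨hx.1, h⟩
        omega) (by
        intro x hx y hy hxy
        rw [Finset.mem_sdiff] at hx hy
        exact hσ x hx.1 y hy.1 hxy)
      have h2 : (List.range' (s + 1) D).map (fun t => (U.filter (fun x => σ x = t)).card) =
          (List.range' (s + 1) D).map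
            (fun t => ((U \ U.filter (fun x => σ x = s)).filter (fun x => σ x = t)).card) := by
        refine List.map_congr_left (fun t ht => ?_)
        rw [List.mem_range'_1] at ht
        congr 1
        ext x
        simp only [Finset.mem_filter, Finset.mem_sdiff]
        constructor
        · rintro ⟨hx, hxt⟩
          exact ⟨⟨hx, fun h => by omega⟩, hxt⟩
        · rintro ⟨⟨hx, _⟩, hxt⟩
          exact ⟨hx, hxt⟩
      rw [h2]
      exact h1

theorem sch_of_fun (σ : α → ℕ) (D : ℕ) (hD : ∀ x ∈ U, σ x < D)
    (hσ : ∀ x ∈ U, ∀ y ∈ U, r x y → σ x < σ y) :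
    Sch r U 0 ((List.range D).map (fun t => (U.filter (fun x => σ x = t)).card)) := by
  have := SlotsAux.sch_of_fun' (r := r) σ D 0 U (fun x hx => ⟨Nat.zero_le _, by have := hD x hx; omega⟩) hσ
  rw [← List.range_eq_range'] at this
  exact this

theorem fun_of_sch {ps : List ℕ} (h : Sch r U 0 ps) : ∃ τ : α → ℕ, (∀ x ∈ U, τ x < ps.length) ∧
    (∀ t, (U.filter (fun x => τ x = t)).card = ps.getD t 0) ∧
    ∀ x ∈ U, ∀ y ∈ U, r x y → τ x < τ y := by
  induction ps generalizing U with
  | nil =>
    obtain ⟨hU, -⟩ := h
    subst hU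
    exact ⟨fun _ => 0, by simp, by simp, by simp⟩
  | cons p ps ih =>
    obtain ⟨V, hV, q, hq, hc, hmin, hrest⟩ := h
    obtain rfl : q = 0 := by omega
    obtain ⟨τ, h1, h2, h3⟩ := ih hrest
    refine ⟨fun x => if x ∈ V then 0 else τ x + 1, ?_, ?_, ?_⟩
    · intro x hx
      simp only [List.length_cons]
      split_ifs with hxV
      · omega
      · have := h1 x (Finset.mem_sdiff.2 ⟨hx, hxV⟩)
        omega
    · intro t
      cases t with
      | zero =>
        have h4 : U.filter (fun x => (if x ∈ V then 0 else τ x + 1) = 0) = V := by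
          ext x
          simp only [Finset.mem_filter]
          constructor
          · rintro ⟨_, hx⟩
            by_contra hxV
            rw [if_neg hxV] at hx
            omega
          · intro hxV
            exact ⟨hV hxV, by rw [if_pos hxV]⟩
        rw [h4]
        simp only [List.getD_cons_zero]
        omega
      | succ t =>
        have h4 : U.filter (fun x => (if x ∈ V then 0 else τ x + 1) = t + 1) =
            (U \ V).filter (fun x => τ x = t) := by
          ext x
          simp only [Finset.mem_filter, Finset.mem_sdiff]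
          constructor
          · rintro ⟨hxU, hx⟩
            by_cases hxV : x ∈ V
            · rw [if_pos hxV] at hx
              omega
            · rw [if_neg hxV] at hx
              exact ⟨⟨hxU, hxV⟩, by omega⟩
          · rintro ⟨⟨hxU, hxV⟩, hx⟩
            exact ⟨hxU, by rw [if_neg hxV]; omega⟩
        rw [h4, h2 t]
        simp only [List.getD_cons_succ]
    · intro x hx y hy hxy
      have hyV : y ∉ V := fun hyV => hmin y hyV x hx hxy
      simp only
      rw [if_neg hyV]
      split_ifs with hxV
      · omega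
      · have := h3 x (Finset.mem_sdiff.2 ⟨hx, hxV⟩) y (Finset.mem_sdiff.2 ⟨hy, hyV⟩) hxy
        omega

theorem sch_of_sd (h : Sd r V m D) : ∃ ps : List ℕ, ps.length = D ∧ (∀ p ∈ ps, p ≤ m) ∧
    Sch r V 0 ps := by
  obtain ⟨σ, h1, h2, h3⟩ := h
  refine ⟨_, ?_, ?_, sch_of_fun σ D (fun x hx => h2 x hx) (fun x hx y hy hxy => h3 x hx y hy hxy)⟩
  · rw [List.length_map, List.length_range]
  · intro p hp
    rw [List.mem_map] at hp
    obtain ⟨t, -, rfl⟩ := hp
    convert h1 t

theorem sd_of_sch {ps : List ℕ} (hp : ∀ p ∈ ps, p ≤ m) (h : Sch r V 0 ps) :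
    Sd r V m ps.length := by
  obtain ⟨τ, h1, h2, h3⟩ := fun_of_sch h
  refine ⟨τ, ?_, fun x hx => h1 x hx, fun x hx y hy hxy => h3 x hx y hy hxy⟩
  intro u
  have h4 : ps.getD u 0 ≤ m := by
    by_cases hu : u < ps.length
    · rw [List.getD_eq_getElem _ _ hu]
      exact hp _ (List.getElem_mem hu)
    · rw [List.getD_eq_default _ _ (by omega)]
      omega
  rw [← h2 u] at h4
  convert h4

theorem SlotsAux.sch_triv (hr : SO r) : ∀ (n : ℕ) (V : Finset α), V.card = n →
    Sch r V 0 (List.replicate n 1) := by
  intro n
  induction n with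
  | zero =>
    intro V hV
    exact ⟨Finset.card_eq_zero.1 hV, rfl⟩
  | succ n ih =>
    intro V hV
    have hne : V.Nonempty := by
      rw [← Finset.card_pos]
      omega
    obtain ⟨x, hx, hmin⟩ : ∃ x ∈ V, ∀ u ∈ V, ¬ r u x := by
      obtain ⟨z, hz⟩ := hne
      obtain ⟨y, hy, -, h⟩ := exists_min hr hz
      exact ⟨y, hy, h⟩
    rw [List.replicate_succ]
    refine ⟨{x}, Finset.singleton_subset_iff.2 hx, 0, le_rfl, by simp, ?_, ?_⟩
    · intro v hv u hu
      rw [Finset.mem_singleton] at hv
      subst hv
      exact hmin u hu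
    · refine ih (V \ {x}) ?_
      rw [Finset.card_sdiff_of_subset (Finset.singleton_subset_iff.2 hx), Finset.card_singleton]
      omega

theorem sd_triv (hr : SO r) (hm : 1 ≤ m) : Sd r V m V.card := by
  have h := sd_of_sch (m := m) (ps := List.replicate V.card 1) (by
    intro p hp
    rw [List.mem_replicate] at hp
    omega) (SlotsAux.sch_triv hr V.card V rfl)
  rw [List.length_replicate] at h
  exact h

end Pool.Agent.P49d
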