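import Pool.Agent.Lib.P49d.MThm
import Pool.Agent.Lib.P49d.Slots

/-!
# Module P49d.RThm: flattening a module does not change the schedulability
-/

set_option autoImplicit false

namespace Pool.Agent.P49d

open Finset

variable {α : Type} [DecidableEq α] {r : α → α → Prop} {V Q : Finset α} {m D : ℕ}

namespace RThmAux

theorem card_split (hQ : Q ⊆ V) (g : α → ℕ) (u : ℕ) :
    (V.filter (fun x => g x = u)).card =
      (Q.filter (fun x => g x = u)).card + ((V \ Q).filter (fun x => g x = u)).card := by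
  rw [← card_union_of_disjoint (disjoint_filter_filter disjoint_sdiff), ← filter_union,
    union_sdiff_of_subset hQ]

end RThmAux

theorem sd_of_fl (hr : SO r) (hm : 1 ≤ m) (hQ : Md r V Q) (h : Sd (Fl r m Q) V m D) :
    Sd r V m D := by
  obtain ⟨σ', h1, h2, h3⟩ := h
  have hQV := hQ.1
  set ps : List ℕ := (List.range D).map (fun t => (Q.filter (fun x => σ' x = t)).card) with hps
  have hlen : ps.length = D := by simp [hps]
  have hple : ∀ p ∈ ps, p ≤ m := by
    intro p hp
    rw [hps, List.mem_map] at hp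
    obtain ⟨t, _, rfl⟩ := hp
    exact (card_le_card (filter_subset_filter _ hQV)).trans (h1 t)
  have s1 : Sch (Fl r m Q) Q 0 ps :=
    sch_of_fun σ' D (fun x hx => h2 x (hQV hx))
      (fun x hx y hy hxy => h3 x (hQV hx) y (hQV hy) hxy)
  have hlo : loS r m Q ⊆ Q := fun x hx => (mem_loS.1 hx).1
  have s2 := sch_relax hlo s1
  rw [sdiff_loS] at s2
  have s3 : Sch r (hiS r m Q) (0 + (loS r m Q).card) ps := by
    refine sch_map (f := id) (fun x _ y _ h => h) (by simp) ?_ s2
    intro x hx y hy hxy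
    exact ⟨hxy, fun hh => (mem_hiS.1 hx).2 hh.2.2⟩
  have s4 : Sch r Q 0 ps := sch_of_hi hr hm hple s3
  obtain ⟨τ, t1, t2, t3⟩ := fun_of_sch s4
  have hcard : ∀ t, (Q.filter (fun x => τ x = t)).card =
      (Q.filter (fun x => σ' x = t)).card := by
    intro t
    rw [t2]
    by_cases ht : t < D
    · rw [List.getD_eq_getElem _ _ (by rw [hlen]; exact ht)]
      simp [hps]
    · rw [List.getD_eq_default _ _ (by rw [hlen]; omega)]
      symm
      rw [card_eq_zero, filter_eq_empty_iff]
      intro x hx hxt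
      have := h2 x (hQV hx)
      omega
  have hex : ∀ x ∈ Q, ∃ z ∈ Q, σ' z = τ x := by
    intro x hx
    have h5 : 0 < (Q.filter (fun z => σ' z = τ x)).card := by
      rw [← hcard]
      exact card_pos.2 ⟨x, mem_filter.2 ⟨hx, rfl⟩⟩
    obtain ⟨z, hz⟩ := card_pos.1 h5
    exact ⟨z, (mem_filter.1 hz).1, (mem_filter.1 hz).2⟩
  refine ⟨fun x => if x ∈ Q then τ x else σ' x, ?_, ?_, ?_⟩
  · intro u
    rw [RThmAux.card_split hQV (fun x => if x ∈ Q then τ x else σ' x) u]
    have e1 : (Q.filter (fun x => (if x ∈ Q then τ x else σ' x) = u)) =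
        Q.filter (fun x => τ x = u) := by
      refine filter_congr fun x hx => ?_
      rw [if_pos hx]
    have e2 : ((V \ Q).filter (fun x => (if x ∈ Q then τ x else σ' x) = u)) =
        (V \ Q).filter (fun x => σ' x = u) := by
      refine filter_congr fun x hx => ?_
      rw [if_neg (mem_sdiff.1 hx).2]
    rw [e1, e2, hcard, ← RThmAux.card_split hQV σ' u]
    exact h1 u
  · intro x hx
    by_cases hxQ : x ∈ Q
    · simp only [if_pos hxQ]
      have := t1 x hxQ
      rw [hlen] at this
      exact this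
    · simp only [if_neg hxQ]
      exact h2 x hx
  · intro x hx y hy hxy
    by_cases hxQ : x ∈ Q <;> by_cases hyQ : y ∈ Q
    · simp only [if_pos hxQ, if_pos hyQ]
      exact t3 x hxQ y hyQ hxy
    · simp only [if_pos hxQ, if_neg hyQ]
      obtain ⟨z, hz, hzx⟩ := hex x hxQ
      rw [← hzx]
      exact h3 z (hQV hz) y hy ⟨((hQ.2 x hxQ z hz y hy hyQ).2).1 hxy, fun hh => hyQ hh.2.1⟩
    · simp only [if_neg hxQ, if_pos hyQ]
      obtain ⟨z, hz, hzy⟩ := hex y hyQ
      rw [← hzy]
      exact h3 x hx z (hQV hz) ⟨((hQ.2 y hyQ z hz x hx hxQ).1).1 hxy, fun hh => hxQ hh.1⟩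
    · simp only [if_neg hxQ, if_neg hyQ]
      exact h3 x hx y hy ⟨hxy, fun hh => hxQ hh.1⟩

end Pool.Agent.P49d
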