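import Mathlib

/-!
# Unit tasks on a fixed number of processors: the definitions of the statement

Strict partial orders `r` on a finite set `V` of tasks, schedules, modules, the classes of orders.
-/

set_option autoImplicit false

namespace Pool.Agent.P49d

variable {α : Type}

/-- Strict partial orders. -/
structure SO (r : α → α → Prop) : Prop where
  irr : ∀ x, ¬ r x x
  trans : ∀ x y z, r x y → r y z → r x z

/-- The tasks in `V`, of length one, with the precedence constraints `r`, have a schedule on `m`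
processors which meets the deadline `D`. -/
def Sd (r : α → α → Prop) (V : Finset α) (m D : ℕ) : Prop :=
  ∃ σ : α → ℕ, (∀ u : ℕ, (V.filter (fun x => σ x = u)).card ≤ m) ∧ (∀ x ∈ V, σ x + 1 ≤ D) ∧
    ∀ x ∈ V, ∀ y ∈ V, r x y → σ x + 1 ≤ σ y

/-- `x` and `y` are in the same connected component of `U` (in the comparability graph). -/
def Cn (r : α → α → Prop) (U : Finset α) (x y : α) : Prop :=
  x ∈ U ∧ Relation.ReflTransGen (fun a b => b ∈ U ∧ (r a b ∨ r b a)) x y

/-- `Q` is a module (an autonomous set) of the order on `V`: every element of `V` outside of `Q` is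
related in the same way to all elements of `Q`. -/
def Md (r : α → α → Prop) (V Q : Finset α) : Prop :=
  Q ⊆ V ∧ ∀ x ∈ Q, ∀ y ∈ Q, ∀ z ∈ V, z ∉ Q → (r z x ↔ r z y) ∧ (r x z ↔ r y z)

/-- The classes of orders `r` on `Z`. Level `0`: among any `w + 1` elements some `x` dominates
another element `y` (it has fewer predecessors and more successors in `Z`, weakly). Level `d + 1`:
`Z` is split by a labelling `c` into blocks of level `d`, and either the order is the disjoint union
of the blocks, or it is the ordered (lexicographic) sum of the blocks over an order of width at most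
`w`. -/
def Cls (r : α → α → Prop) (w : ℕ) : ℕ → Finset α → Prop
  | 0, Z => ∀ A ⊆ Z, w < A.card → ∃ x ∈ A, ∃ y ∈ A, x ≠ y ∧
      (∀ z ∈ Z, r z x → r z y) ∧ ∀ z ∈ Z, r y z → r x z
  | d + 1, Z => ∃ c : α → ℕ, (∀ i : ℕ, Cls r w d (Z.filter (fun x => c x = i))) ∧
      ((∀ x ∈ Z, ∀ y ∈ Z, r x y → c x = c y) ∨
        ((∀ x ∈ Z, ∀ y ∈ Z, ∀ x' ∈ Z, ∀ y' ∈ Z, c x = c x' → c y = c y' → c x ≠ c y →
            r x y → r x' y') ∧
          ∀ A ⊆ Z, w < A.card → (∀ x ∈ A, ∀ y ∈ A, c x = c y → x = y) →
            ∃ x ∈ A, ∃ y ∈ A, r x y))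

/-- The minimal elements of every connected up-set `C` of the order on `V` lie in `k` modules from
the class `Cls r w d`. -/
def Top (r : α → α → Prop) (k w d : ℕ) (V : Finset α) : Prop :=
  ∀ C ⊆ V, (∀ x ∈ C, ∀ y ∈ V, r x y → y ∈ C) → (∀ x ∈ C, ∀ y ∈ C, Cn r C x y) →
    ∃ Z : Fin k → Finset α, (∀ i, Md r V (Z i) ∧ Cls r w d (Z i)) ∧
      ∀ x ∈ C, (∀ y ∈ C, ¬ r y x) → ∃ i, x ∈ Z i

/-- Instances: strict partial orders on `Fin n`. -/
abbrev Inst : Type := Σ n : ℕ, {r : Fin n → Fin n → Prop // SO r}

open Classical in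
/-- The code of an instance: `n` in unary, a separator, the matrix of the order. -/
noncomputable def enc (I : Inst) : List Bool :=
  List.replicate I.1 true ++ false :: (List.range (I.1 * I.1)).map
    (fun i => decide (∃ (hx : i / I.1 < I.1) (hy : i % I.1 < I.1),
      I.2.1 ⟨i / I.1, hx⟩ ⟨i % I.1, hy⟩))

end Pool.Agent.P49d
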